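import Pool.Agent.Helper81.CompB

/-!
# Satisfiability reduces to SUBSET SUM with numbers in binary
-/

namespace Pool.Agent.Helper73.SS

open Pool.Agent.Helper81.CC

/-- The value of a binary numeral, least significant bit first. -/
def bval : List Bool → ℕ
  | [] => 0
  | b :: l => b.toNat + 2 * bval l

theorem bval_append (l l' : List Bool) : bval (l ++ l') = bval l + 2 ^ l.length * bval l' := by
  induction l with
  | nil => simp [bval]
  | cons b l ih =>
    simp only [List.cons_append, bval, ih, List.length_cons, pow_succ]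
    ring

theorem bval_map_range (β : ℕ) (f : ℕ → Bool) :
    bval ((List.range β).map f) = ∑ k ∈ Finset.range β, 2 ^ k * (f k).toNat := by
  induction β with
  | zero => simp [bval]
  | succ β ih =>
    rw [List.range_succ, List.map_append, bval_append, ih, Finset.sum_range_succ]
    simp [bval]

/-- The numeral with blocks of `β` bits, given by its bits. -/
def numeral (M β : ℕ) (P : ℕ → ℕ → Bool) : List Bool :=
  (List.range M).flatMap fun p => (List.range β).map (P p)

theorem length_numeral (M β : ℕ) (P : ℕ → ℕ → Bool) : (numeral M β P).length = M * β := by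
  simp [numeral, List.length_flatMap]

theorem bval_numeral (M β : ℕ) (P : ℕ → ℕ → Bool) :
    bval (numeral M β P) = ∑ p ∈ Finset.range M, (2 ^ β) ^ p *
      ∑ k ∈ Finset.range β, 2 ^ k * (P p k).toNat := by
  induction M with
  | zero => simp [numeral, bval]
  | succ M ih =>
    have h : numeral (M + 1) β P = numeral M β P ++ (List.range β).map (P M) := by
      simp [numeral, List.range_succ]
    rw [h, bval_append, ih, Finset.sum_range_succ, length_numeral, bval_map_range]
    congr 2
    rw [← pow_mul, mul_comm]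

/-- Digits are unique. -/
theorem digits_unique {B : ℕ} : ∀ (M : ℕ) (d e : ℕ → ℕ), (∀ p < M, d p < B) →
    (∀ p < M, e p < B) →
    ∑ p ∈ Finset.range M, B ^ p * d p = ∑ p ∈ Finset.range M, B ^ p * e p →
    ∀ p < M, d p = e p := by
  intro M
  induction M with
  | zero => intro d e _ _ _ p hp; omega
  | succ M ih =>
    intro d e hd he h
    rw [Finset.sum_range_succ', Finset.sum_range_succ'] at h
    simp only [pow_zero, one_mul, pow_succ'] at h
    have h1 : ∀ f : ℕ → ℕ, ∑ p ∈ Finset.range M, B * B ^ p * f (p + 1) =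
        B * ∑ p ∈ Finset.range M, B ^ p * f (p + 1) := by
      intro f
      rw [Finset.mul_sum]
      exact Finset.sum_congr rfl fun p _ => by ring
    rw [h1, h1] at h
    have hd0 := hd 0 (Nat.succ_pos M)
    have he0 := he 0 (Nat.succ_pos M)
    have h0 : d 0 = e 0 := by
      have h2 := congrArg (· % B) h
      simp only [Nat.mul_add_mod] at h2
      rwa [Nat.mod_eq_of_lt hd0, Nat.mod_eq_of_lt he0] at h2
    have hB : 0 < B := lt_of_le_of_lt (Nat.zero_le _) hd0
    have h3 : ∑ p ∈ Finset.range M, B ^ p * d (p + 1) = ∑ p ∈ Finset.range M, B ^ p * e (p + 1) := by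
      rw [h0] at h
      exact Nat.eq_of_mul_eq_mul_left hB (Nat.add_right_cancel h)
    intro p hp
    cases p with
    | zero => exact h0
    | succ p =>
      exact ih (fun p => d (p + 1)) (fun p => e (p + 1)) (fun p hp => hd (p + 1) (by omega))
        (fun p hp => he (p + 1) (by omega)) h3 p (by omega)

/-- A bound for the variables of the formula. -/
def nv (φ : CNF) : ℕ := (φ.flatten.map fun l => l.2).sum + 1

/-- The number of bits of a block. -/
def wd (φ : CNF) : ℕ := φ.flatten.length + 2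

/-- The names of the items: `(0, v, 0)` and `(1, v, 0)` for the literals, and `(2, c, j)` for the
slack of the clause number `c`. -/
def idx (φ : CNF) : List (ℕ × ℕ × ℕ) :=
  ((List.range (nv φ)).flatMap fun v => [(0, v, 0), (1, v, 0)]) ++
    (List.range φ.length).flatMap fun c => (List.range (φ.flatten.length + 1)).map fun j => (2, c, j)

/-- The bits of an item. -/
def bitOf (φ : CNF) (i : ℕ × ℕ × ℕ) (p k : ℕ) : Bool :=
  if i.1 = 2 then decide (p = nv φ + i.2.1 ∧ k = i.2.2)
  else decide (k = 0 ∧ (p = i.2.1 ∨ (nv φ ≤ p ∧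
    (decide (i.1 = 0), i.2.1) ∈ φ.getD (p - nv φ) [])))

/-- The bits of the target. -/
def bitTgt (φ : CNF) (p k : ℕ) : Bool :=
  decide ((p < nv φ ∧ k = 0) ∨ (nv φ ≤ p ∧ k = φ.flatten.length + 1))

/-- The numeral of an item. -/
def itemNum (φ : CNF) (i : ℕ × ℕ × ℕ) : List Bool :=
  numeral (nv φ + φ.length) (wd φ) (bitOf φ i)

/-- The numeral of the target. -/
def tgtNum (φ : CNF) : List Bool := numeral (nv φ + φ.length) (wd φ) (bitTgt φ)

theorem polyTime_idx : PolyTime idx := by
  unfold idx nv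
  fun_prop

theorem polyTime_itemNum : PolyTime (fun z : CNF × (ℕ × ℕ × ℕ) => itemNum z.1 z.2) := by
  unfold itemNum numeral bitOf wd nv
  fun_prop

theorem polyTime_tgtNum : PolyTime tgtNum := by
  unfold tgtNum numeral bitTgt wd nv
  fun_prop

/-! ### Correctness -/

/-- The item of a literal. -/
def lit (x : Bool × ℕ) : ℕ × ℕ × ℕ := (if x.1 then 0 else 1, x.2, 0)

/-- A slack item. -/
def slk (x : ℕ × ℕ) : ℕ × ℕ × ℕ := (2, x.1, x.2)

theorem lit_injective : Function.Injective lit := by
  rintro ⟨a, v⟩ ⟨b, w⟩ h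
  cases a <;> cases b <;> simp_all [lit]

theorem slk_injective : Function.Injective slk := by
  rintro ⟨a, v⟩ ⟨b, w⟩ h
  simp_all [slk]

theorem lit_ne_slk (x : Bool × ℕ) (y : ℕ × ℕ) : lit x ≠ slk y := by
  rcases x with ⟨a, v⟩
  cases a <;> simp [lit, slk]

theorem mem_idx {φ : CNF} {i : ℕ × ℕ × ℕ} : i ∈ idx φ ↔
    (∃ x : Bool × ℕ, x.2 < nv φ ∧ lit x = i) ∨
      ∃ x : ℕ × ℕ, x.1 < φ.length ∧ x.2 < φ.flatten.length + 1 ∧ slk x = i := by
  simp only [idx, List.mem_append, List.mem_flatMap, List.mem_range, List.mem_cons,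
    List.not_mem_nil, or_false, List.mem_map]
  constructor
  · rintro (⟨v, hv, rfl | rfl⟩ | ⟨c, hc, j, hj, rfl⟩)
    · exact Or.inl ⟨(true, v), hv, rfl⟩
    · exact Or.inl ⟨(false, v), hv, rfl⟩
    · exact Or.inr ⟨(c, j), hc, hj, rfl⟩
  · rintro (⟨⟨s, v⟩, hv, rfl⟩ | ⟨⟨c, j⟩, hc, hj, rfl⟩)
    · cases s
      · exact Or.inl ⟨v, hv, Or.inr rfl⟩
      · exact Or.inl ⟨v, hv, Or.inl rfl⟩
    · exact Or.inr ⟨c, hc, j, hj, rfl⟩

theorem nodup_idx (φ : CNF) : (idx φ).Nodup := by
  unfold idx
  refine List.Nodup.append ?_ ?_ ?_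
  · rw [List.nodup_flatMap]
    refine ⟨fun v _ => by simp, ?_⟩
    refine List.Pairwise.imp ?_ List.nodup_range
    intro a b hab
    simp only [Function.onFun, List.disjoint_cons_left, List.mem_cons, Prod.mk.injEq,
      List.not_mem_nil, or_false, List.disjoint_nil_left, and_true]
    simp [hab]
  · rw [List.nodup_flatMap]
    refine ⟨fun c _ => ?_, ?_⟩
    · refine List.Nodup.map ?_ List.nodup_range
      intro a b h
      simpa using h
    · refine List.Pairwise.imp ?_ List.nodup_range
      intro a b hab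
      rw [Function.onFun, List.disjoint_left]
      intro x hx hx'
      simp only [List.mem_map, List.mem_range] at hx hx'
      obtain ⟨j, _, rfl⟩ := hx
      obtain ⟨k, _, h⟩ := hx'
      simp only [Prod.mk.injEq, true_and] at h
      exact hab h.1.symm
  · rw [List.disjoint_left]
    intro x hx hx'
    simp only [List.mem_flatMap, List.mem_map, List.mem_range, List.mem_cons, List.not_mem_nil,
      or_false] at hx hx'
    obtain ⟨v, _, rfl | rfl⟩ := hx <;> obtain ⟨c, _, j, _, h⟩ := hx' <;> simp at h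

/-- The digits of an item. -/
def dig (φ : CNF) (i : ℕ × ℕ × ℕ) (p : ℕ) : ℕ :=
  ∑ k ∈ Finset.range (wd φ), 2 ^ k * (bitOf φ i p k).toNat

/-- The digits of the target. -/
def digT (φ : CNF) (p : ℕ) : ℕ :=
  ∑ k ∈ Finset.range (wd φ), 2 ^ k * (bitTgt φ p k).toNat

theorem sum_single_bit (β j : ℕ) (hj : j < β) (Q : Prop) [Decidable Q] :
    ∑ k ∈ Finset.range β, 2 ^ k * (decide (k = j ∧ Q)).toNat = if Q then 2 ^ j else 0 := by
  rw [Finset.sum_eq_single j]
  · by_cases h : Q <;> simp [h]
  · intro k _ hk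
    simp [hk]
  · intro h
    exact absurd (Finset.mem_range.2 hj) h

theorem dig_lit (φ : CNF) (x : Bool × ℕ) (p : ℕ) : dig φ (lit x) p =
    if p = x.2 ∨ (nv φ ≤ p ∧ x ∈ φ.getD (p - nv φ) []) then 1 else 0 := by
  obtain ⟨s, v⟩ := x
  have h : ∀ k, bitOf φ (lit (s, v)) p k =
      decide (k = 0 ∧ (p = v ∨ (nv φ ≤ p ∧ (s, v) ∈ φ.getD (p - nv φ) []))) := by
    intro k
    cases s <;> simp [bitOf, lit]
  unfold dig
  simp only [h]
  rw [sum_single_bit _ 0 (by unfold wd; omega)]
  simp

theorem dig_slk (φ : CNF) (x : ℕ × ℕ) (hx : x.2 < φ.flatten.length + 1) (p : ℕ) :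
    dig φ (slk x) p = if p = nv φ + x.1 then 2 ^ x.2 else 0 := by
  obtain ⟨c, j⟩ := x
  have h : ∀ k, bitOf φ (slk (c, j)) p k = decide (k = j ∧ p = nv φ + c) := by
    intro k
    simp [bitOf, slk, and_comm]
  unfold dig
  simp only [h]
  have hx' : j < φ.flatten.length + 1 := hx
  rw [sum_single_bit _ j (by unfold wd; omega)]

theorem digT_lt (φ : CNF) (p : ℕ) (hp : p < nv φ) : digT φ p = 1 := by
  have h : ∀ k, bitTgt φ p k = decide (k = 0 ∧ True) := by
    intro k
    have : ¬ nv φ ≤ p := by omega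
    simp [bitTgt, hp, this]
  unfold digT
  simp only [h]
  rw [sum_single_bit _ 0 (by unfold wd; omega)]
  simp

theorem digT_ge (φ : CNF) (p : ℕ) (hp : nv φ ≤ p) : digT φ p = 2 ^ (φ.flatten.length + 1) := by
  have h : ∀ k, bitTgt φ p k = decide (k = φ.flatten.length + 1 ∧ True) := by
    intro k
    have : ¬ p < nv φ := by omega
    simp [bitTgt, hp, this]
  unfold digT
  simp only [h]
  rw [sum_single_bit _ _ (by unfold wd; omega)]
  simp

/-- The weight of an item. -/
def wt (φ : CNF) (i : ℕ × ℕ × ℕ) : ℕ := bval (itemNum φ i)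

/-- The target. -/
def tgt (φ : CNF) : ℕ := bval (tgtNum φ)

theorem wt_eq (φ : CNF) (i : ℕ × ℕ × ℕ) : wt φ i =
    ∑ p ∈ Finset.range (nv φ + φ.length), (2 ^ wd φ) ^ p * dig φ i p := by
  unfold wt itemNum
  rw [bval_numeral]
  rfl

theorem tgt_eq (φ : CNF) : tgt φ =
    ∑ p ∈ Finset.range (nv φ + φ.length), (2 ^ wd φ) ^ p * digT φ p := by
  unfold tgt tgtNum
  rw [bval_numeral]
  rfl

theorem length_le_flatten {φ : CNF} {c : List Lit} (hc : c ∈ φ) :
    c.length ≤ φ.flatten.length := by
  rw [List.length_flatten]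
  exact List.le_sum_of_mem (List.mem_map.2 ⟨c, hc, rfl⟩)

theorem var_lt_nv {φ : CNF} {c : List Lit} (hc : c ∈ φ) {l : Lit} (hl : l ∈ c) :
    l.2 < nv φ := by
  unfold nv
  have : l.2 ≤ (φ.flatten.map fun l => l.2).sum :=
    List.le_sum_of_mem (List.mem_map.2 ⟨l, List.mem_flatten.2 ⟨c, hc, hl⟩, rfl⟩)
  omega

section Sets

variable {φ : CNF} {A : Finset (Bool × ℕ)} {S : Finset (ℕ × ℕ)}

/-- The sum of the digits of a set of items at a variable. -/
theorem sum_dig_var (_hA : ∀ x ∈ A, x.2 < nv φ) (hS : ∀ x ∈ S, x.1 < φ.length ∧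
    x.2 < φ.flatten.length + 1) {p : ℕ} (hp : p < nv φ) :
    ∑ x ∈ A, dig φ (lit x) p + ∑ x ∈ S, dig φ (slk x) p =
      (if (true, p) ∈ A then 1 else 0) + (if (false, p) ∈ A then 1 else 0) := by
  have h1 : ∑ x ∈ S, dig φ (slk x) p = 0 := by
    refine Finset.sum_eq_zero fun x hx => ?_
    rw [dig_slk φ x (hS x hx).2, if_neg (by omega)]
  have h2 : ∑ x ∈ A, dig φ (lit x) p = ∑ x ∈ A, if p = x.2 then 1 else 0 := by
    refine Finset.sum_congr rfl fun x hx => ?_
    rw [dig_lit]
    have : ¬ nv φ ≤ p := by omega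
    simp [this]
  have h3 : ∑ x ∈ A, (if p = x.2 then 1 else 0) =
      ∑ s : Bool, if (s, p) ∈ A then 1 else 0 := by
    rw [← Finset.card_filter, ← Finset.card_filter]
    refine Finset.card_bij (fun x _ => x.1) ?_ ?_ ?_
    · rintro ⟨s, v⟩ hx
      simp only [Finset.mem_filter, Finset.mem_univ, true_and] at hx ⊢
      obtain ⟨h1, rfl⟩ := hx
      exact h1
    · rintro ⟨s, v⟩ hx ⟨s', v'⟩ hx' h
      simp only [Finset.mem_filter] at hx hx'
      obtain ⟨_, rfl⟩ := hx
      obtain ⟨_, rfl⟩ := hx'
      simpa using h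
    · intro s hs
      simp only [Finset.mem_filter, Finset.mem_univ, true_and] at hs
      exact ⟨(s, p), by simp [hs], rfl⟩
  rw [h1, h2, h3, add_zero, Fintype.sum_bool]

/-- The sum of the digits of a set of items at a clause. -/
theorem sum_dig_clause (hA : ∀ x ∈ A, x.2 < nv φ) (hS : ∀ x ∈ S, x.1 < φ.length ∧
    x.2 < φ.flatten.length + 1) (c : ℕ) :
    ∑ x ∈ A, dig φ (lit x) (nv φ + c) + ∑ x ∈ S, dig φ (slk x) (nv φ + c) =
      (A.filter fun x => x ∈ φ.getD c []).card +
        ∑ j ∈ (Finset.range (φ.flatten.length + 1)).filter (fun j => (c, j) ∈ S), 2 ^ j := by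
  congr 1
  · rw [Finset.card_filter]
    refine Finset.sum_congr rfl fun x hx => ?_
    rw [dig_lit]
    have h1 : nv φ + c ≠ x.2 := by have := hA x hx; omega
    have h2 : nv φ + c - nv φ = c := by omega
    simp [h1, h2]
  · have h1 : ∑ x ∈ S, dig φ (slk x) (nv φ + c) = ∑ x ∈ S, if x.1 = c then 2 ^ x.2 else 0 := by
      refine Finset.sum_congr rfl fun x hx => ?_
      rw [dig_slk φ x (hS x hx).2]
      by_cases h : x.1 = c
      · rw [if_pos (by omega), if_pos h]
      · rw [if_neg (by omega), if_neg h]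
    rw [h1, ← Finset.sum_filter]
    refine Finset.sum_bij (fun x _ => x.2) ?_ ?_ ?_ ?_
    · rintro ⟨a, j⟩ hx
      simp only [Finset.mem_filter] at hx
      obtain ⟨h2, rfl⟩ := hx
      simp only [Finset.mem_filter, Finset.mem_range]
      exact ⟨(hS _ h2).2, h2⟩
    · rintro ⟨a, j⟩ hx ⟨a', j'⟩ hx' h
      simp only [Finset.mem_filter] at hx hx'
      obtain ⟨h2, rfl⟩ := hx
      obtain ⟨h3, rfl⟩ := hx'
      simpa using h
    · intro j hj
      simp only [Finset.mem_filter, Finset.mem_range] at hj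
      exact ⟨(c, j), by simp [hj.2], rfl⟩
    · intro x hx
      rfl

theorem sum_pow_lt (n : ℕ) (T : Finset ℕ) (hT : T ⊆ Finset.range n) : ∑ j ∈ T, 2 ^ j < 2 ^ n := by
  have h1 : ∑ j ∈ T, 2 ^ j ≤ ∑ j ∈ Finset.range n, 2 ^ j :=
    Finset.sum_le_sum_of_subset hT
  have h2 : ∑ j ∈ Finset.range n, 2 ^ j < 2 ^ n := by
    have := Nat.geomSum_lt (m := 2) (n := n) (s := Finset.range n) le_rfl (by simp)
    simpa using this
  omega

theorem card_clause_le (c : ℕ) (hc : c < φ.length) :
    (A.filter fun x => x ∈ φ.getD c []).card ≤ φ.flatten.length := by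
  have h1 : (A.filter fun x => x ∈ φ.getD c []) ⊆ (φ.getD c []).toFinset := by
    intro x hx
    simp only [Finset.mem_filter] at hx
    simpa using hx.2
  have h2 : φ.getD c [] ∈ φ := by
    rw [List.getD_eq_getElem _ _ hc]
    exact List.getElem_mem hc
  calc _ ≤ ((φ.getD c []).toFinset).card := Finset.card_le_card h1
    _ ≤ (φ.getD c []).length := List.toFinset_card_le _
    _ ≤ _ := length_le_flatten h2

theorem sum_eq_tgt_iff (hA : ∀ x ∈ A, x.2 < nv φ) (hS : ∀ x ∈ S, x.1 < φ.length ∧
    x.2 < φ.flatten.length + 1) :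
    ∑ x ∈ A, wt φ (lit x) + ∑ x ∈ S, wt φ (slk x) = tgt φ ↔
      (∀ p < nv φ, ((if (true, p) ∈ A then 1 else 0) + (if (false, p) ∈ A then 1 else 0)) = 1) ∧
      ∀ c < φ.length, (A.filter fun x => x ∈ φ.getD c []).card +
        ∑ j ∈ (Finset.range (φ.flatten.length + 1)).filter (fun j => (c, j) ∈ S), 2 ^ j =
          2 ^ (φ.flatten.length + 1) := by
  have hsum : ∑ x ∈ A, wt φ (lit x) + ∑ x ∈ S, wt φ (slk x) =
      ∑ p ∈ Finset.range (nv φ + φ.length), (2 ^ wd φ) ^ p *
        (∑ x ∈ A, dig φ (lit x) p + ∑ x ∈ S, dig φ (slk x) p) := by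
    simp only [wt_eq, mul_add, Finset.sum_add_distrib, Finset.mul_sum]
    rw [Finset.sum_comm, Finset.sum_comm (s := S)]
  have hpow : φ.flatten.length < 2 ^ (φ.flatten.length + 1) :=
    lt_trans (Nat.lt_succ_self _) Nat.lt_two_pow_self
  have hwd : 2 ^ wd φ = 2 ^ (φ.flatten.length + 1) + 2 ^ (φ.flatten.length + 1) := by
    rw [wd, show φ.flatten.length + 2 = (φ.flatten.length + 1) + 1 by rfl, pow_succ]
    ring
  have h2 : 2 ≤ 2 ^ (φ.flatten.length + 1) := by
    calc 2 = 2 ^ 1 := rfl
      _ ≤ _ := Nat.pow_le_pow_right (by omega) (by omega)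
  constructor
  · intro h
    rw [hsum, tgt_eq] at h
    have hd := digits_unique (nv φ + φ.length)
      (fun p => ∑ x ∈ A, dig φ (lit x) p + ∑ x ∈ S, dig φ (slk x) p) (digT φ)
      (by
        intro p hp
        by_cases hpv : p < nv φ
        · rw [sum_dig_var hA hS hpv, hwd]
          split_ifs <;> omega
        · obtain ⟨c, rfl⟩ : ∃ c, p = nv φ + c := ⟨p - nv φ, by omega⟩
          rw [sum_dig_clause hA hS, hwd]
          have h3 := card_clause_le (A := A) c (φ := φ) (by omega)
          have h4 := sum_pow_lt (φ.flatten.length + 1)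
            ((Finset.range (φ.flatten.length + 1)).filter (fun j => (c, j) ∈ S))
            (Finset.filter_subset _ _)
          omega)
      (by
        intro p hp
        by_cases hpv : p < nv φ
        · rw [digT_lt φ p hpv, hwd]
          omega
        · rw [digT_ge φ p (by omega), hwd]
          omega) h
    constructor
    · intro p hp
      have h3 := hd p (by omega)
      rw [sum_dig_var hA hS hp, digT_lt φ p hp] at h3
      exact h3
    · intro c hc
      have h3 := hd (nv φ + c) (by omega)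
      rw [sum_dig_clause hA hS, digT_ge φ _ (by omega)] at h3
      exact h3
  · rintro ⟨h3, h4⟩
    rw [hsum, tgt_eq]
    refine Finset.sum_congr rfl fun p hp => ?_
    rw [Finset.mem_range] at hp
    by_cases hpv : p < nv φ
    · rw [sum_dig_var hA hS hpv, digT_lt φ p hpv, h3 p hpv]
    · obtain ⟨c, rfl⟩ : ∃ c, p = nv φ + c := ⟨p - nv φ, by omega⟩
      rw [sum_dig_clause hA hS, digT_ge φ _ (by omega), h4 c (by omega)]

end Sets

/-- Every number below `2 ^ n` is a sum of different powers of two. -/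
theorem exists_pow_sum : ∀ (n m : ℕ), m < 2 ^ n → ∃ T ⊆ Finset.range n, ∑ j ∈ T, 2 ^ j = m := by
  intro n
  induction n with
  | zero =>
    intro m hm
    exact ⟨∅, by simp, by simp at hm; simp [hm]⟩
  | succ n ih =>
    intro m hm
    by_cases h : m < 2 ^ n
    · obtain ⟨T, hT, hs⟩ := ih m h
      exact ⟨T, hT.trans (Finset.range_mono (Nat.le_succ n)), hs⟩
    · obtain ⟨T, hT, hs⟩ := ih (m - 2 ^ n) (by rw [pow_succ] at hm; omega)
      refine ⟨insert n T, ?_, ?_⟩
      · intro x hx
        rcases Finset.mem_insert.1 hx with rfl | hx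
        · simp
        · exact Finset.range_mono (Nat.le_succ n) (hT hx)
      · rw [Finset.sum_insert, hs]
        · omega
        · intro hn
          have := Finset.mem_range.1 (hT hn)
          omega

theorem exists_sets_iff (φ : CNF) :
    (∃ (A : Finset (Bool × ℕ)) (S : Finset (ℕ × ℕ)), (∀ x ∈ A, x.2 < nv φ) ∧
      (∀ x ∈ S, x.1 < φ.length ∧ x.2 < φ.flatten.length + 1) ∧
      ∑ x ∈ A, wt φ (lit x) + ∑ x ∈ S, wt φ (slk x) = tgt φ) ↔ φ.Satisfiable := by
  classical
  constructor
  · rintro ⟨A, S, hA, hS, h⟩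
    obtain ⟨h1, h2⟩ := (sum_eq_tgt_iff hA hS).1 h
    refine ⟨fun v => decide ((true, v) ∈ A), fun c hc => ?_⟩
    obtain ⟨k, hk, rfl⟩ := List.mem_iff_getElem.1 hc
    have h3 := h2 k hk
    have h4 := sum_pow_lt (φ.flatten.length + 1)
      ((Finset.range (φ.flatten.length + 1)).filter (fun j => (k, j) ∈ S))
      (Finset.filter_subset _ _)
    have h5 : 0 < (A.filter fun x => x ∈ φ.getD k []).card := by omega
    obtain ⟨⟨s, v⟩, hx⟩ := Finset.card_pos.1 h5
    simp only [Finset.mem_filter] at hx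
    rw [List.getD_eq_getElem _ _ hk] at hx
    refine ⟨(s, v), hx.2, ?_⟩
    have h6 := h1 v (hA _ hx.1)
    cases s with
    | true => simp [hx.1]
    | false =>
      simp only [hx.1, if_true] at h6
      have : (true, v) ∉ A := by
        intro h7
        simp [h7] at h6
      simp [this]
  · rintro ⟨a, ha⟩
    have hex : ∀ c, ∃ T ⊆ Finset.range (φ.flatten.length + 1), c < φ.length →
        (((Finset.range (nv φ)).image fun v => (a v, v)).filter
          fun x => x ∈ φ.getD c []).card + ∑ j ∈ T, 2 ^ j = 2 ^ (φ.flatten.length + 1) := by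
      intro c
      by_cases hc : c < φ.length
      · have h1 := card_clause_le (A := (Finset.range (nv φ)).image fun v => (a v, v)) c hc
        have h2 : 0 < (((Finset.range (nv φ)).image fun v => (a v, v)).filter
            fun x => x ∈ φ.getD c []).card := by
          have hmem : φ[c] ∈ φ := List.getElem_mem hc
          obtain ⟨l, hl, hla⟩ := ha _ hmem
          refine Finset.card_pos.2 ⟨l, ?_⟩
          rw [Finset.mem_filter, List.getD_eq_getElem _ _ hc]
          refine ⟨Finset.mem_image.2 ⟨l.2, Finset.mem_range.2 (var_lt_nv hmem hl), ?_⟩, hl⟩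
          rw [hla]
        have hpow : φ.flatten.length < 2 ^ (φ.flatten.length + 1) :=
          lt_trans (Nat.lt_succ_self _) Nat.lt_two_pow_self
        obtain ⟨T, hT, hs⟩ := exists_pow_sum (φ.flatten.length + 1)
          (2 ^ (φ.flatten.length + 1) - (((Finset.range (nv φ)).image fun v => (a v, v)).filter
            fun x => x ∈ φ.getD c []).card) (by omega)
        exact ⟨T, hT, fun _ => by omega⟩
      · exact ⟨∅, by simp, fun h => absurd h hc⟩
    choose T hT hsum using hex
    refine ⟨(Finset.range (nv φ)).image fun v => (a v, v),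
      (Finset.range φ.length).biUnion fun c => (T c).image fun j => (c, j), ?_, ?_, ?_⟩
    · intro x hx
      obtain ⟨v, hv, rfl⟩ := Finset.mem_image.1 hx
      exact Finset.mem_range.1 hv
    · intro x hx
      obtain ⟨c, hc, hx⟩ := Finset.mem_biUnion.1 hx
      obtain ⟨j, hj, rfl⟩ := Finset.mem_image.1 hx
      exact ⟨Finset.mem_range.1 hc, Finset.mem_range.1 (hT c hj)⟩
    · rw [sum_eq_tgt_iff]
      · constructor
        · intro p hp
          have h1 : ∀ s, (s, p) ∈ (Finset.range (nv φ)).image (fun v => (a v, v)) ↔ a p = s := by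
            intro s
            simp only [Finset.mem_image, Finset.mem_range, Prod.mk.injEq]
            constructor
            · rintro ⟨v, _, h, rfl⟩
              exact h
            · intro h
              exact ⟨p, hp, h, rfl⟩
          simp only [h1]
          cases a p <;> simp
        · intro c hc
          rw [← hsum c hc]
          congr 2
          ext j
          simp only [Finset.mem_filter, Finset.mem_range, Finset.mem_biUnion, Finset.mem_image,
            Prod.mk.injEq]
          constructor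
          · rintro ⟨_, c', _, j', hj', rfl, rfl⟩
            exact hj'
          · intro hj
            exact ⟨Finset.mem_range.1 (hT c hj), c, hc, j, hj, rfl, rfl⟩
      · intro x hx
        obtain ⟨v, hv, rfl⟩ := Finset.mem_image.1 hx
        exact Finset.mem_range.1 hv
      · intro x hx
        obtain ⟨c, hc, hx⟩ := Finset.mem_biUnion.1 hx
        obtain ⟨j, hj, rfl⟩ := Finset.mem_image.1 hx
        exact ⟨Finset.mem_range.1 hc, Finset.mem_range.1 (hT c hj)⟩

/-- **Correctness of the reduction to SUBSET SUM.** -/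
theorem subset_sum_iff (φ : CNF) :
    (∃ J : Finset (Fin (idx φ).length), ∑ j ∈ J, wt φ ((idx φ).get j) = tgt φ) ↔
      φ.Satisfiable := by
  classical
  rw [← exists_sets_iff]
  constructor
  · rintro ⟨J, hJ⟩
    set K : Finset (ℕ × ℕ × ℕ) := J.image (idx φ).get with hK
    have hinj : Function.Injective (idx φ).get := List.nodup_iff_injective_get.1 (nodup_idx φ)
    have h1 : ∑ i ∈ K, wt φ i = tgt φ := by
      rw [hK, Finset.sum_image (fun a _ b _ h => hinj h)]
      exact hJ
    have hKmem : ∀ i ∈ K, i ∈ idx φ := by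
      intro i hi
      obtain ⟨j, _, rfl⟩ := Finset.mem_image.1 hi
      exact List.get_mem _ _
    refine ⟨K.preimage lit lit_injective.injOn, K.preimage slk slk_injective.injOn, ?_, ?_, ?_⟩
    · intro x hx
      have h2 := hKmem _ (Finset.mem_preimage.1 hx)
      rcases mem_idx.1 h2 with ⟨y, hy, h3⟩ | ⟨y, _, _, h3⟩
      · rw [← lit_injective h3]
        exact hy
      · exact absurd h3.symm (lit_ne_slk _ _)
    · intro x hx
      have h2 := hKmem _ (Finset.mem_preimage.1 hx)
      rcases mem_idx.1 h2 with ⟨y, hy, h3⟩ | ⟨y, h4, h5, h3⟩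
      · exact absurd h3 (lit_ne_slk _ _)
      · rw [← slk_injective h3]
        exact ⟨h4, h5⟩
    · rw [← h1, ← Finset.sum_image (f := wt φ) (g := lit) (fun a _ b _ h => lit_injective h),
        ← Finset.sum_image (f := wt φ) (g := slk) (fun a _ b _ h => slk_injective h),
        ← Finset.sum_union]
      · refine Finset.sum_congr ?_ fun _ _ => rfl
        ext i
        simp only [Finset.mem_union, Finset.mem_image, Finset.mem_preimage]
        constructor
        · rintro (⟨x, hx, rfl⟩ | ⟨x, hx, rfl⟩) <;> exact hx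
        · intro hi
          rcases mem_idx.1 (hKmem i hi) with ⟨y, _, rfl⟩ | ⟨y, _, _, rfl⟩
          · exact Or.inl ⟨y, hi, rfl⟩
          · exact Or.inr ⟨y, hi, rfl⟩
      · rw [Finset.disjoint_left]
        intro i hi hi'
        obtain ⟨x, _, rfl⟩ := Finset.mem_image.1 hi
        obtain ⟨y, _, h⟩ := Finset.mem_image.1 hi'
        exact lit_ne_slk x y h.symm
  · rintro ⟨A, S, hA, hS, h⟩
    let K : Finset (ℕ × ℕ × ℕ) := A.image lit ∪ S.image slk
    have hKmem : ∀ i ∈ K, i ∈ idx φ := by
      intro i hi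
      rcases Finset.mem_union.1 hi with hi | hi
      · obtain ⟨x, hx, rfl⟩ := Finset.mem_image.1 hi
        exact mem_idx.2 (Or.inl ⟨x, hA x hx, rfl⟩)
      · obtain ⟨x, hx, rfl⟩ := Finset.mem_image.1 hi
        exact mem_idx.2 (Or.inr ⟨x, (hS x hx).1, (hS x hx).2, rfl⟩)
    have h1 : ∑ i ∈ K, wt φ i = tgt φ := by
      rw [← h, ← Finset.sum_image (f := wt φ) (g := lit) (fun a _ b _ h => lit_injective h),
        ← Finset.sum_image (f := wt φ) (g := slk) (fun a _ b _ h => slk_injective h),
        ← Finset.sum_union]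
      rw [Finset.disjoint_left]
      intro i hi hi'
      obtain ⟨x, _, rfl⟩ := Finset.mem_image.1 hi
      obtain ⟨y, _, h⟩ := Finset.mem_image.1 hi'
      exact lit_ne_slk x y h.symm
    have hinj : Function.Injective (idx φ).get := List.nodup_iff_injective_get.1 (nodup_idx φ)
    refine ⟨Finset.univ.filter fun j => (idx φ).get j ∈ K, ?_⟩
    rw [← h1, ← Finset.sum_image (f := wt φ) (g := (idx φ).get) (fun a _ b _ h => hinj h)]
    refine Finset.sum_congr ?_ fun _ _ => rfl
    ext i
    simp only [Finset.mem_image, Finset.mem_filter, Finset.mem_univ, true_and]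
    constructor
    · rintro ⟨j, hj, rfl⟩
      exact hj
    · intro hi
      obtain ⟨j, hj⟩ := List.mem_iff_get.1 (hKmem i hi)
      exact ⟨j, hj ▸ hi, hj⟩

end Pool.Agent.Helper73.SS
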