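import Mathlib

/-!
# Definitions for MP_148663: unimodular vertex cones of `{x ≥ 0 : A x ≤ b}`
-/

namespace Pool.Agent.Helper73.UVC

open scoped BigOperators

/-- Pairing of an integer (row) vector with a real vector. -/
def dot {n : ℕ} (a : Fin n → ℤ) (x : Fin n → ℝ) : ℝ := ∑ j, (a j : ℝ) * x j

/-- The polyhedron `P = {x ∈ ℝⁿ : A x ≤ b, x ≥ 0}`. -/
def polyhedron {m n : ℕ} (A : Matrix (Fin m) (Fin n) ℤ) (b : Fin m → ℚ) : Set (Fin n → ℝ) :=
  {x | (∀ j, 0 ≤ x j) ∧ ∀ i, dot (A i) x ≤ (b i : ℝ)}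

/-- `F` is a facet of `P ⊆ ℝⁿ`: a nonempty (exposed) face of dimension `n - 1`. -/
def IsFacet {n : ℕ} (P F : Set (Fin n → ℝ)) : Prop :=
  IsExposed ℝ P F ∧ F.Nonempty ∧ Module.finrank ℝ (vectorSpan ℝ F) + 1 = n

/-- `a` is the normal vector of `F`, scaled to be an integer vector with greatest common
divisor `1` (such an `a` is unique up to sign when `F` is a facet). -/
def IsPrimitiveNormal {n : ℕ} (F : Set (Fin n → ℝ)) (a : Fin n → ℤ) : Prop :=
  Finset.univ.gcd a = 1 ∧ ∀ x ∈ F, ∀ y ∈ F, dot a x = dot a y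

/-- `M` is the matrix `A(u)`: it has exactly one row for each facet of `P` containing `u`,
and that row is the primitive integer normal vector of the facet. -/
def IsVertexMatrix {n k : ℕ} (P : Set (Fin n → ℝ)) (u : Fin n → ℝ)
    (M : Matrix (Fin k) (Fin n) ℤ) : Prop :=
  ∃ F : Fin k → Set (Fin n → ℝ), Function.Injective F ∧
    (∀ G : Set (Fin n → ℝ), (∃ i, F i = G) ↔ (IsFacet P G ∧ u ∈ G)) ∧
    ∀ i, IsPrimitiveNormal (F i) (M i)

/-- Every matrix `A(u)`, `u` a vertex of `P`, is square. -/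
def SquareAtVertices {n : ℕ} (P : Set (Fin n → ℝ)) : Prop :=
  ∀ u ∈ P.extremePoints ℝ, ∃ M : Matrix (Fin n) (Fin n) ℤ, IsVertexMatrix P u M

/-- The property of the question: `A(u)` is an `n × n` matrix with `|det A(u)| = 1` for every
vertex `u` of `P`. -/
def UnimodularAtVertices {n : ℕ} (P : Set (Fin n → ℝ)) : Prop :=
  ∀ u ∈ P.extremePoints ℝ, ∃ M : Matrix (Fin n) (Fin n) ℤ, IsVertexMatrix P u M ∧ |M.det| = 1

end Pool.Agent.Helper73.UVC
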