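import Mathlib
import Pool.Agent.Helper73.UVCDefs

/-!
# Local structure of a polyhedron at a nondegenerate vertex
-/

namespace Pool.Agent.Helper73.UVC

open scoped BigOperators

section dot

variable {n : ℕ}

theorem dot_add (a : Fin n → ℤ) (x y : Fin n → ℝ) : dot a (x + y) = dot a x + dot a y := by
  simp [dot, mul_add, Finset.sum_add_distrib]

theorem dot_sub (a : Fin n → ℤ) (x y : Fin n → ℝ) : dot a (x - y) = dot a x - dot a y := by
  simp [dot, mul_sub, Finset.sum_sub_distrib]

theorem dot_smul (a : Fin n → ℤ) (c : ℝ) (x : Fin n → ℝ) : dot a (c • x) = c * dot a x := by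
  simp only [dot, Pi.smul_apply, smul_eq_mul, Finset.mul_sum]
  exact Finset.sum_congr rfl fun j _ => by ring

theorem dot_neg (a : Fin n → ℤ) (x : Fin n → ℝ) : dot a (-x) = - dot a x := by
  simp [dot]

theorem dot_zero (a : Fin n → ℤ) : dot a (0 : Fin n → ℝ) = 0 := by
  simp [dot]

theorem dot_sum {ι : Type*} (s : Finset ι) (a : Fin n → ℤ) (x : ι → Fin n → ℝ) :
    dot a (∑ i ∈ s, x i) = ∑ i ∈ s, dot a (x i) := by
  classical
  induction s using Finset.induction_on with
  | empty => simp [dot_zero]
  | insert i s hi ih => rw [Finset.sum_insert hi, Finset.sum_insert hi, dot_add, ih]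

/-- `dot a` as a linear map. -/
def dotL (a : Fin n → ℤ) : (Fin n → ℝ) →ₗ[ℝ] ℝ where
  toFun := dot a
  map_add' := dot_add a
  map_smul' c x := by simp [dot_smul]

@[simp] theorem dotL_apply (a : Fin n → ℤ) (x : Fin n → ℝ) : dotL a x = dot a x := rfl

/-- `dot a` as a continuous linear map. -/
noncomputable def dotC (a : Fin n → ℤ) : StrongDual ℝ (Fin n → ℝ) :=
  LinearMap.toContinuousLinearMap (dotL a)

@[simp] theorem dotC_apply (a : Fin n → ℤ) (x : Fin n → ℝ) : dotC a x = dot a x := rfl

end dot

section localLemma

variable {n : ℕ} {K : Type*} [Fintype K] (a : K → Fin n → ℤ) (β : K → ℝ)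

/-- Polyhedron given by finitely many inequalities. -/
def hpoly : Set (Fin n → ℝ) := {x | ∀ k, dot (a k) x ≤ β k}

variable {a β}

/-- A direction which does not increase any tight constraint can be followed a bit. -/
theorem exists_step {u : Fin n → ℝ} (hu : u ∈ hpoly a β) (d : Fin n → ℝ)
    (hd : ∀ k, dot (a k) u = β k → dot (a k) d ≤ 0) :
    ∃ ε : ℝ, 0 < ε ∧ u + ε • d ∈ hpoly a β := by
  classical
  -- for each k choose ε_k
  have h1 : ∀ k : K, ∃ ε : ℝ, 0 < ε ∧ ∀ δ : ℝ, 0 < δ → δ ≤ ε → dot (a k) (u + δ • d) ≤ β k := by
    intro k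
    by_cases ht : dot (a k) u = β k
    · refine ⟨1, one_pos, fun δ hδ _ => ?_⟩
      rw [dot_add, dot_smul, ht]
      have := hd k ht
      nlinarith
    · have hlt : dot (a k) u < β k := lt_of_le_of_ne (hu k) ht
      by_cases hpos : dot (a k) d ≤ 0
      · refine ⟨1, one_pos, fun δ hδ _ => ?_⟩
        rw [dot_add, dot_smul]
        nlinarith
      · push Not at hpos
        refine ⟨(β k - dot (a k) u) / dot (a k) d, div_pos (by linarith) hpos, fun δ hδ hle => ?_⟩
        rw [dot_add, dot_smul]
        have : δ * dot (a k) d ≤ β k - dot (a k) u := by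
          rwa [le_div_iff₀ hpos] at hle
        linarith
  choose ε hε hε' using h1
  by_cases hK : Nonempty K
  · obtain ⟨k0, hk0⟩ := Finite.exists_min ε
    refine ⟨ε k0, hε k0, fun k => hε' k _ (hε k0) (hk0 k)⟩
  · exact ⟨1, one_pos, fun k => (hK ⟨k⟩).elim⟩

/-- The main local lemma: at a point `u` of `P` whose tight constraints are exactly
`n` linearly independent ones (with primitive normals), `u` is a vertex and the matrix `A(u)`
consists of the tight rows. -/
theorem local_structure {u : Fin n → ℝ} (hu : u ∈ hpoly a β)
    (hprim : ∀ k, Finset.univ.gcd (a k) = 1)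
    (e : Fin n → K) (htight : ∀ k, dot (a k) u = β k ↔ ∃ i, e i = k)
    (hdet : (Matrix.of fun i => a (e i)).det ≠ 0) :
    u ∈ (hpoly a β).extremePoints ℝ ∧
      (∀ G, (∃ i, {x ∈ hpoly a β | dot (a (e i)) x = β (e i)} = G) ↔
        (IsFacet (hpoly a β) G ∧ u ∈ G)) ∧
      Function.Injective (fun i => {x ∈ hpoly a β | dot (a (e i)) x = β (e i)}) ∧
      IsVertexMatrix (hpoly a β) u (Matrix.of fun i => a (e i)) := by
  classical
  set M : Matrix (Fin n) (Fin n) ℤ := Matrix.of fun i => a (e i) with hM
  set R : Matrix (Fin n) (Fin n) ℝ := M.map (Int.cast : ℤ → ℝ) with hR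
  have hRdet : IsUnit R.det := by
    have : R.det = (M.det : ℝ) := by
      rw [hR]; exact (Int.cast_det M).symm
    rw [this, isUnit_iff_ne_zero]
    exact_mod_cast hdet
  -- dual basis
  set d : Fin n → (Fin n → ℝ) := fun j => (R⁻¹).transpose j with hd
  have hdual : ∀ i j, dot (a (e i)) (d j) = if i = j then 1 else 0 := by
    intro i j
    have h1 : (R * R⁻¹) i j = (1 : Matrix (Fin n) (Fin n) ℝ) i j := by
      rw [Matrix.mul_nonsing_inv R hRdet]
    rw [Matrix.mul_apply, Matrix.one_apply] at h1
    rw [← h1]
    simp [dot, hd, hR, hM, Matrix.transpose_apply]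
  have hexp : ∀ v : Fin n → ℝ, v = ∑ j, dot (a (e j)) v • d j := by
    intro v
    have h1 : (R⁻¹).mulVec (R.mulVec v) = v := by
      rw [Matrix.mulVec_mulVec, Matrix.nonsing_inv_mul R hRdet, Matrix.one_mulVec]
    conv_lhs => rw [← h1]
    ext k
    simp only [Matrix.mulVec, dotProduct, Finset.sum_apply, Pi.smul_apply, smul_eq_mul]
    refine Finset.sum_congr rfl fun j _ => ?_
    simp only [hd, Matrix.transpose_apply, dot, hR, hM, Matrix.map_apply, Matrix.of_apply]
    ring
  have htu : ∀ i, dot (a (e i)) u = β (e i) := fun i => (htight _).2 ⟨i, rfl⟩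
  have hinj : Function.Injective e := by
    intro i j hij
    by_contra hne
    have h1 := hdual i i
    rw [hij, hdual j i] at h1
    simp [Ne.symm hne] at h1
  -- steps
  have hstep : ∀ j, ∃ ε : ℝ, 0 < ε ∧ u + ε • (-(d j)) ∈ hpoly a β := by
    intro j
    apply exists_step hu
    intro k hk
    obtain ⟨i, rfl⟩ := (htight k).1 hk
    rw [dot_neg, hdual]
    split_ifs <;> simp
  choose ε hε hεmem using hstep
  -- membership of the step points in the faces
  have hmemF : ∀ i j, i ≠ j → dot (a (e i)) (u + ε j • (-(d j))) = β (e i) := by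
    intro i j hij
    rw [dot_add, dot_smul, dot_neg, hdual, if_neg hij, htu]; ring
  have hnotF : ∀ j, dot (a (e j)) (u + ε j • (-(d j))) ≠ β (e j) := by
    intro j h
    rw [dot_add, dot_smul, dot_neg, hdual, if_pos rfl, htu] at h
    have := hε j
    linarith
  set F : Fin n → Set (Fin n → ℝ) := fun i => {x ∈ hpoly a β | dot (a (e i)) x = β (e i)} with hF
  have hFinj : Function.Injective F := by
    intro i j hij
    by_contra hne
    have h1 : u + ε i • (-(d i)) ∈ F j := ⟨hεmem i, hmemF j i (Ne.symm hne)⟩
    rw [← hij] at h1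
    exact hnotF i h1.2
  have huF : ∀ i, u ∈ F i := fun i => ⟨hu, htu i⟩
  -- linear independence of d
  have hdli : LinearIndependent ℝ d := by
    rw [Fintype.linearIndependent_iff]
    intro g hg i
    have h1 : dot (a (e i)) (∑ j, g j • d j) = 0 := by rw [hg, dot_zero]
    rw [dot_sum] at h1
    simp only [dot_smul, hdual] at h1
    simpa using h1
  -- dimension of the facets
  have hker : ∀ (l : (Fin n → ℝ) →ₗ[ℝ] ℝ), l ≠ 0 →
      Module.finrank ℝ (LinearMap.ker l) + 1 = n := by
    intro l hl
    have h1 := LinearMap.finrank_range_add_finrank_ker l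
    have h2 : LinearMap.range l = ⊤ := LinearMap.range_eq_top.2 (LinearMap.surjective hl)
    rw [h2, finrank_top] at h1
    simp at h1
    omega
  have hFdim : ∀ i, Module.finrank ℝ (vectorSpan ℝ (F i)) + 1 = n := by
    intro i
    have hsub : vectorSpan ℝ (F i) ≤ LinearMap.ker (dotL (a (e i))) := by
      rw [vectorSpan_def, Submodule.span_le]
      rintro _ ⟨x, hx, y, hy, rfl⟩
      simp only [vsub_eq_sub, SetLike.mem_coe, LinearMap.mem_ker, dotL_apply, dot_sub, hx.2, hy.2,
        sub_self]
    have hne : dotL (a (e i)) ≠ 0 := by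
      intro h0
      have := hdual i i
      rw [← dotL_apply, h0] at this
      simp at this
    have hle := Submodule.finrank_mono hsub
    have hk := hker _ hne
    -- lower bound
    have hlow : Module.finrank ℝ (LinearMap.ker (dotL (a (e i)))) ≤
        Module.finrank ℝ (vectorSpan ℝ (F i)) := by
      apply Submodule.finrank_mono
      intro v hv
      rw [hexp v]
      refine Submodule.sum_mem _ fun j _ => ?_
      by_cases hji : j = i
      · subst hji
        have : dot (a (e j)) v = 0 := hv
        rw [this, zero_smul]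
        exact Submodule.zero_mem _
      · apply Submodule.smul_mem
        have h1 : u + ε j • (-(d j)) ∈ F i := ⟨hεmem j, hmemF i j (Ne.symm hji)⟩
        have h2 := vsub_mem_vectorSpan ℝ (huF i) h1
        have h3 : u -ᵥ (u + ε j • (-(d j))) = ε j • d j := by
          simp [vsub_eq_sub]
        rw [h3] at h2
        have h4 := Submodule.smul_mem _ (ε j)⁻¹ h2
        rwa [smul_smul, inv_mul_cancel₀ (hε j).ne', one_smul] at h4
    omega
  have hFexp : ∀ i, IsExposed ℝ (hpoly a β) (F i) := by
    intro i _
    refine ⟨dotC (a (e i)), ?_⟩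
    ext x
    simp only [hF, Set.mem_setOf_eq, dotC_apply]
    constructor
    · rintro ⟨hx, hx2⟩
      exact ⟨hx, fun y hy => by rw [hx2]; exact hy (e i)⟩
    · rintro ⟨hx, hx2⟩
      refine ⟨hx, le_antisymm (hx (e i)) ?_⟩
      have := hx2 u hu
      rwa [htu] at this
  -- classification of facets at u
  have hclass : ∀ G, (∃ i, F i = G) ↔ (IsFacet (hpoly a β) G ∧ u ∈ G) := by
    intro G
    constructor
    · rintro ⟨i, rfl⟩
      exact ⟨⟨hFexp i, ⟨u, huF i⟩, hFdim i⟩, huF i⟩
    · rintro ⟨⟨hexpG, hne, hdimG⟩, huG⟩
      obtain ⟨l, hl⟩ := hexpG hne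
      have huG' := huG
      rw [hl] at huG'
      have hlam : ∀ j, 0 ≤ l (d j) := by
        intro j
        have := huG'.2 _ (hεmem j)
        rw [map_add, map_smul, map_neg] at this
        simp only [smul_eq_mul] at this
        have h2 := hε j
        by_contra hneg
        push Not at hneg
        nlinarith
      have hval : ∀ x, l (u - x) = ∑ j, dot (a (e j)) (u - x) * l (d j) := by
        intro x
        conv_lhs => rw [hexp (u - x)]
        rw [map_sum]
        simp [map_smul]
      have hGiff : ∀ x ∈ hpoly a β, (x ∈ G ↔ ∀ j, 0 < l (d j) → dot (a (e j)) x = β (e j)) := by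
        intro x hx
        have hnn : ∀ j ∈ Finset.univ, 0 ≤ dot (a (e j)) (u - x) * l (d j) := by
          intro j _
          refine mul_nonneg ?_ (hlam j)
          rw [dot_sub, htu]
          have := hx (e j)
          linarith
        constructor
        · intro hxG j hj
          rw [hl] at hxG
          have h1 := hxG.2 u hu
          have h2 := huG'.2 x hx
          have h3 : l (u - x) = 0 := by rw [map_sub]; linarith
          rw [hval, Finset.sum_eq_zero_iff_of_nonneg hnn] at h3
          have h4 := h3 j (Finset.mem_univ j)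
          rcases mul_eq_zero.1 h4 with h5 | h5
          · rw [dot_sub, htu] at h5; linarith
          · exact absurd h5 hj.ne'
        · intro h
          rw [hl]
          refine ⟨hx, fun y hy => ?_⟩
          have h3 : l (u - x) = 0 := by
            rw [hval, Finset.sum_eq_zero_iff_of_nonneg hnn]
            intro j _
            rcases (hlam j).lt_or_eq with h5 | h5
            · rw [dot_sub, htu, h j h5]; simp
            · rw [← h5, mul_zero]
          rw [map_sub] at h3
          have := huG'.2 y hy
          linarith
      -- some positive multiplier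
      have hGsub : G ⊆ hpoly a β := by
        rw [hl]; exact fun x hx => hx.1
      have hex : ∃ i, 0 < l (d i) := by
        by_contra hno
        push Not at hno
        have hall : ∀ x ∈ hpoly a β, x ∈ G := fun x hx =>
          (hGiff x hx).2 fun j hj => absurd hj (not_lt.2 (hno j))
        have htop : (⊤ : Submodule ℝ (Fin n → ℝ)) ≤ vectorSpan ℝ G := by
          intro v _
          rw [hexp v]
          refine Submodule.sum_mem _ fun j _ => Submodule.smul_mem _ _ ?_
          have h2 := vsub_mem_vectorSpan ℝ huG (hall _ (hεmem j))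
          have h3 : u -ᵥ (u + ε j • (-(d j))) = ε j • d j := by
            simp [vsub_eq_sub]
          rw [h3] at h2
          have h4 := Submodule.smul_mem _ (ε j)⁻¹ h2
          rwa [smul_smul, inv_mul_cancel₀ (hε j).ne', one_smul] at h4
        have := Submodule.finrank_mono htop
        rw [finrank_top] at this
        simp at this
        omega
      obtain ⟨i, hi⟩ := hex
      have huniq : ∀ j, 0 < l (d j) → j = i := by
        intro j hj
        by_contra hne'
        have hsub : vectorSpan ℝ G ≤
            LinearMap.ker (dotL (a (e i))) ⊓ LinearMap.ker (dotL (a (e j))) := by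
          rw [vectorSpan_def, Submodule.span_le]
          rintro _ ⟨x, hx, y, hy, rfl⟩
          have hx1 := (hGiff x (hGsub hx)).1 hx
          have hy1 := (hGiff y (hGsub hy)).1 hy
          simp only [vsub_eq_sub, SetLike.mem_coe, Submodule.mem_inf, LinearMap.mem_ker,
            dotL_apply, dot_sub, hx1 i hi, hy1 i hi, hx1 j hj, hy1 j hj, sub_self, and_self]
        have hlt : LinearMap.ker (dotL (a (e i))) ⊓ LinearMap.ker (dotL (a (e j))) <
            LinearMap.ker (dotL (a (e i))) := by
          refine lt_of_le_of_ne inf_le_left ?_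
          intro heq
          have h1 : d j ∈ LinearMap.ker (dotL (a (e i))) := by
            simp only [LinearMap.mem_ker, dotL_apply, hdual, if_neg (Ne.symm hne')]
          rw [← heq] at h1
          have h2 := (Submodule.mem_inf.1 h1).2
          simp only [LinearMap.mem_ker, dotL_apply, hdual, if_pos] at h2
          exact one_ne_zero h2
        have h1 := Submodule.finrank_mono hsub
        have h2 := Submodule.finrank_lt_finrank_of_lt hlt
        have hne0 : dotL (a (e i)) ≠ 0 := by
          intro h0
          have := hdual i i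
          rw [← dotL_apply, h0] at this
          simp at this
        have h3 := hker _ hne0
        omega
      refine ⟨i, ?_⟩
      ext x
      constructor
      · rintro ⟨hx, hx2⟩
        exact (hGiff x hx).2 fun j hj => by rw [huniq j hj]; exact hx2
      · intro hx
        exact ⟨hGsub hx, (hGiff x (hGsub hx)).1 hx i hi⟩
  refine ⟨?_, hclass, hFinj, ⟨F, hFinj, hclass, fun i => ⟨hprim _, ?_⟩⟩⟩
  · -- extreme point
    rw [mem_extremePoints]
    refine ⟨hu, fun x hx y hy hxy => ?_⟩
    obtain ⟨s, t, hs, ht, hst, huxy⟩ := hxy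
    have key : ∀ i, dot (a (e i)) x = β (e i) ∧ dot (a (e i)) y = β (e i) := by
      intro i
      have h1 := hx (e i)
      have h2 := hy (e i)
      have h3 := htu i
      rw [← huxy, dot_add, dot_smul, dot_smul] at h3
      constructor
      · by_contra hne
        have : dot (a (e i)) x < β (e i) := lt_of_le_of_ne h1 hne
        have : s * dot (a (e i)) x + t * dot (a (e i)) y < β (e i) := by
          calc s * dot (a (e i)) x + t * dot (a (e i)) y
              < s * β (e i) + t * β (e i) := by nlinarith
            _ = β (e i) := by rw [← add_mul, hst, one_mul]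
        linarith
      · by_contra hne
        have : dot (a (e i)) y < β (e i) := lt_of_le_of_ne h2 hne
        have : s * dot (a (e i)) x + t * dot (a (e i)) y < β (e i) := by
          calc s * dot (a (e i)) x + t * dot (a (e i)) y
              < s * β (e i) + t * β (e i) := by nlinarith
            _ = β (e i) := by rw [← add_mul, hst, one_mul]
        linarith
    have hxu : x - u = 0 := by
      rw [hexp (x - u)]
      refine Finset.sum_eq_zero fun j _ => ?_
      rw [dot_sub, (key j).1, htu, sub_self, zero_smul]
    have hyu : y - u = 0 := by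
      rw [hexp (y - u)]
      refine Finset.sum_eq_zero fun j _ => ?_
      rw [dot_sub, (key j).2, htu, sub_self, zero_smul]
    exact ⟨sub_eq_zero.1 hxu, sub_eq_zero.1 hyu⟩
  · intro x hx y hy
    show dot (a (e i)) x = dot (a (e i)) y
    rw [hx.2, hy.2]

end localLemma

end Pool.Agent.Helper73.UVC
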