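import Mathlib
import Pool.Agent.Helper73.UVCDefs
import Pool.Agent.Helper73.UVCLocal

/-!
# The reduction from SUBSET SUM: polyhedral part
-/

namespace Pool.Agent.Helper73.UVC

open scoped BigOperators

/-! ### The instance -/

/-- The `0-1` matrix of the reduction (rows: `x_j`, `∑ x + y₁ + y₂`, `y₁ + y₃`, `y₂ + y₃`). -/
def redA (n : ℕ) : Matrix (Fin (n + 3)) (Fin (n + 3)) ℤ := fun i j =>
  if i.val < n then (if j.val = i.val then 1 else 0)
  else if i.val = n then (if j.val < n + 2 then 1 else 0)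
  else if i.val = n + 1 then (if j.val = n ∨ j.val = n + 2 then 1 else 0)
  else (if j.val = n + 1 ∨ j.val = n + 2 then 1 else 0)

/-- The right hand side of the reduction. -/
def redb {n : ℕ} (w : Fin n → ℕ) (t : ℕ) : Fin (n + 3) → ℚ := fun i =>
  if h : i.val < n then ((8 * w ⟨i.val, h⟩ : ℕ) : ℚ)
  else if i.val = n then ((8 * t + 5 : ℕ) : ℚ)
  else if i.val = n + 1 then 3
  else 4

theorem redA_zero_one (n : ℕ) (i j : Fin (n + 3)) : redA n i j = 0 ∨ redA n i j = 1 := by
  unfold redA; split_ifs <;> simp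

theorem redb_pos {n : ℕ} (w : Fin n → ℕ) (hw : ∀ j, 0 < w j) (t : ℕ) (i : Fin (n + 3)) :
    0 < redb w t i := by
  unfold redb
  split_ifs with h
  · have := hw ⟨i.val, h⟩
    have h2 : 0 < 8 * w ⟨i.val, h⟩ := by omega
    exact_mod_cast h2
  · have h2 : 0 < 8 * t + 5 := by omega
    exact_mod_cast h2
  · norm_num
  · norm_num

/-! ### Constraint system -/

section system

variable {m n : ℕ} (A : Matrix (Fin m) (Fin n) ℤ) (b : Fin m → ℚ)

/-- normals of all inequalities -/
def sysA : Fin n ⊕ Fin m → Fin n → ℤ := Sum.elim (fun j => - Pi.single j 1) A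

/-- right-hand sides of all inequalities -/
noncomputable def sysb : Fin n ⊕ Fin m → ℝ := Sum.elim (fun _ => 0) (fun i => (b i : ℝ))

theorem dot_single {n : ℕ} (a : Fin n → ℤ) (j : Fin n) (c : ℝ) :
    dot a (Pi.single j c) = a j * c := by
  unfold dot
  rw [Finset.sum_eq_single j]
  · simp
  · intro k _ hk; rw [Pi.single_eq_of_ne hk]; ring
  · intro h; exact absurd (Finset.mem_univ j) h

theorem dot_negsingle {n : ℕ} (j : Fin n) (x : Fin n → ℝ) :
    dot (- Pi.single j (1 : ℤ)) x = - x j := by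
  unfold dot
  rw [Finset.sum_eq_single j]
  · simp
  · intro k _ hk; simp [Pi.single_eq_of_ne hk]
  · intro h; exact absurd (Finset.mem_univ j) h

theorem polyhedron_eq : polyhedron A b = hpoly (sysA A) (sysb b) := by
  ext x
  simp only [polyhedron, hpoly, Set.mem_setOf_eq]
  constructor
  · rintro ⟨h1, h2⟩ (k | k)
    · simp only [sysA, sysb, Sum.elim_inl]
      rw [dot_negsingle]; have := h1 k; linarith
    · exact h2 k
  · intro h
    refine ⟨fun j => ?_, fun i => h (Sum.inr i)⟩
    have := h (Sum.inl j)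
    simp only [sysA, sysb, Sum.elim_inl] at this
    rw [dot_negsingle] at this; linarith

end system

section extreme

variable {n : ℕ} {K : Type*} [Fintype K] {a : K → Fin n → ℤ} {β : K → ℝ}

theorem extreme_dir {u : Fin n → ℝ} (hu : u ∈ (hpoly a β).extremePoints ℝ) (d : Fin n → ℝ)
    (hd : ∀ k, dot (a k) u = β k → dot (a k) d = 0) : d = 0 := by
  have hmem : u ∈ hpoly a β := hu.1
  obtain ⟨ε₁, h1, h1'⟩ := exists_step hmem d (fun k hk => (hd k hk).le)
  obtain ⟨ε₂, h2, h2'⟩ := exists_step hmem (-d) (fun k hk => by rw [dot_neg, hd k hk]; simp)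
  have hpos : 0 < ε₁ + ε₂ := by positivity
  have hseg : u ∈ openSegment ℝ (u + ε₁ • d) (u + ε₂ • (-d)) := by
    refine ⟨ε₂ / (ε₁ + ε₂), ε₁ / (ε₁ + ε₂), by positivity, by positivity, by field_simp; ring, ?_⟩
    ext j
    simp only [Pi.add_apply, Pi.smul_apply, smul_eq_mul, Pi.neg_apply]
    field_simp
    ring
  have := ((mem_extremePoints.1 hu).2 _ h1' _ h2' hseg).1
  have h3 : ε₁ • d = 0 := by
    have h4 : u + ε₁ • d = u + 0 := by rw [this, add_zero]
    exact add_left_cancel h4
  rcases smul_eq_zero.1 h3 with h | h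
  · exact absurd h h1.ne'
  · exact h

/-- uniqueness of integer normals of the facets at a nondegenerate vertex -/
theorem normal_unique {u : Fin n → ℝ} (hu : u ∈ hpoly a β)
    (e : Fin n → K) (htight : ∀ k, dot (a k) u = β k ↔ ∃ i, e i = k)
    (hdet : (Matrix.of fun i => a (e i)).det ≠ 0) (i : Fin n) (v : Fin n → ℤ)
    (hv : ∀ x ∈ {x ∈ hpoly a β | dot (a (e i)) x = β (e i)},
      ∀ y ∈ {x ∈ hpoly a β | dot (a (e i)) x = β (e i)}, dot v x = dot v y) :
    ∃ r : ℝ, ∀ j, (v j : ℝ) = r * (a (e i) j) := by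
  classical
  set M : Matrix (Fin n) (Fin n) ℤ := Matrix.of fun i => a (e i) with hM
  set R : Matrix (Fin n) (Fin n) ℝ := M.map (Int.cast : ℤ → ℝ) with hR
  have hRdet : IsUnit R.det := by
    have : R.det = (M.det : ℝ) := by
      rw [hR]; exact (Int.cast_det M).symm
    rw [this, isUnit_iff_ne_zero]
    exact_mod_cast hdet
  set d : Fin n → (Fin n → ℝ) := fun j => (R⁻¹).transpose j with hd
  have hdual : ∀ i j, dot (a (e i)) (d j) = if i = j then 1 else 0 := by
    intro i j
    have h1 : (R * R⁻¹) i j = (1 : Matrix (Fin n) (Fin n) ℝ) i j := by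
      rw [Matrix.mul_nonsing_inv R hRdet]
    rw [Matrix.mul_apply, Matrix.one_apply] at h1
    rw [← h1]
    simp [dot, hd, hR, hM, Matrix.transpose_apply]
  have hexp : ∀ v : Fin n → ℝ, v = ∑ j, dot (a (e j)) v • d j := by
    intro v
    have h1 : (R⁻¹).mulVec (R.mulVec v) = v := by
      rw [Matrix.mulVec_mulVec, Matrix.nonsing_inv_mul R hRdet, Matrix.one_mulVec]
    conv_lhs => rw [← h1]
    ext k
    simp only [Matrix.mulVec, dotProduct, Finset.sum_apply, Pi.smul_apply, smul_eq_mul]
    refine Finset.sum_congr rfl fun j _ => ?_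
    simp only [hd, Matrix.transpose_apply, dot, hR, hM, Matrix.map_apply, Matrix.of_apply]
    ring
  have htu : ∀ i, dot (a (e i)) u = β (e i) := fun i => (htight _).2 ⟨i, rfl⟩
  have hvd : ∀ j, j ≠ i → dot v (d j) = 0 := by
    intro j hj
    obtain ⟨ε, hε, hmem⟩ := exists_step hu (-(d j)) (by
      intro k hk
      obtain ⟨i', rfl⟩ := (htight k).1 hk
      rw [dot_neg, hdual]
      split_ifs <;> simp)
    have h1 : dot (a (e i)) (u + ε • (-(d j))) = β (e i) := by
      rw [dot_add, dot_smul, dot_neg, hdual, if_neg (Ne.symm hj), htu]; ring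
    have h2 := hv _ ⟨hmem, h1⟩ _ ⟨hu, htu i⟩
    rw [dot_add, dot_smul, dot_neg] at h2
    have h3 : ε * dot v (d j) = 0 := by linarith
    rcases mul_eq_zero.1 h3 with h | h
    · exact absurd h hε.ne'
    · exact h
  refine ⟨dot v (d i), fun j => ?_⟩
  have h1 := hexp (Pi.single j 1)
  have h2 : dot v (Pi.single j 1) = ∑ k, dot (a (e k)) (Pi.single j 1) * dot v (d k) := by
    conv_lhs => rw [h1]
    rw [dot_sum]
    simp [dot_smul]
  rw [Finset.sum_eq_single i] at h2
  · rw [dot_single, dot_single] at h2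
    simp only [mul_one] at h2
    rw [h2]; ring
  · intro k _ hk; rw [hvd k hk, mul_zero]
  · intro h; exact absurd (Finset.mem_univ i) h

end extreme

section det

/-- If `c • e_j` lies in the integer row span for all `j`, the determinant divides `c ^ N`. -/
theorem det_dvd_of_span {N : ℕ} (M : Matrix (Fin N) (Fin N) ℤ) (c : ℤ)
    (h : ∀ j, Pi.single j c ∈ Submodule.span ℤ (Set.range M)) : M.det ∣ c ^ N := by
  classical
  have h1 : ∀ j, ∃ l : Fin N → ℤ, ∑ i, l i • M i = Pi.single j c := by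
    intro j
    exact (Submodule.mem_span_range_iff_exists_fun ℤ).1 (h j)
  choose L hL using h1
  have h2 : (Matrix.of L) * M = c • (1 : Matrix (Fin N) (Fin N) ℤ) := by
    ext j k
    rw [Matrix.mul_apply, Matrix.smul_apply, Matrix.one_apply]
    have := congrFun (hL j) k
    simp only [Finset.sum_apply, Pi.smul_apply, smul_eq_mul] at this
    simp only [Matrix.of_apply]
    rw [this]
    by_cases hjk : j = k
    · subst hjk; simp
    · rw [Pi.single_eq_of_ne (Ne.symm hjk), if_neg hjk]; simp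
  have h3 := congrArg Matrix.det h2
  rw [Matrix.det_mul, Matrix.det_smul, Matrix.det_one, mul_one, Fintype.card_fin] at h3
  exact ⟨_, by rw [← h3, mul_comm]⟩

theorem span_of_det {N : ℕ} (M : Matrix (Fin N) (Fin N) ℤ) (h : |M.det| = 1) (v : Fin N → ℤ) :
    v ∈ Submodule.span ℤ (Set.range M) := by
  classical
  have hu : IsUnit M.det := by
    rw [Int.isUnit_iff_abs_eq]; exact h
  rw [Submodule.mem_span_range_iff_exists_fun]
  refine ⟨Matrix.vecMul v M⁻¹, ?_⟩
  have h1 : Matrix.vecMul (Matrix.vecMul v M⁻¹) M = v := by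
    rw [Matrix.vecMul_vecMul, Matrix.nonsing_inv_mul M hu, Matrix.vecMul_one]
  conv_rhs => rw [← h1]
  ext k
  simp [Matrix.vecMul, dotProduct, Finset.sum_apply]

end det

end Pool.Agent.Helper73.UVC
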