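import Mathlib
import Pool.Agent.Helper73.UVCDefs
import Pool.Agent.Helper73.UVCLocal
import Pool.Agent.Helper73.UVCReduction

namespace Pool.Agent.Helper73.UVC

open scoped BigOperators

section rows

variable {n : ℕ}

/-- column of `x_j` -/
abbrev cx (j : Fin n) : Fin (n + 3) := Fin.castAdd 3 j
/-- column/row of the three extra indices -/
abbrev cy (n : ℕ) (i : Fin 3) : Fin (n + 3) := Fin.natAdd n i

theorem cases3 {motive : Fin (n + 3) → Prop} (hx : ∀ j : Fin n, motive (cx j))
    (h0 : motive (cy n 0)) (h1 : motive (cy n 1)) (h2 : motive (cy n 2)) (k : Fin (n + 3)) :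
    motive k := by
  refine Fin.addCases hx (fun i => ?_) k
  fin_cases i
  · exact h0
  · exact h1
  · exact h2

theorem redA_x (j : Fin n) : redA n (cx j) = Pi.single (cx j) 1 := by
  ext k
  simp only [redA, cx, Fin.val_castAdd, j.isLt, if_true]
  by_cases h : k = Fin.castAdd 3 j
  · subst h; simp
  · rw [Pi.single_eq_of_ne h, if_neg]
    intro h2; apply h; ext; simpa using h2

theorem redA_0 : redA n (cy n 0) = fun k => if k.val < n + 2 then 1 else 0 := by
  ext k; simp [redA, cy]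

theorem redA_1 : redA n (cy n 1) = Pi.single (cy n 0) 1 + Pi.single (cy n 2) 1 := by
  ext k
  revert k
  refine cases3 (fun j => ?_) ?_ ?_ ?_
  · have h1 : cx j ≠ cy n 0 := by intro h; have := congrArg Fin.val h; simp [cx, cy] at this; omega
    have h2 : cx j ≠ cy n 2 := by intro h; have := congrArg Fin.val h; simp [cx, cy] at this; omega
    simp only [Pi.add_apply, Pi.single_eq_of_ne h1, Pi.single_eq_of_ne h2]
    simp [redA, cx, cy]; omega
  · have h2 : cy n 0 ≠ cy n 2 := by intro h; have := congrArg Fin.val h; simp [cy] at this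
    simp only [Pi.add_apply, Pi.single_eq_of_ne h2, Pi.single_eq_same]
    simp [redA, cy]
  · have h1 : cy n 1 ≠ cy n 0 := by intro h; have := congrArg Fin.val h; simp [cy] at this
    have h2 : cy n 1 ≠ cy n 2 := by intro h; have := congrArg Fin.val h; simp [cy] at this
    simp only [Pi.add_apply, Pi.single_eq_of_ne h1, Pi.single_eq_of_ne h2]
    simp [redA, cy]
  · have h1 : cy n 2 ≠ cy n 0 := by intro h; have := congrArg Fin.val h; simp [cy] at this
    simp only [Pi.add_apply, Pi.single_eq_of_ne h1, Pi.single_eq_same]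
    simp [redA, cy]

theorem redA_2 : redA n (cy n 2) = Pi.single (cy n 1) 1 + Pi.single (cy n 2) 1 := by
  ext k
  revert k
  refine cases3 (fun j => ?_) ?_ ?_ ?_
  · have h1 : cx j ≠ cy n 1 := by intro h; have := congrArg Fin.val h; simp [cx, cy] at this; omega
    have h2 : cx j ≠ cy n 2 := by intro h; have := congrArg Fin.val h; simp [cx, cy] at this; omega
    simp only [Pi.add_apply, Pi.single_eq_of_ne h1, Pi.single_eq_of_ne h2]
    simp [redA, cx, cy]; omega
  · have h1 : cy n 0 ≠ cy n 1 := by intro h; have := congrArg Fin.val h; simp [cy] at this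
    have h2 : cy n 0 ≠ cy n 2 := by intro h; have := congrArg Fin.val h; simp [cy] at this
    simp only [Pi.add_apply, Pi.single_eq_of_ne h1, Pi.single_eq_of_ne h2]
    simp [redA, cy]
  · have h2 : cy n 1 ≠ cy n 2 := by intro h; have := congrArg Fin.val h; simp [cy] at this
    simp only [Pi.add_apply, Pi.single_eq_of_ne h2, Pi.single_eq_same]
    simp [redA, cy]
  · have h1 : cy n 2 ≠ cy n 1 := by intro h; have := congrArg Fin.val h; simp [cy] at this
    simp only [Pi.add_apply, Pi.single_eq_of_ne h1, Pi.single_eq_same]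
    simp [redA, cy]

theorem sum3 {M : Type*} [AddCommMonoid M] (f : Fin (n + 3) → M) :
    ∑ k, f k = (∑ j : Fin n, f (cx j)) + (f (cy n 0) + f (cy n 1) + f (cy n 2)) := by
  rw [Fin.sum_univ_add, Fin.sum_univ_three]

theorem dot_x (j : Fin n) (x : Fin (n + 3) → ℝ) : dot (redA n (cx j)) x = x (cx j) := by
  rw [redA_x]
  unfold dot
  rw [Finset.sum_eq_single (cx j)]
  · simp
  · intro k _ hk; simp [Pi.single_eq_of_ne hk]
  · intro h; exact absurd (Finset.mem_univ _) h

theorem dot_0 (x : Fin (n + 3) → ℝ) :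
    dot (redA n (cy n 0)) x = (∑ j : Fin n, x (cx j)) + (x (cy n 0) + x (cy n 1)) := by
  unfold dot
  rw [sum3, redA_0]
  have h1 : ∀ j : Fin n, (((if (cx j).val < n + 2 then 1 else 0 : ℤ)) : ℝ) * x (cx j) = x (cx j) := by
    intro j
    rw [if_pos]; · simp
    · simp [cx]; omega
  simp only [h1]
  simp [cy]

theorem dot_1 (x : Fin (n + 3) → ℝ) :
    dot (redA n (cy n 1)) x = x (cy n 0) + x (cy n 2) := by
  rw [redA_1]
  have h : ∀ (a a' : Fin (n+3) → ℤ), dot (a + a') x = dot a x + dot a' x := by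
    intro a a'
    simp [dot, add_mul, Finset.sum_add_distrib]
  have h2 : ∀ k, dot (Pi.single k (1 : ℤ)) x = x k := by
    intro k
    unfold dot
    rw [Finset.sum_eq_single k]
    · simp
    · intro k' _ hk; simp [Pi.single_eq_of_ne hk]
    · intro h; exact absurd (Finset.mem_univ _) h
  rw [h, h2, h2]

theorem dot_2 (x : Fin (n + 3) → ℝ) :
    dot (redA n (cy n 2)) x = x (cy n 1) + x (cy n 2) := by
  rw [redA_2]
  have h : ∀ (a a' : Fin (n+3) → ℤ), dot (a + a') x = dot a x + dot a' x := by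
    intro a a'
    simp [dot, add_mul, Finset.sum_add_distrib]
  have h2 : ∀ k, dot (Pi.single k (1 : ℤ)) x = x k := by
    intro k
    unfold dot
    rw [Finset.sum_eq_single k]
    · simp
    · intro k' _ hk; simp [Pi.single_eq_of_ne hk]
    · intro h; exact absurd (Finset.mem_univ _) h
  rw [h, h2, h2]

theorem redb_x (w : Fin n → ℕ) (t : ℕ) (j : Fin n) : redb w t (cx j) = ((8 * w j : ℕ) : ℚ) := by
  simp [redb, cx]

theorem redb_0 (w : Fin n → ℕ) (t : ℕ) : redb w t (cy n 0) = ((8 * t + 5 : ℕ) : ℚ) := by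
  simp [redb, cy]

theorem redb_1 (w : Fin n → ℕ) (t : ℕ) : redb w t (cy n 1) = 3 := by
  simp [redb, cy]

theorem redb_2 (w : Fin n → ℕ) (t : ℕ) : redb w t (cy n 2) = 4 := by
  simp [redb, cy]

theorem gcd_eq_one_of_apply {N : ℕ} (a : Fin N → ℤ) (j : Fin N) (h : a j = 1 ∨ a j = -1) :
    Finset.univ.gcd a = 1 := by
  have h1 : Finset.univ.gcd a ∣ a j := Finset.gcd_dvd (Finset.mem_univ j)
  have h2 : Finset.univ.gcd a ∣ 1 := by
    rcases h with h | h
    · rwa [h] at h1
    · rw [h] at h1; exact (dvd_neg.1 h1)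
  have h3 : normalize (Finset.univ.gcd a) = Finset.univ.gcd a := Finset.normalize_gcd
  rw [← h3]
  exact normalize_eq_one.2 (isUnit_of_dvd_one h2)

theorem sys_prim (k : Fin (n + 3) ⊕ Fin (n + 3)) : Finset.univ.gcd (sysA (redA n) k) = 1 := by
  rcases k with j | i
  · exact gcd_eq_one_of_apply _ j (Or.inr (by simp [sysA]))
  · simp only [sysA, Sum.elim_inr]
    revert i
    refine cases3 (fun j => ?_) ?_ ?_ ?_
    · exact gcd_eq_one_of_apply _ (cx j) (Or.inl (by rw [redA_x]; simp))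
    · exact gcd_eq_one_of_apply _ (cy n 0) (Or.inl (by rw [redA_0]; simp [cy]))
    · refine gcd_eq_one_of_apply _ (cy n 0) (Or.inl ?_)
      have h1 : cy n 0 ≠ cy n 2 := by intro h; have := congrArg Fin.val h; simp [cy] at this
      rw [redA_1, Pi.add_apply, Pi.single_eq_same, Pi.single_eq_of_ne h1, add_zero]
    · refine gcd_eq_one_of_apply _ (cy n 1) (Or.inl ?_)
      have h1 : cy n 1 ≠ cy n 2 := by intro h; have := congrArg Fin.val h; simp [cy] at this
      rw [redA_2, Pi.add_apply, Pi.single_eq_same, Pi.single_eq_of_ne h1, add_zero]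

end rows

section planar

/-- Vertices of `Q = {y ≥ 0, y₁ + y₃ ≤ 3, y₂ + y₃ ≤ 4}`. -/
theorem q_vertices {y1 y2 y3 : ℝ} (h1 : 0 ≤ y1) (h2 : 0 ≤ y2) (h3 : 0 ≤ y3)
    (h4 : y1 + y3 ≤ 3) (h5 : y2 + y3 ≤ 4)
    (H : ∀ d1 d2 d3 : ℝ, (y1 = 0 → d1 = 0) → (y2 = 0 → d2 = 0) → (y3 = 0 → d3 = 0) →
      (y1 + y3 = 3 → d1 + d3 = 0) → (y2 + y3 = 4 → d2 + d3 = 0) → d1 = 0 ∧ d2 = 0 ∧ d3 = 0) :
    (y1 = 0 ∧ y2 = 0 ∧ y3 = 0) ∨ (y1 = 3 ∧ y2 = 0 ∧ y3 = 0) ∨ (y1 = 0 ∧ y2 = 4 ∧ y3 = 0) ∨
    (y1 = 3 ∧ y2 = 4 ∧ y3 = 0) ∨ (y1 = 0 ∧ y2 = 0 ∧ y3 = 3) ∨ (y1 = 0 ∧ y2 = 1 ∧ y3 = 3) := by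
  -- direction e1
  have c1 : y1 = 0 ∨ y1 + y3 = 3 := by
    by_contra hc
    push Not at hc
    have := H 1 0 0 (fun h => absurd h hc.1) (fun _ => rfl) (fun _ => rfl)
      (fun h => absurd h hc.2) (fun _ => by norm_num)
    exact one_ne_zero this.1
  have c2 : y2 = 0 ∨ y2 + y3 = 4 := by
    by_contra hc
    push Not at hc
    have := H 0 1 0 (fun _ => rfl) (fun h => absurd h hc.1) (fun _ => rfl)
      (fun _ => by norm_num) (fun h => absurd h hc.2)
    exact one_ne_zero this.2.1
  have c3 : y3 = 0 ∨ y1 + y3 = 3 ∨ y2 + y3 = 4 := by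
    by_contra hc
    push Not at hc
    have := H 0 0 1 (fun _ => rfl) (fun _ => rfl) (fun h => absurd h hc.1)
      (fun h => absurd h hc.2.1) (fun h => absurd h hc.2.2)
    exact one_ne_zero this.2.2
  have c4 : y1 = 0 ∨ y3 = 0 ∨ y2 + y3 = 4 := by
    by_contra hc
    push Not at hc
    have := H 1 0 (-1) (fun h => absurd h hc.1) (fun _ => rfl) (fun h => absurd h hc.2.1)
      (fun _ => by norm_num) (fun h => absurd h hc.2.2)
    exact one_ne_zero this.1
  have c5 : y2 = 0 ∨ y3 = 0 ∨ y1 + y3 = 3 := by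
    by_contra hc
    push Not at hc
    have := H 0 1 (-1) (fun _ => rfl) (fun h => absurd h hc.1) (fun h => absurd h hc.2.1)
      (fun h => absurd h hc.2.2) (fun _ => by norm_num)
    exact one_ne_zero this.2.1
  have c6 : y1 = 0 ∨ y2 = 0 ∨ y3 = 0 := by
    by_contra hc
    push Not at hc
    have := H 1 1 (-1) (fun h => absurd h hc.1) (fun h => absurd h hc.2.1)
      (fun h => absurd h hc.2.2) (fun _ => by norm_num) (fun _ => by norm_num)
    exact one_ne_zero this.1
  by_cases e3 : y3 = 0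
  · subst e3
    rcases c1 with a | a <;> rcases c2 with b | b
    · left; exact ⟨a, b, rfl⟩
    · right; right; left; exact ⟨a, by linarith, rfl⟩
    · right; left; exact ⟨by linarith, b, rfl⟩
    · right; right; right; left; exact ⟨by linarith, by linarith, rfl⟩
  · by_cases e1 : y1 = 0
    · subst e1
      by_cases e2 : y2 = 0
      · subst e2
        rcases c3 with a | a | a
        · exact absurd a e3
        · right; right; right; right; left; exact ⟨rfl, rfl, by linarith⟩
        · linarith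
      · have a := c2.resolve_left e2
        have b := (c5.resolve_left e2).resolve_left e3
        right; right; right; right; right; exact ⟨rfl, by linarith, by linarith⟩
    · have a := c1.resolve_left e1
      have b := (c4.resolve_left e1).resolve_left e3
      have c := (c6.resolve_left e1).resolve_right e3
      linarith

/-- Vertices of `Q ∩ {y₁ + y₂ = 5}`. -/
theorem q5_vertices {y1 y2 y3 : ℝ} (h1 : 0 ≤ y1) (h2 : 0 ≤ y2) (h3 : 0 ≤ y3)
    (h4 : y1 + y3 ≤ 3) (h5 : y2 + y3 ≤ 4) (h6 : y1 + y2 = 5)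
    (H : ∀ d1 d2 d3 : ℝ, d1 + d2 = 0 → (y1 = 0 → d1 = 0) → (y2 = 0 → d2 = 0) →
      (y3 = 0 → d3 = 0) →
      (y1 + y3 = 3 → d1 + d3 = 0) → (y2 + y3 = 4 → d2 + d3 = 0) → d1 = 0 ∧ d2 = 0 ∧ d3 = 0) :
    (y1 = 1 ∧ y2 = 4 ∧ y3 = 0) ∨ (y1 = 3 ∧ y2 = 2 ∧ y3 = 0) ∨ (y1 = 2 ∧ y2 = 3 ∧ y3 = 1) := by
  have n1 : y1 ≠ 0 := by intro h; linarith
  have n2 : y2 ≠ 0 := by intro h; linarith
  have c1 : y1 + y3 = 3 ∨ y2 + y3 = 4 := by
    by_contra hc
    push Not at hc
    have := H 1 (-1) 0 (by norm_num) (fun h => absurd h n1) (fun h => absurd h n2) (fun _ => rfl)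
      (fun h => absurd h hc.1) (fun h => absurd h hc.2)
    exact one_ne_zero this.1
  have c2 : y3 = 0 ∨ y2 + y3 = 4 := by
    by_contra hc
    push Not at hc
    have := H 1 (-1) (-1) (by norm_num) (fun h => absurd h n1) (fun h => absurd h n2)
      (fun h => absurd h hc.1) (fun _ => by norm_num) (fun h => absurd h hc.2)
    exact one_ne_zero this.1
  have c3 : y3 = 0 ∨ y1 + y3 = 3 := by
    by_contra hc
    push Not at hc
    have := H 1 (-1) 1 (by norm_num) (fun h => absurd h n1) (fun h => absurd h n2)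
      (fun h => absurd h hc.1) (fun h => absurd h hc.2) (fun _ => by norm_num)
    exact one_ne_zero this.1
  by_cases e3 : y3 = 0
  · subst e3
    rcases c1 with a | a
    · right; left; exact ⟨by linarith, by linarith, rfl⟩
    · left; exact ⟨by linarith, by linarith, rfl⟩
  · have a := c2.resolve_left e3
    have b := c3.resolve_left e3
    right; right; exact ⟨by linarith, by linarith, by linarith⟩

end planar

end Pool.Agent.Helper73.UVC
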