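import Mathlib
import Pool.Agent.Helper73.UVCDefs
import Pool.Agent.Helper73.UVCLocal
import Pool.Agent.Helper73.UVCReduction
import Pool.Agent.Helper73.UVCMain

namespace Pool.Agent.Helper73.UVC

open scoped BigOperators

section core

variable {n : ℕ} (w : Fin n → ℕ) (t : ℕ) (u : Fin (n + 3) → ℝ)

/-- constraint `k` is tight at `u` -/
def Tight (k : Fin (n + 3) ⊕ Fin (n + 3)) : Prop :=
  dot (sysA (redA n) k) u = sysb (redb w t) k

/-- integer span of the tight rows -/
def TSpan : Submodule ℤ (Fin (n + 3) → ℤ) :=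
  Submodule.span ℤ {v | ∃ k, Tight w t u k ∧ sysA (redA n) k = v}

variable {w t u}

theorem tight_inl (k : Fin (n + 3)) : Tight w t u (Sum.inl k) ↔ u k = 0 := by
  unfold Tight
  simp only [sysA, sysb, Sum.elim_inl]
  rw [dot_negsingle]
  constructor <;> intro h <;> linarith

theorem tight_x (j : Fin n) : Tight w t u (Sum.inr (cx j)) ↔ u (cx j) = 8 * (w j : ℝ) := by
  unfold Tight
  simp only [sysA, sysb, Sum.elim_inr]
  rw [dot_x, redb_x]
  push_cast
  rfl

theorem tight_0 : Tight w t u (Sum.inr (cy n 0)) ↔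
    (∑ j : Fin n, u (cx j)) + (u (cy n 0) + u (cy n 1)) = 8 * (t : ℝ) + 5 := by
  unfold Tight
  simp only [sysA, sysb, Sum.elim_inr]
  rw [dot_0, redb_0]
  push_cast
  rfl

theorem tight_1 : Tight w t u (Sum.inr (cy n 1)) ↔ u (cy n 0) + u (cy n 2) = 3 := by
  unfold Tight
  simp only [sysA, sysb, Sum.elim_inr]
  rw [dot_1, redb_1]
  push_cast
  rfl

theorem tight_2 : Tight w t u (Sum.inr (cy n 2)) ↔ u (cy n 1) + u (cy n 2) = 4 := by
  unfold Tight
  simp only [sysA, sysb, Sum.elim_inr]
  rw [dot_2, redb_2]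
  push_cast
  rfl

theorem mem_TSpan {k : Fin (n + 3) ⊕ Fin (n + 3)} (h : Tight w t u k) :
    sysA (redA n) k ∈ TSpan w t u := Submodule.subset_span ⟨k, h, rfl⟩

theorem span_inl {k : Fin (n + 3)} (h : Tight w t u (Sum.inl k)) :
    Pi.single k 1 ∈ TSpan w t u := by
  have := mem_TSpan h
  simp only [sysA, Sum.elim_inl] at this
  simpa using Submodule.neg_mem _ this

theorem span_x {j : Fin n} (h : Tight w t u (Sum.inr (cx j))) :
    Pi.single (cx j) 1 ∈ TSpan w t u := by
  have := mem_TSpan h
  simp only [sysA, Sum.elim_inr] at this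
  rwa [redA_x] at this

theorem redA_0' : redA n (cy n 0) =
    (∑ j : Fin n, Pi.single (cx j) 1) + (Pi.single (cy n 0) 1 + Pi.single (cy n 1) 1) := by
  rw [redA_0]
  ext k
  revert k
  have hx0 : ∀ j : Fin n, cx j ≠ cy n 0 := by
    intro j h; have := congrArg Fin.val h; simp [cx, cy] at this; omega
  have hx1 : ∀ j : Fin n, cx j ≠ cy n 1 := by
    intro j h; have := congrArg Fin.val h; simp [cx, cy] at this; omega
  have hx2 : ∀ j : Fin n, cx j ≠ cy n 2 := by
    intro j h; have := congrArg Fin.val h; simp [cx, cy] at this; omega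
  have h01 : cy n 0 ≠ cy n 1 := by intro h; have := congrArg Fin.val h; simp [cy] at this
  have h02 : cy n 0 ≠ cy n 2 := by intro h; have := congrArg Fin.val h; simp [cy] at this
  have h12 : cy n 1 ≠ cy n 2 := by intro h; have := congrArg Fin.val h; simp [cy] at this
  refine cases3 (fun j => ?_) ?_ ?_ ?_
  · simp only [Pi.add_apply, Finset.sum_apply, Pi.single_eq_of_ne (hx0 j),
      Pi.single_eq_of_ne (hx1 j)]
    rw [Finset.sum_eq_single j]
    · rw [Pi.single_eq_same, if_pos]
      · simp
      · simp [cx]; omega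
    · intro j' _ hj'
      apply Pi.single_eq_of_ne
      intro h; apply hj'
      have := congrArg Fin.val h
      simp only [cx, Fin.val_castAdd] at this
      exact (Fin.ext this).symm
    · intro h; exact absurd (Finset.mem_univ _) h
  · simp only [Pi.add_apply, Finset.sum_apply, Pi.single_eq_of_ne (Ne.symm (hx0 _)),
      Pi.single_eq_same, Pi.single_eq_of_ne h01]
    simp [cy]
  · simp only [Pi.add_apply, Finset.sum_apply, Pi.single_eq_of_ne (Ne.symm (hx1 _)),
      Pi.single_eq_same, Pi.single_eq_of_ne (Ne.symm h01)]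
    simp [cy]
  · simp only [Pi.add_apply, Finset.sum_apply, Pi.single_eq_of_ne (Ne.symm (hx2 _)),
      Pi.single_eq_of_ne (Ne.symm h02), Pi.single_eq_of_ne (Ne.symm h12)]
    simp [cy]

theorem span_0 (h : Tight w t u (Sum.inr (cy n 0))) :
    (∑ j : Fin n, Pi.single (cx j) 1) + (Pi.single (cy n 0) 1 + Pi.single (cy n 1) 1) ∈
      TSpan w t u := by
  have := mem_TSpan h
  simp only [sysA, Sum.elim_inr] at this
  rwa [redA_0'] at this

theorem span_1 (h : Tight w t u (Sum.inr (cy n 1))) :
    (Pi.single (cy n 0) 1 + Pi.single (cy n 2) 1) ∈ TSpan w t u := by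
  have := mem_TSpan h
  simp only [sysA, Sum.elim_inr] at this
  rwa [redA_1] at this

theorem span_2 (h : Tight w t u (Sum.inr (cy n 2))) :
    (Pi.single (cy n 1) 1 + Pi.single (cy n 2) 1) ∈ TSpan w t u := by
  have := mem_TSpan h
  simp only [sysA, Sum.elim_inr] at this
  rwa [redA_2] at this

/-- Assembling an enumeration of the tight constraints. -/
theorem assemble (fx : Fin n → Fin (n + 3) ⊕ Fin (n + 3)) (fy : Fin 3 → Fin (n + 3) ⊕ Fin (n + 3))
    (hfx : ∀ j, Tight w t u (fx j)) (hfy : ∀ i, Tight w t u (fy i))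
    (hall : ∀ k, Tight w t u k → (∃ j, fx j = k) ∨ (∃ i, fy i = k))
    (c : ℤ) (hspan : ∀ j, Pi.single j c ∈ TSpan w t u) :
    ∃ e : Fin (n + 3) → Fin (n + 3) ⊕ Fin (n + 3),
      (∀ k, dot (sysA (redA n) k) u = sysb (redb w t) k ↔ ∃ i, e i = k) ∧
      (Matrix.of fun i => sysA (redA n) (e i)).det ∣ c ^ (n + 3) := by
  refine ⟨Fin.addCases fx fy, ?_, ?_⟩
  · intro k
    constructor
    · intro h
      rcases hall k h with ⟨j, rfl⟩ | ⟨i, rfl⟩
      · exact ⟨cx j, by simp [cx]⟩
      · exact ⟨cy n i, by simp [cy]⟩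
    · rintro ⟨i, rfl⟩
      refine Fin.addCases (fun j => ?_) (fun j => ?_) i
      · have h := hfx j
        unfold Tight at h
        simpa only [Fin.addCases_left] using h
      · have h := hfy j
        unfold Tight at h
        simpa only [Fin.addCases_right] using h
  · apply det_dvd_of_span
    intro j
    have hle : TSpan w t u ≤ Submodule.span ℤ (Set.range (Matrix.of fun i =>
        sysA (redA n) ((Fin.addCases fx fy : Fin (n + 3) → _) i))) := by
      unfold TSpan
      rw [Submodule.span_le]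
      rintro v ⟨k, hk, rfl⟩
      rcases hall k hk with ⟨j, rfl⟩ | ⟨i, rfl⟩
      · refine Submodule.subset_span ⟨cx j, ?_⟩
        show sysA (redA n) ((Fin.addCases fx fy : Fin (n + 3) → _) (Fin.castAdd 3 j)) = _
        simp only [Fin.addCases_left]
      · refine Submodule.subset_span ⟨cy n i, ?_⟩
        show sysA (redA n) ((Fin.addCases fx fy : Fin (n + 3) → _) (Fin.natAdd n i)) = _
        simp only [Fin.addCases_right]
    exact hle (hspan j)

/-- The six configurations of the `y`-part at a vertex of `Q`. -/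
theorem q_part
    (h : (u (cy n 0) = 0 ∧ u (cy n 1) = 0 ∧ u (cy n 2) = 0) ∨
      (u (cy n 0) = 3 ∧ u (cy n 1) = 0 ∧ u (cy n 2) = 0) ∨
      (u (cy n 0) = 0 ∧ u (cy n 1) = 4 ∧ u (cy n 2) = 0) ∨
      (u (cy n 0) = 3 ∧ u (cy n 1) = 4 ∧ u (cy n 2) = 0) ∨
      (u (cy n 0) = 0 ∧ u (cy n 1) = 0 ∧ u (cy n 2) = 3) ∨
      (u (cy n 0) = 0 ∧ u (cy n 1) = 1 ∧ u (cy n 2) = 3)) :
    ∃ fy : Fin 3 → Fin (n + 3) ⊕ Fin (n + 3), (∀ i, Tight w t u (fy i)) ∧
      (∀ i, Tight w t u (Sum.inl (cy n i)) → ∃ i', fy i' = Sum.inl (cy n i)) ∧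
      (Tight w t u (Sum.inr (cy n 1)) → ∃ i', fy i' = Sum.inr (cy n 1)) ∧
      (Tight w t u (Sum.inr (cy n 2)) → ∃ i', fy i' = Sum.inr (cy n 2)) ∧
      ∀ i, Pi.single (cy n i) 1 ∈ TSpan w t u := by
  rcases h with ⟨a, b, c⟩ | ⟨a, b, c⟩ | ⟨a, b, c⟩ | ⟨a, b, c⟩ | ⟨a, b, c⟩ | ⟨a, b, c⟩
  · have k0 : Tight w t u (Sum.inl (cy n 0)) := (tight_inl _).2 a
    have k1 : Tight w t u (Sum.inl (cy n 1)) := (tight_inl _).2 b
    have k2 : Tight w t u (Sum.inl (cy n 2)) := (tight_inl _).2 c
    refine ⟨![Sum.inl (cy n 0), Sum.inl (cy n 1), Sum.inl (cy n 2)], ?_, ?_, ?_, ?_, ?_⟩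
    · intro i; fin_cases i
      exacts [k0, k1, k2]
    · intro i _; fin_cases i
      exacts [⟨0, rfl⟩, ⟨1, rfl⟩, ⟨2, rfl⟩]
    · intro h; rw [tight_1, a, c] at h; norm_num at h
    · intro h; rw [tight_2, b, c] at h; norm_num at h
    · intro i; fin_cases i
      exacts [span_inl k0, span_inl k1, span_inl k2]
  · have k0 : Tight w t u (Sum.inr (cy n 1)) := tight_1.2 (by rw [a, c]; norm_num)
    have k1 : Tight w t u (Sum.inl (cy n 1)) := (tight_inl _).2 b
    have k2 : Tight w t u (Sum.inl (cy n 2)) := (tight_inl _).2 c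
    refine ⟨![Sum.inr (cy n 1), Sum.inl (cy n 1), Sum.inl (cy n 2)], ?_, ?_, ?_, ?_, ?_⟩
    · intro i; fin_cases i
      exacts [k0, k1, k2]
    · intro i hi; fin_cases i
      · exfalso
        have := (tight_inl _).1 hi
        simp only [Fin.zero_eta] at this
        rw [a] at this; norm_num at this
      · exact ⟨1, rfl⟩
      · exact ⟨2, rfl⟩
    · intro _; exact ⟨0, rfl⟩
    · intro h; rw [tight_2, b, c] at h; norm_num at h
    · intro i; fin_cases i
      · have := Submodule.sub_mem _ (span_1 k0) (span_inl k2)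
        simpa using this
      · exact span_inl k1
      · exact span_inl k2
  · have k0 : Tight w t u (Sum.inl (cy n 0)) := (tight_inl _).2 a
    have k1 : Tight w t u (Sum.inr (cy n 2)) := tight_2.2 (by rw [b, c]; norm_num)
    have k2 : Tight w t u (Sum.inl (cy n 2)) := (tight_inl _).2 c
    refine ⟨![Sum.inl (cy n 0), Sum.inr (cy n 2), Sum.inl (cy n 2)], ?_, ?_, ?_, ?_, ?_⟩
    · intro i; fin_cases i
      exacts [k0, k1, k2]
    · intro i hi; fin_cases i
      · exact ⟨0, rfl⟩
      · exfalso
        have := (tight_inl _).1 hi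
        simp only [Fin.mk_one] at this
        rw [b] at this; norm_num at this
      · exact ⟨2, rfl⟩
    · intro h; rw [tight_1, a, c] at h; norm_num at h
    · intro _; exact ⟨1, rfl⟩
    · intro i; fin_cases i
      · exact span_inl k0
      · have := Submodule.sub_mem _ (span_2 k1) (span_inl k2)
        simpa using this
      · exact span_inl k2
  · have k0 : Tight w t u (Sum.inr (cy n 1)) := tight_1.2 (by rw [a, c]; norm_num)
    have k1 : Tight w t u (Sum.inr (cy n 2)) := tight_2.2 (by rw [b, c]; norm_num)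
    have k2 : Tight w t u (Sum.inl (cy n 2)) := (tight_inl _).2 c
    refine ⟨![Sum.inr (cy n 1), Sum.inr (cy n 2), Sum.inl (cy n 2)], ?_, ?_, ?_, ?_, ?_⟩
    · intro i; fin_cases i
      exacts [k0, k1, k2]
    · intro i hi; fin_cases i
      · exfalso
        have := (tight_inl _).1 hi
        simp only [Fin.zero_eta] at this
        rw [a] at this; norm_num at this
      · exfalso
        have := (tight_inl _).1 hi
        simp only [Fin.mk_one] at this
        rw [b] at this; norm_num at this
      · exact ⟨2, rfl⟩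
    · intro _; exact ⟨0, rfl⟩
    · intro _; exact ⟨1, rfl⟩
    · intro i; fin_cases i
      · have := Submodule.sub_mem _ (span_1 k0) (span_inl k2)
        simpa using this
      · have := Submodule.sub_mem _ (span_2 k1) (span_inl k2)
        simpa using this
      · exact span_inl k2
  · have k0 : Tight w t u (Sum.inl (cy n 0)) := (tight_inl _).2 a
    have k1 : Tight w t u (Sum.inl (cy n 1)) := (tight_inl _).2 b
    have k2 : Tight w t u (Sum.inr (cy n 1)) := tight_1.2 (by rw [a, c]; norm_num)
    refine ⟨![Sum.inl (cy n 0), Sum.inl (cy n 1), Sum.inr (cy n 1)], ?_, ?_, ?_, ?_, ?_⟩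
    · intro i; fin_cases i
      exacts [k0, k1, k2]
    · intro i hi; fin_cases i
      · exact ⟨0, rfl⟩
      · exact ⟨1, rfl⟩
      · exfalso
        have := (tight_inl _).1 hi
        simp only [Fin.reduceFinMk] at this
        rw [c] at this; norm_num at this
    · intro _; exact ⟨2, rfl⟩
    · intro h; rw [tight_2, b, c] at h; norm_num at h
    · intro i; fin_cases i
      · exact span_inl k0
      · exact span_inl k1
      · have := Submodule.sub_mem _ (span_1 k2) (span_inl k0)
        simpa using this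
  · have k0 : Tight w t u (Sum.inl (cy n 0)) := (tight_inl _).2 a
    have k1 : Tight w t u (Sum.inr (cy n 1)) := tight_1.2 (by rw [a, c]; norm_num)
    have k2 : Tight w t u (Sum.inr (cy n 2)) := tight_2.2 (by rw [b, c]; norm_num)
    refine ⟨![Sum.inl (cy n 0), Sum.inr (cy n 1), Sum.inr (cy n 2)], ?_, ?_, ?_, ?_, ?_⟩
    · intro i; fin_cases i
      exacts [k0, k1, k2]
    · intro i hi; fin_cases i
      · exact ⟨0, rfl⟩
      · exfalso
        have := (tight_inl _).1 hi
        simp only [Fin.mk_one] at this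
        rw [b] at this; norm_num at this
      · exfalso
        have := (tight_inl _).1 hi
        simp only [Fin.reduceFinMk] at this
        rw [c] at this; norm_num at this
    · intro _; exact ⟨1, rfl⟩
    · intro _; exact ⟨2, rfl⟩
    · have s0 := span_inl k0
      have s2 : Pi.single (cy n 2) 1 ∈ TSpan w t u := by
        have := Submodule.sub_mem _ (span_1 k1) s0
        simpa using this
      intro i; fin_cases i
      · exact s0
      · have := Submodule.sub_mem _ (span_2 k2) s2
        simpa using this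
      · exact s2

/-- The three configurations of the `y`-part when `∑ x + y₁ + y₂` is tight and `y₁ + y₂ = 5`. -/
theorem q5_part (hT : Tight w t u (Sum.inr (cy n 0)))
    (hx : ∀ j : Fin n, Pi.single (cx j) 1 ∈ TSpan w t u)
    (h : (u (cy n 0) = 1 ∧ u (cy n 1) = 4 ∧ u (cy n 2) = 0) ∨
      (u (cy n 0) = 3 ∧ u (cy n 1) = 2 ∧ u (cy n 2) = 0) ∨
      (u (cy n 0) = 2 ∧ u (cy n 1) = 3 ∧ u (cy n 2) = 1)) :
    ∃ fy : Fin 3 → Fin (n + 3) ⊕ Fin (n + 3), (∀ i, Tight w t u (fy i)) ∧
      (∀ i, Tight w t u (Sum.inl (cy n i)) → ∃ i', fy i' = Sum.inl (cy n i)) ∧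
      (∃ i', fy i' = Sum.inr (cy n 0)) ∧
      (Tight w t u (Sum.inr (cy n 1)) → ∃ i', fy i' = Sum.inr (cy n 1)) ∧
      (Tight w t u (Sum.inr (cy n 2)) → ∃ i', fy i' = Sum.inr (cy n 2)) ∧
      ∀ i, Pi.single (cy n i) 2 ∈ TSpan w t u := by
  have hsum : (∑ j : Fin n, Pi.single (cx j) (1 : ℤ)) ∈ TSpan w t u :=
    Submodule.sum_mem _ fun j _ => hx j
  have h01 : (Pi.single (cy n 0) (1 : ℤ) + Pi.single (cy n 1) 1) ∈ TSpan w t u := by
    have := Submodule.sub_mem _ (span_0 hT) hsum
    simpa using this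
  have htwo : ∀ i : Fin 3, Pi.single (cy n i) (1 : ℤ) ∈ TSpan w t u →
      Pi.single (cy n i) (2 : ℤ) ∈ TSpan w t u := by
    intro i hi
    have := Submodule.smul_mem (TSpan w t u) (2 : ℤ) hi
    rw [← Pi.single_smul] at this
    simpa using this
  rcases h with ⟨a, b, c⟩ | ⟨a, b, c⟩ | ⟨a, b, c⟩
  · have k1 : Tight w t u (Sum.inr (cy n 2)) := tight_2.2 (by rw [b, c]; norm_num)
    have k2 : Tight w t u (Sum.inl (cy n 2)) := (tight_inl _).2 c
    refine ⟨![Sum.inr (cy n 0), Sum.inr (cy n 2), Sum.inl (cy n 2)], ?_, ?_, ?_, ?_, ?_, ?_⟩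
    · intro i; fin_cases i
      exacts [hT, k1, k2]
    · intro i hi; fin_cases i
      · exfalso
        have := (tight_inl _).1 hi
        simp only [Fin.zero_eta] at this
        rw [a] at this; norm_num at this
      · exfalso
        have := (tight_inl _).1 hi
        simp only [Fin.mk_one] at this
        rw [b] at this; norm_num at this
      · exact ⟨2, rfl⟩
    · exact ⟨0, rfl⟩
    · intro h; rw [tight_1, a, c] at h; norm_num at h
    · intro _; exact ⟨1, rfl⟩
    · have s2 := span_inl k2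
      have s1 : Pi.single (cy n 1) (1 : ℤ) ∈ TSpan w t u := by
        have := Submodule.sub_mem _ (span_2 k1) s2
        simpa using this
      have s0 : Pi.single (cy n 0) (1 : ℤ) ∈ TSpan w t u := by
        have := Submodule.sub_mem _ h01 s1
        simpa using this
      intro i; fin_cases i
      exacts [htwo _ s0, htwo _ s1, htwo _ s2]
  · have k1 : Tight w t u (Sum.inr (cy n 1)) := tight_1.2 (by rw [a, c]; norm_num)
    have k2 : Tight w t u (Sum.inl (cy n 2)) := (tight_inl _).2 c
    refine ⟨![Sum.inr (cy n 0), Sum.inr (cy n 1), Sum.inl (cy n 2)], ?_, ?_, ?_, ?_, ?_, ?_⟩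
    · intro i; fin_cases i
      exacts [hT, k1, k2]
    · intro i hi; fin_cases i
      · exfalso
        have := (tight_inl _).1 hi
        simp only [Fin.zero_eta] at this
        rw [a] at this; norm_num at this
      · exfalso
        have := (tight_inl _).1 hi
        simp only [Fin.mk_one] at this
        rw [b] at this; norm_num at this
      · exact ⟨2, rfl⟩
    · exact ⟨0, rfl⟩
    · intro _; exact ⟨1, rfl⟩
    · intro h; rw [tight_2, b, c] at h; norm_num at h
    · have s2 := span_inl k2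
      have s0 : Pi.single (cy n 0) (1 : ℤ) ∈ TSpan w t u := by
        have := Submodule.sub_mem _ (span_1 k1) s2
        simpa using this
      have s1 : Pi.single (cy n 1) (1 : ℤ) ∈ TSpan w t u := by
        have := Submodule.sub_mem _ h01 s0
        simpa using this
      intro i; fin_cases i
      exacts [htwo _ s0, htwo _ s1, htwo _ s2]
  · have k1 : Tight w t u (Sum.inr (cy n 1)) := tight_1.2 (by rw [a, c]; norm_num)
    have k2 : Tight w t u (Sum.inr (cy n 2)) := tight_2.2 (by rw [b, c]; norm_num)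
    refine ⟨![Sum.inr (cy n 0), Sum.inr (cy n 1), Sum.inr (cy n 2)], ?_, ?_, ?_, ?_, ?_, ?_⟩
    · intro i; fin_cases i
      exacts [hT, k1, k2]
    · intro i hi; fin_cases i
      · exfalso
        have := (tight_inl _).1 hi
        simp only [Fin.zero_eta] at this
        rw [a] at this; norm_num at this
      · exfalso
        have := (tight_inl _).1 hi
        simp only [Fin.mk_one] at this
        rw [b] at this; norm_num at this
      · exfalso
        have := (tight_inl _).1 hi
        simp only [Fin.reduceFinMk] at this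
        rw [c] at this; norm_num at this
    · exact ⟨0, rfl⟩
    · intro _; exact ⟨1, rfl⟩
    · intro _; exact ⟨2, rfl⟩
    · have e1 := span_1 k1
      have e2 := span_2 k2
      have two_eq : ∀ i : Fin 3, (Pi.single (cy n i) (2 : ℤ) : Fin (n + 3) → ℤ) =
          Pi.single (cy n i) (1 : ℤ) + Pi.single (cy n i) 1 := by
        intro i; rw [← Pi.single_add]; norm_num
      intro i; fin_cases i
      · show (Pi.single (cy n 0) (2 : ℤ) : Fin (n + 3) → ℤ) ∈ _
        have := Submodule.sub_mem _ (Submodule.add_mem _ h01 e1) e2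
        have heq : (Pi.single (cy n 0) (1:ℤ) + Pi.single (cy n 1) 1 +
            (Pi.single (cy n 0) 1 + Pi.single (cy n 2) 1) -
            (Pi.single (cy n 1) 1 + Pi.single (cy n 2) 1) : Fin (n + 3) → ℤ) =
            Pi.single (cy n 0) 2 := by
          rw [two_eq]; abel
        rwa [heq] at this
      · show (Pi.single (cy n 1) (2 : ℤ) : Fin (n + 3) → ℤ) ∈ _
        have := Submodule.sub_mem _ (Submodule.add_mem _ h01 e2) e1
        have heq : (Pi.single (cy n 0) (1:ℤ) + Pi.single (cy n 1) 1 +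
            (Pi.single (cy n 1) 1 + Pi.single (cy n 2) 1) -
            (Pi.single (cy n 0) 1 + Pi.single (cy n 2) 1) : Fin (n + 3) → ℤ) =
            Pi.single (cy n 1) 2 := by
          rw [two_eq]; abel
        rwa [heq] at this
      · show (Pi.single (cy n 2) (2 : ℤ) : Fin (n + 3) → ℤ) ∈ _
        have := Submodule.sub_mem _ (Submodule.add_mem _ e1 e2) h01
        have heq : (Pi.single (cy n 0) (1:ℤ) + Pi.single (cy n 2) 1 +
            (Pi.single (cy n 1) 1 + Pi.single (cy n 2) 1) -
            (Pi.single (cy n 0) 1 + Pi.single (cy n 1) 1) : Fin (n + 3) → ℤ) =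
            Pi.single (cy n 2) 2 := by
          rw [two_eq]; abel
        rwa [heq] at this

end core

end Pool.Agent.Helper73.UVC
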