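import Mathlib
import Pool.Agent.Helper73.UVCDefs
import Pool.Agent.Helper73.UVCLocal
import Pool.Agent.Helper73.UVCReduction
import Pool.Agent.Helper73.UVCMain
import Pool.Agent.Helper73.UVCCore

namespace Pool.Agent.Helper73.UVC

open scoped BigOperators

section core

variable {n : ℕ} {w : Fin n → ℕ} {t : ℕ} {u : Fin (n + 3) → ℝ}

theorem feas (hu : u ∈ hpoly (sysA (redA n)) (sysb (redb w t))) :
    (∀ k, 0 ≤ u k) ∧ (∀ j, u (cx j) ≤ 8 * (w j : ℝ)) ∧
      ((∑ j : Fin n, u (cx j)) + (u (cy n 0) + u (cy n 1)) ≤ 8 * (t : ℝ) + 5) ∧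
      u (cy n 0) + u (cy n 2) ≤ 3 ∧ u (cy n 1) + u (cy n 2) ≤ 4 := by
  rw [← polyhedron_eq] at hu
  obtain ⟨h1, h2⟩ := hu
  refine ⟨h1, fun j => ?_, ?_, ?_, ?_⟩
  · have := h2 (cx j); rw [dot_x, redb_x] at this; push_cast at this; exact this
  · have := h2 (cy n 0); rw [dot_0, redb_0] at this; push_cast at this; exact this
  · have := h2 (cy n 1); rw [dot_1, redb_1] at this; push_cast at this; exact this
  · have := h2 (cy n 2); rw [dot_2, redb_2] at this; push_cast at this; exact this

theorem dirs (hu : u ∈ (hpoly (sysA (redA n)) (sysb (redb w t))).extremePoints ℝ)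
    (c : Fin n → ℝ) (d1 d2 d3 : ℝ)
    (hc0 : ∀ j, u (cx j) = 0 → c j = 0) (hc1 : ∀ j, u (cx j) = 8 * (w j : ℝ) → c j = 0)
    (h1 : u (cy n 0) = 0 → d1 = 0) (h2 : u (cy n 1) = 0 → d2 = 0) (h3 : u (cy n 2) = 0 → d3 = 0)
    (hR : (∑ j : Fin n, u (cx j)) + (u (cy n 0) + u (cy n 1)) = 8 * (t : ℝ) + 5 →
      (∑ j, c j) + (d1 + d2) = 0)
    (h4 : u (cy n 0) + u (cy n 2) = 3 → d1 + d3 = 0)
    (h5 : u (cy n 1) + u (cy n 2) = 4 → d2 + d3 = 0) :
    (∀ j, c j = 0) ∧ d1 = 0 ∧ d2 = 0 ∧ d3 = 0 := by
  set D : Fin (n + 3) → ℝ := Fin.append c ![d1, d2, d3] with hD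
  have dx : ∀ j, D (cx j) = c j := fun j => by simp [hD, cx]
  have d0' : D (cy n 0) = d1 := by simp [hD, cy]
  have d1' : D (cy n 1) = d2 := by simp [hD, cy]
  have d2' : D (cy n 2) = d3 := by simp [hD, cy]
  have hz : D = 0 := by
    apply extreme_dir hu
    intro k hk
    have hk' : Tight w t u k := hk
    rcases k with k | k
    · rw [tight_inl] at hk'
      simp only [sysA, Sum.elim_inl]
      rw [dot_negsingle, neg_eq_zero]
      revert hk'
      clear hk
      revert k
      refine cases3 (fun j => ?_) ?_ ?_ ?_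
      · intro h; rw [dx]; exact hc0 j h
      · intro h; rw [d0']; exact h1 h
      · intro h; rw [d1']; exact h2 h
      · intro h; rw [d2']; exact h3 h
    · simp only [sysA, Sum.elim_inr]
      revert hk'
      clear hk
      revert k
      refine cases3 (fun j => ?_) ?_ ?_ ?_
      · intro h; rw [tight_x] at h; rw [dot_x, dx]; exact hc1 j h
      · intro h; rw [tight_0] at h; rw [dot_0, d0', d1']
        simp only [dx]; exact hR h
      · intro h; rw [tight_1] at h; rw [dot_1, d0', d2']; exact h4 h
      · intro h; rw [tight_2] at h; rw [dot_2, d1', d2']; exact h5 h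
  refine ⟨fun j => ?_, ?_, ?_, ?_⟩
  · rw [← dx, hz]; rfl
  · rw [← d0', hz]; rfl
  · rw [← d1', hz]; rfl
  · rw [← d2', hz]; rfl

theorem vertex_enum (hw : ∀ j, 0 < w j)
    (hu : u ∈ (hpoly (sysA (redA n)) (sysb (redb w t))).extremePoints ℝ) :
    ∃ e : Fin (n + 3) → Fin (n + 3) ⊕ Fin (n + 3),
      (∀ k, dot (sysA (redA n) k) u = sysb (redb w t) k ↔ ∃ i, e i = k) ∧
      (Matrix.of fun i => sysA (redA n) (e i)).det ∣ 2 ^ (n + 3) ∧
      ((¬ ∃ J : Finset (Fin n), ∑ j ∈ J, w j = t) →
        (Matrix.of fun i => sysA (redA n) (e i)).det ∣ 1 ^ (n + 3)) := by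
  classical
  obtain ⟨f0, f1, f2, f3, f4⟩ := feas hu.1
  have hw' : ∀ j, (0 : ℝ) < 8 * (w j : ℝ) := fun j => by
    have : (0 : ℝ) < (w j : ℝ) := by exact_mod_cast hw j
    linarith
  -- strengthen: a common helper turning divisibility
  have key : ∀ (P : Prop), (∃ e : Fin (n + 3) → Fin (n + 3) ⊕ Fin (n + 3),
      (∀ k, dot (sysA (redA n) k) u = sysb (redb w t) k ↔ ∃ i, e i = k) ∧
      (Matrix.of fun i => sysA (redA n) (e i)).det ∣ 1 ^ (n + 3)) →
      ∃ e : Fin (n + 3) → Fin (n + 3) ⊕ Fin (n + 3),
      (∀ k, dot (sysA (redA n) k) u = sysb (redb w t) k ↔ ∃ i, e i = k) ∧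
      (Matrix.of fun i => sysA (redA n) (e i)).det ∣ 2 ^ (n + 3) ∧
      (P → (Matrix.of fun i => sysA (redA n) (e i)).det ∣ 1 ^ (n + 3)) := by
    rintro P ⟨e, h1, h2⟩
    refine ⟨e, h1, ?_, fun _ => h2⟩
    rw [one_pow] at h2
    exact h2.trans (one_dvd _)
  -- the standard choice on the x-part
  set g : Fin n → Fin (n + 3) ⊕ Fin (n + 3) := fun j =>
    if u (cx j) = 0 then Sum.inl (cx j) else Sum.inr (cx j) with hg
  have hgT : ∀ j, (u (cx j) = 0 ∨ u (cx j) = 8 * (w j : ℝ)) → Tight w t u (g j) := by
    intro j hj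
    by_cases h0 : u (cx j) = 0
    · simp only [hg, h0, if_true]; exact (tight_inl _).2 h0
    · simp only [hg, h0, if_false]; exact (tight_x _).2 (hj.resolve_left h0)
  have hgl : ∀ j, Tight w t u (Sum.inl (cx j)) → g j = Sum.inl (cx j) := by
    intro j hj; rw [tight_inl] at hj; simp [hg, hj]
  have hgr : ∀ j, Tight w t u (Sum.inr (cx j)) → g j = Sum.inr (cx j) := by
    intro j hj; rw [tight_x] at hj
    have : u (cx j) ≠ 0 := by rw [hj]; exact (hw' j).ne'
    simp [hg, this]
  have hgspan : ∀ j, (u (cx j) = 0 ∨ u (cx j) = 8 * (w j : ℝ)) →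
      Pi.single (cx j) (1 : ℤ) ∈ TSpan w t u := by
    intro j hj
    rcases hj with h | h
    · exact span_inl ((tight_inl _).2 h)
    · exact span_x ((tight_x _).2 h)
  by_cases hR : (∑ j : Fin n, u (cx j)) + (u (cy n 0) + u (cy n 1)) = 8 * (t : ℝ) + 5
  · by_cases hf : ∃ j0, u (cx j0) ≠ 0 ∧ u (cx j0) ≠ 8 * (w j0 : ℝ)
    · obtain ⟨j0, hj0, hj0'⟩ := hf
      have hother : ∀ j, j ≠ j0 → (u (cx j) = 0 ∨ u (cx j) = 8 * (w j : ℝ)) := by
        intro j hj
        by_contra hcon
        push Not at hcon
        have := dirs hu (Pi.single j 1 - Pi.single j0 1) 0 0 0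
          (by
            intro i hi
            have h1 : i ≠ j := by rintro rfl; exact hcon.1 hi
            have h2 : i ≠ j0 := by rintro rfl; exact hj0 hi
            simp [Pi.single_eq_of_ne h1, Pi.single_eq_of_ne h2])
          (by
            intro i hi
            have h1 : i ≠ j := by rintro rfl; exact hcon.2 hi
            have h2 : i ≠ j0 := by rintro rfl; exact hj0' hi
            simp [Pi.single_eq_of_ne h1, Pi.single_eq_of_ne h2])
          (fun _ => rfl) (fun _ => rfl) (fun _ => rfl)
          (fun _ => by simp [Finset.sum_sub_distrib])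
          (fun _ => by norm_num) (fun _ => by norm_num)
        have h2 := this.1 j
        simp [Pi.single_eq_of_ne hj] at h2
      have hq := q_vertices (f0 (cy n 0)) (f0 (cy n 1)) (f0 (cy n 2)) f3 f4
        (by
          intro d1 d2 d3 e1 e2 e3 e4 e5
          have := dirs hu (Pi.single j0 (-(d1 + d2))) d1 d2 d3
            (by
              intro i hi
              have h2 : i ≠ j0 := by rintro rfl; exact hj0 hi
              simp [Pi.single_eq_of_ne h2])
            (by
              intro i hi
              have h2 : i ≠ j0 := by rintro rfl; exact hj0' hi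
              simp [Pi.single_eq_of_ne h2])
            e1 e2 e3 (fun _ => by simp) e4 e5
          exact this.2)
      obtain ⟨fy, hfy, hfy0, hfy1, hfy2, hfys⟩ := q_part (w := w) (t := t) (u := u) hq
      apply key
      have hTR : Tight w t u (Sum.inr (cy n 0)) := tight_0.2 hR
      refine assemble (fun j => if j = j0 then Sum.inr (cy n 0) else g j) fy ?_ hfy ?_ 1 ?_
      · intro j
        by_cases hj : j = j0
        · simp only [hj, if_true]; exact hTR
        · simp only [hj, if_false]; exact hgT j (hother j hj)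
      · intro k hk
        rcases k with k | k
        · revert k
          refine cases3 (fun j => ?_) ?_ ?_ ?_
          · intro hk
            have hj : j ≠ j0 := by
              rintro rfl; exact hj0 ((tight_inl _).1 hk)
            exact Or.inl ⟨j, by simp only [hj, if_false]; exact hgl j hk⟩
          · intro hk; exact Or.inr (hfy0 0 hk)
          · intro hk; exact Or.inr (hfy0 1 hk)
          · intro hk; exact Or.inr (hfy0 2 hk)
        · revert k
          refine cases3 (fun j => ?_) ?_ ?_ ?_
          · intro hk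
            have hj : j ≠ j0 := by
              rintro rfl; exact hj0' ((tight_x _).1 hk)
            exact Or.inl ⟨j, by simp only [hj, if_false]; exact hgr j hk⟩
          · intro _; exact Or.inl ⟨j0, by simp⟩
          · intro hk; exact Or.inr (hfy1 hk)
          · intro hk; exact Or.inr (hfy2 hk)
      · refine cases3 (fun j => ?_) (hfys 0) (hfys 1) (hfys 2)
        by_cases hj : j = j0
        · subst hj
          have h1 := span_0 hTR
          have h2 : (∑ i ∈ Finset.univ.erase j, Pi.single (cx i) (1 : ℤ)) ∈ TSpan w t u :=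
            Submodule.sum_mem _ fun i hi => hgspan i (hother i (Finset.ne_of_mem_erase hi))
          rw [← Finset.add_sum_erase _ _ (Finset.mem_univ j)] at h1
          have h3 := Submodule.sub_mem _ h1 (Submodule.add_mem _ h2
            (Submodule.add_mem _ (hfys 0) (hfys 1)))
          have heq : ((Pi.single (cx j) (1:ℤ) + ∑ i ∈ Finset.univ.erase j, Pi.single (cx i) 1 +
              (Pi.single (cy n 0) 1 + Pi.single (cy n 1) 1)) -
              (∑ i ∈ Finset.univ.erase j, Pi.single (cx i) 1 +
              (Pi.single (cy n 0) 1 + Pi.single (cy n 1) 1)) : Fin (n + 3) → ℤ) =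
              Pi.single (cx j) 1 := by abel
          rwa [heq] at h3
        · exact hgspan j (hother j hj)
    · push Not at hf
      have hall : ∀ j, (u (cx j) = 0 ∨ u (cx j) = 8 * (w j : ℝ)) := by
        intro j
        by_cases h : u (cx j) = 0
        · exact Or.inl h
        · exact Or.inr (hf j h)
      set J : Finset (Fin n) := Finset.univ.filter fun j => u (cx j) ≠ 0 with hJ
      have hsum : ∑ j : Fin n, u (cx j) = 8 * ((∑ j ∈ J, w j : ℕ) : ℝ) := by
        push_cast
        rw [Finset.mul_sum, hJ, Finset.sum_filter]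
        refine Finset.sum_congr rfl fun j _ => ?_
        rcases hall j with h | h
        · simp [h]
        · have : u (cx j) ≠ 0 := by rw [h]; exact (hw' j).ne'
          rw [if_pos this, h]
      set s : ℕ := ∑ j ∈ J, w j with hs
      have hy1 := f0 (cy n 0)
      have hy2 := f0 (cy n 1)
      have hy3 := f0 (cy n 2)
      have hst : s = t := by
        rcases lt_trichotomy s t with h | h | h
        · exfalso
          have : (s : ℝ) + 1 ≤ t := by exact_mod_cast h
          rw [hsum] at hR
          linarith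
        · exact h
        · exfalso
          have : (t : ℝ) + 1 ≤ s := by exact_mod_cast h
          rw [hsum] at hR
          linarith
      have h5 : u (cy n 0) + u (cy n 1) = 5 := by
        rw [hsum, hst] at hR; linarith
      have hq := q5_vertices hy1 hy2 hy3 f3 f4 h5
        (by
          intro d1 d2 d3 e0 e1 e2 e3 e4 e5
          have := dirs hu 0 d1 d2 d3 (fun _ _ => rfl) (fun _ _ => rfl) e1 e2 e3
            (fun _ => by simp [e0]) e4 e5
          exact this.2)
      have hTR : Tight w t u (Sum.inr (cy n 0)) := tight_0.2 hR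
      obtain ⟨fy, hfy, hfy0, hfy00, hfy1, hfy2, hfys⟩ :=
        q5_part (w := w) (t := t) (u := u) hTR (fun j => hgspan j (hall j)) hq
      have hres := assemble (w := w) (t := t) (u := u) g fy (fun j => hgT j (hall j)) hfy
        (by
          intro k hk
          rcases k with k | k
          · revert k
            refine cases3 (fun j => ?_) ?_ ?_ ?_
            · intro hk; exact Or.inl ⟨j, hgl j hk⟩
            · intro hk; exact Or.inr (hfy0 0 hk)
            · intro hk; exact Or.inr (hfy0 1 hk)
            · intro hk; exact Or.inr (hfy0 2 hk)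
          · revert k
            refine cases3 (fun j => ?_) ?_ ?_ ?_
            · intro hk; exact Or.inl ⟨j, hgr j hk⟩
            · intro _; exact Or.inr hfy00
            · intro hk; exact Or.inr (hfy1 hk)
            · intro hk; exact Or.inr (hfy2 hk)) 2
        (by
          refine cases3 (fun j => ?_) (hfys 0) (hfys 1) (hfys 2)
          have := Submodule.smul_mem (TSpan w t u) (2 : ℤ) (hgspan j (hall j))
          rw [← Pi.single_smul] at this
          simpa using this)
      obtain ⟨e, he1, he2⟩ := hres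
      exact ⟨e, he1, he2, fun hno => absurd ⟨J, hst⟩ hno⟩
  · have hall : ∀ j, (u (cx j) = 0 ∨ u (cx j) = 8 * (w j : ℝ)) := by
      intro j
      by_contra hcon
      push Not at hcon
      have := dirs hu (Pi.single j 1) 0 0 0
        (by
          intro i hi
          have h1 : i ≠ j := by rintro rfl; exact hcon.1 hi
          simp [Pi.single_eq_of_ne h1])
        (by
          intro i hi
          have h1 : i ≠ j := by rintro rfl; exact hcon.2 hi
          simp [Pi.single_eq_of_ne h1])
        (fun _ => rfl) (fun _ => rfl) (fun _ => rfl)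
        (fun h => absurd h hR)
        (fun _ => by norm_num) (fun _ => by norm_num)
      have h2 := this.1 j
      simp at h2
    have hq := q_vertices (f0 (cy n 0)) (f0 (cy n 1)) (f0 (cy n 2)) f3 f4
      (by
        intro d1 d2 d3 e1 e2 e3 e4 e5
        have := dirs hu 0 d1 d2 d3 (fun _ _ => rfl) (fun _ _ => rfl) e1 e2 e3
          (fun h => absurd h hR) e4 e5
        exact this.2)
    obtain ⟨fy, hfy, hfy0, hfy1, hfy2, hfys⟩ := q_part (w := w) (t := t) (u := u) hq
    apply key
    refine assemble g fy (fun j => hgT j (hall j)) hfy ?_ 1 ?_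
    · intro k hk
      rcases k with k | k
      · revert k
        refine cases3 (fun j => ?_) ?_ ?_ ?_
        · intro hk; exact Or.inl ⟨j, hgl j hk⟩
        · intro hk; exact Or.inr (hfy0 0 hk)
        · intro hk; exact Or.inr (hfy0 1 hk)
        · intro hk; exact Or.inr (hfy0 2 hk)
      · revert k
        refine cases3 (fun j => ?_) ?_ ?_ ?_
        · intro hk; exact Or.inl ⟨j, hgr j hk⟩
        · intro hk; exact absurd (tight_0.1 hk) hR
        · intro hk; exact Or.inr (hfy1 hk)
        · intro hk; exact Or.inr (hfy2 hk)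
    · exact cases3 (fun j => hgspan j (hall j)) (hfys 0) (hfys 1) (hfys 2)

/-- In all cases `A(u)` is square at every vertex. -/
theorem square_at_vertices (hw : ∀ j, 0 < w j) :
    SquareAtVertices (polyhedron (redA n) (redb w t)) := by
  rw [polyhedron_eq]
  intro u hu
  obtain ⟨e, he, hd, _⟩ := vertex_enum hw hu
  have hdet : (Matrix.of fun i => sysA (redA n) (e i)).det ≠ 0 := by
    intro h0
    rw [h0] at hd
    have := zero_dvd_iff.1 hd
    exact pow_ne_zero _ two_ne_zero this
  exact ⟨_, (local_structure hu.1 sys_prim e he hdet).2.2.2⟩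

/-- The vertex produced by a solution of the subset sum instance. -/
theorem bad_vertex (hw : ∀ j, 0 < w j) (J : Finset (Fin n)) (hJ : ∑ j ∈ J, w j = t) :
    ¬ UnimodularAtVertices (polyhedron (redA n) (redb w t)) := by
  classical
  set u : Fin (n + 3) → ℝ :=
    Fin.append (fun j => if j ∈ J then 8 * (w j : ℝ) else 0) ![2, 3, 1] with hu
  have ux : ∀ j, u (cx j) = if j ∈ J then 8 * (w j : ℝ) else 0 := fun j => by
    simp [hu, cx]
  have u0 : u (cy n 0) = 2 := by simp [hu, cy]
  have u1 : u (cy n 1) = 3 := by simp [hu, cy]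
  have u2 : u (cy n 2) = 1 := by simp [hu, cy]
  have hw' : ∀ j, (0 : ℝ) < 8 * (w j : ℝ) := fun j => by
    have : (0 : ℝ) < (w j : ℝ) := by exact_mod_cast hw j
    linarith
  have hsum : ∑ j : Fin n, u (cx j) = 8 * (t : ℝ) := by
    rw [← hJ]
    push_cast
    rw [Finset.mul_sum]
    simp only [ux]
    rw [← Finset.sum_filter]
    congr 1
    ext j; simp
  have hR : (∑ j : Fin n, u (cx j)) + (u (cy n 0) + u (cy n 1)) = 8 * (t : ℝ) + 5 := by
    rw [hsum, u0, u1]; norm_num
  have hmem : u ∈ hpoly (sysA (redA n)) (sysb (redb w t)) := by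
    rw [← polyhedron_eq]
    refine ⟨?_, ?_⟩
    · refine cases3 (fun j => ?_) ?_ ?_ ?_
      · rw [ux]; split_ifs
        · exact (hw' j).le
        · exact le_refl _
      · rw [u0]; norm_num
      · rw [u1]; norm_num
      · rw [u2]; norm_num
    · refine cases3 (fun j => ?_) ?_ ?_ ?_
      · rw [dot_x, redb_x, ux]; push_cast
        split_ifs
        · exact le_refl _
        · exact (hw' j).le
      · rw [dot_0, redb_0]; push_cast; exact hR.le
      · rw [dot_1, redb_1, u0, u2]; norm_num
      · rw [dot_2, redb_2, u1, u2]; norm_num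
  have hTR : Tight w t u (Sum.inr (cy n 0)) := tight_0.2 hR
  have hall : ∀ j, (u (cx j) = 0 ∨ u (cx j) = 8 * (w j : ℝ)) := by
    intro j; rw [ux]; split_ifs
    · exact Or.inr rfl
    · exact Or.inl rfl
  have hxspan : ∀ j, Pi.single (cx j) (1 : ℤ) ∈ TSpan w t u := by
    intro j
    rcases hall j with h | h
    · exact span_inl ((tight_inl _).2 h)
    · exact span_x ((tight_x _).2 h)
  obtain ⟨fy, hfy, hfy0, hfy00, hfy1, hfy2, hfys⟩ :=
    q5_part (w := w) (t := t) (u := u) hTR hxspan (Or.inr (Or.inr ⟨u0, u1, u2⟩))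
  obtain ⟨e, he, hd⟩ := assemble (w := w) (t := t) (u := u)
    (fun j => if u (cx j) = 0 then Sum.inl (cx j) else Sum.inr (cx j)) fy
    (by
      intro j
      by_cases h0 : u (cx j) = 0
      · simp only [h0, if_true]; exact (tight_inl _).2 h0
      · simp only [h0, if_false]; exact (tight_x _).2 ((hall j).resolve_left h0)) hfy
    (by
      intro k hk
      rcases k with k | k
      · revert k
        refine cases3 (fun j => ?_) ?_ ?_ ?_
        · intro hk; rw [tight_inl] at hk; exact Or.inl ⟨j, by simp [hk]⟩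
        · intro hk; exact Or.inr (hfy0 0 hk)
        · intro hk; exact Or.inr (hfy0 1 hk)
        · intro hk; exact Or.inr (hfy0 2 hk)
      · revert k
        refine cases3 (fun j => ?_) ?_ ?_ ?_
        · intro hk; rw [tight_x] at hk
          have : u (cx j) ≠ 0 := by rw [hk]; exact (hw' j).ne'
          exact Or.inl ⟨j, by simp [this]⟩
        · intro _; exact Or.inr hfy00
        · intro hk; exact Or.inr (hfy1 hk)
        · intro hk; exact Or.inr (hfy2 hk)) 2
    (by
      refine cases3 (fun j => ?_) (hfys 0) (hfys 1) (hfys 2)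
      have := Submodule.smul_mem (TSpan w t u) (2 : ℤ) (hxspan j)
      rw [← Pi.single_smul] at this
      simpa using this)
  have hdet : (Matrix.of fun i => sysA (redA n) (e i)).det ≠ 0 := by
    intro h0
    rw [h0] at hd
    have := zero_dvd_iff.1 hd
    exact pow_ne_zero _ two_ne_zero this
  obtain ⟨hext, hclass, hFinj, hVM⟩ := local_structure hmem sys_prim e he hdet
  intro hgood
  rw [polyhedron_eq] at hgood
  obtain ⟨M, ⟨F, hF1, hF2, hF3⟩, hM⟩ := hgood u hext
  -- parity functional
  let pr : Fin (n + 3) → ((Fin (n + 3) → ℤ) →ₗ[ℤ] ℤ) := fun i => LinearMap.proj i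
  let φ : (Fin (n + 3) → ℤ) →ₗ[ℤ] ℤ := pr (cy n 0) + pr (cy n 1) + pr (cy n 2)
  have hφ : ∀ v : Fin (n + 3) → ℤ, φ v = v (cy n 0) + v (cy n 1) + v (cy n 2) := fun v => rfl
  -- tight rows are even and have a unit entry
  have h01 : cy n 0 ≠ cy n 1 := by intro h; have := congrArg Fin.val h; simp [cy] at this
  have h02 : cy n 0 ≠ cy n 2 := by intro h; have := congrArg Fin.val h; simp [cy] at this
  have h12 : cy n 1 ≠ cy n 2 := by intro h; have := congrArg Fin.val h; simp [cy] at this
  have htight_row : ∀ k, Tight w t u k → (2 : ℤ) ∣ φ (sysA (redA n) k) ∧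
      ∃ j, sysA (redA n) k j = 1 ∨ sysA (redA n) k j = -1 := by
    intro k hk
    rcases k with k | k
    · refine ⟨?_, k, Or.inr (by simp [sysA])⟩
      revert k
      refine cases3 (fun j => ?_) ?_ ?_ ?_
      · intro _
        have hx0 : cy n 0 ≠ cx j := by
          intro h; have := congrArg Fin.val h; simp [cx, cy] at this; omega
        have hx1 : cy n 1 ≠ cx j := by
          intro h; have := congrArg Fin.val h; simp [cx, cy] at this; omega
        have hx2 : cy n 2 ≠ cx j := by
          intro h; have := congrArg Fin.val h; simp [cx, cy] at this; omega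
        rw [hφ]
        simp only [sysA, Sum.elim_inl, Pi.neg_apply, Pi.single_eq_of_ne hx0,
          Pi.single_eq_of_ne hx1, Pi.single_eq_of_ne hx2]
        simp
      · intro hk; rw [tight_inl, u0] at hk; norm_num at hk
      · intro hk; rw [tight_inl, u1] at hk; norm_num at hk
      · intro hk; rw [tight_inl, u2] at hk; norm_num at hk
    · clear hk
      revert k
      refine cases3 (fun j => ?_) ?_ ?_ ?_
      · have hx0 : cy n 0 ≠ cx j := by
          intro h; have := congrArg Fin.val h; simp [cx, cy] at this; omega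
        have hx1 : cy n 1 ≠ cx j := by
          intro h; have := congrArg Fin.val h; simp [cx, cy] at this; omega
        have hx2 : cy n 2 ≠ cx j := by
          intro h; have := congrArg Fin.val h; simp [cx, cy] at this; omega
        simp only [sysA, Sum.elim_inr]
        rw [hφ, redA_x]
        refine ⟨?_, cx j, Or.inl (by simp)⟩
        rw [Pi.single_eq_of_ne hx0, Pi.single_eq_of_ne hx1, Pi.single_eq_of_ne hx2]
        simp
      · simp only [sysA, Sum.elim_inr]
        rw [hφ, redA_0]
        refine ⟨?_, cy n 0, Or.inl (by simp [cy])⟩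
        simp [cy]
      · simp only [sysA, Sum.elim_inr]
        rw [hφ, redA_1]
        refine ⟨?_, cy n 0, Or.inl ?_⟩
        · simp only [Pi.add_apply, Pi.single_eq_same, Pi.single_eq_of_ne h02,
            Pi.single_eq_of_ne (Ne.symm h01), Pi.single_eq_of_ne h12,
            Pi.single_eq_of_ne (Ne.symm h02)]
          norm_num
        · rw [Pi.add_apply, Pi.single_eq_same, Pi.single_eq_of_ne h02, add_zero]
      · simp only [sysA, Sum.elim_inr]
        rw [hφ, redA_2]
        refine ⟨?_, cy n 1, Or.inl ?_⟩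
        · simp only [Pi.add_apply, Pi.single_eq_same, Pi.single_eq_of_ne h02,
            Pi.single_eq_of_ne h01, Pi.single_eq_of_ne h12,
            Pi.single_eq_of_ne (Ne.symm h12)]
          norm_num
        · rw [Pi.add_apply, Pi.single_eq_same, Pi.single_eq_of_ne h12, add_zero]
  have hrow : ∀ i, (2 : ℤ) ∣ φ (M i) := by
    intro i
    have h1 : IsFacet (hpoly (sysA (redA n)) (sysb (redb w t))) (F i) ∧ u ∈ F i :=
      (hF2 (F i)).1 ⟨i, rfl⟩
    obtain ⟨i', hi'⟩ := (hclass (F i)).2 h1
    obtain ⟨r, hr⟩ := normal_unique hmem e he hdet i' (M i) (by rw [hi']; exact (hF3 i).2)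
    obtain ⟨hpar, j, hj⟩ := htight_row (e i') ((he (e i')).2 ⟨i', rfl⟩)
    -- r is an integer
    have hrint : ∃ z : ℤ, r = z := by
      have h2 := hr j
      rcases hj with hj | hj
      · rw [hj] at h2; exact ⟨M i j, by rw [h2]; simp⟩
      · rw [hj] at h2; exact ⟨-(M i j), by push_cast; rw [h2]; simp⟩
    obtain ⟨z, rfl⟩ := hrint
    have hMi : M i = z • sysA (redA n) (e i') := by
      ext k
      have h2 := hr k
      rw [Pi.smul_apply, smul_eq_mul]
      exact_mod_cast h2
    rw [hMi, map_smul, smul_eq_mul]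
    exact Dvd.dvd.mul_left hpar z
  have hspan := span_of_det M hM (Pi.single (cy n 0) 1)
  have hle : Submodule.span ℤ (Set.range M) ≤ (Submodule.span ℤ {(2 : ℤ)}).comap φ := by
    rw [Submodule.span_le]
    rintro _ ⟨i, rfl⟩
    obtain ⟨z, hz⟩ := hrow i
    show φ (M i) ∈ Submodule.span ℤ {(2 : ℤ)}
    rw [hz, Submodule.mem_span_singleton]
    exact ⟨z, by simp [mul_comm]⟩
  have h1 : φ (Pi.single (cy n 0) 1) ∈ Submodule.span ℤ {(2 : ℤ)} := hle hspan
  rw [hφ, Pi.single_eq_same, Pi.single_eq_of_ne (Ne.symm h01), Pi.single_eq_of_ne (Ne.symm h02),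
    Submodule.mem_span_singleton] at h1
  obtain ⟨z, hz⟩ := h1
  simp only [smul_eq_mul] at hz
  omega

/-- **The reduction.** -/
theorem unimodular_iff (hw : ∀ j, 0 < w j) :
    UnimodularAtVertices (polyhedron (redA n) (redb w t)) ↔
      ¬ ∃ J : Finset (Fin n), ∑ j ∈ J, w j = t := by
  constructor
  · rintro h ⟨J, hJ⟩
    exact bad_vertex hw J hJ h
  · intro hno
    rw [polyhedron_eq]
    intro u hu
    obtain ⟨e, he, _, hd⟩ := vertex_enum hw hu
    have hd' := hd hno
    rw [one_pow] at hd'
    have hunit : IsUnit (Matrix.of fun i => sysA (redA n) (e i)).det := isUnit_of_dvd_one hd'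
    exact ⟨_, (local_structure hu.1 sys_prim e he hunit.ne_zero).2.2.2,
      Int.isUnit_iff_abs_eq.1 hunit⟩

end core

end Pool.Agent.Helper73.UVC
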