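import Mathlib

/-!
# Platek's typed lambda calculus over the hereditarily monotone functionals

* `Ty`: the finite types over the natural numbers.
* `D σ`: the monotone functionals of type `σ`, ordered by information.  The type of numbers is
  interpreted by `Part ℕ` (a number or undefined) and `σ ⇒ τ` by all monotone maps from
  `D σ` to `D τ` with the pointwise order.
* `Tm Γ σ`: terms of type `σ` with free variables of the types listed in `Γ`, built from
  variables, `0`, successor, predecessor, definition by cases, the least fixed point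
  operator, application and abstraction.
* `Tm.den`: the value of a term.
* `chi X`, `ex2`, `omegaB`, `omegaC`: the functionals of the problem.
-/

namespace Pool.Agent.Helper73.Omega

/-- Finite types. -/
inductive Ty : Type
  | nat : Ty
  | arr (σ τ : Ty) : Ty

/-- A partially ordered set with a least element. -/
structure Dm where
  /-- the underlying type -/
  carrier : Type
  [po : PartialOrder carrier]
  [ob : OrderBot carrier]

attribute [instance] Dm.po Dm.ob

/-- The interpretation of the types, as ordered sets with a least element. -/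
noncomputable def Dom : Ty → Dm
  | .nat => ⟨Part ℕ⟩
  | .arr σ τ => ⟨(Dom σ).carrier →o (Dom τ).carrier⟩

/-- The partial monotone functionals of type `σ`. -/
abbrev D (σ : Ty) : Type := (Dom σ).carrier

theorem D_nat : D .nat = Part ℕ := rfl

theorem D_arr (σ τ : Ty) : D (.arr σ τ) = (D σ →o D τ) := rfl

/-- An element of the ordered set of type `nat` as an element of `Part ℕ`. -/
noncomputable def val (x : D .nat) : Part ℕ := x

/-- Application of a functional. -/
noncomputable def ap {σ τ : Ty} (f : D (.arr σ τ)) (x : D σ) : D τ := (show D σ →o D τ from f) x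

/-- Every monotone map is a functional. -/
noncomputable def mk {σ τ : Ty} (f : D σ →o D τ) : D (.arr σ τ) := f

theorem ap_mk {σ τ : Ty} (f : D σ →o D τ) (x : D σ) : ap (mk f) x = f x := rfl

theorem ap_mono {σ τ : Ty} {f g : D (.arr σ τ)} {x y : D σ} (h : f ≤ g) (h' : x ≤ y) :
    ap f x ≤ ap g y := by
  have h1 : ap f x ≤ ap f y := (show D σ →o D τ from f).monotone h'
  have h2 : (show D σ →o D τ from f) y ≤ (show D σ →o D τ from g) y :=
    (show (show D σ →o D τ from f) ≤ (show D σ →o D τ from g) from h) y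
  exact h1.trans h2

theorem le_iff_ap {σ τ : Ty} {f g : D (.arr σ τ)} : f ≤ g ↔ ∀ x, ap f x ≤ ap g x := Iff.rfl

theorem ext_ap {σ τ : Ty} {f g : D (.arr σ τ)} (h : ∀ x, ap f x = ap g x) : f = g :=
  le_antisymm (le_iff_ap.2 fun x => (h x).le) (le_iff_ap.2 fun x => (h x).ge)

theorem ap_bot {σ τ : Ty} (x : D σ) : ap (⊥ : D (.arr σ τ)) x = ⊥ := rfl

theorem part_eq_of_le {x y : Part ℕ} (h : x ≤ y) {n : ℕ} (hn : n ∈ x) : y = x := by
  have h1 : n ∈ y := h n hn
  rw [Part.eq_some_iff.2 hn, Part.eq_some_iff.2 h1]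

/-- Every chain of functionals has a least upper bound. -/
theorem exists_isLUB_chain : ∀ (σ : Ty) (c : Set (D σ)), IsChain (· ≤ ·) c → ∃ u, IsLUB c u := by
  intro σ
  induction σ with
  | nat =>
    intro c hc
    change Set (Part ℕ) at c
    by_cases h : ∃ y ∈ c, ∃ n, n ∈ y
    · obtain ⟨y, hy, n, hn⟩ := h
      refine ⟨y, fun z hz => ?_, fun z hz => hz hy⟩
      rcases hc.total hz hy with h1 | h1
      · exact h1
      · exact (part_eq_of_le h1 hn).le
    · refine ⟨(⊥ : Part ℕ), fun z hz => ?_, fun z _ => bot_le⟩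
      intro n hn
      exact absurd ⟨z, hz, n, hn⟩ h
  | arr σ τ _ ih =>
    intro c hc
    have hch : ∀ x : D σ, IsChain (· ≤ ·) ((fun h => ap h x) '' c) := by
      intro x
      rintro _ ⟨f, hf, rfl⟩ _ ⟨g, hg, rfl⟩ _
      rcases hc.total hf hg with h | h
      · exact Or.inl (le_iff_ap.1 h x)
      · exact Or.inr (le_iff_ap.1 h x)
    choose u hu using fun x => ih _ (hch x)
    refine ⟨mk ⟨u, fun x y hxy => ?_⟩, fun f hf => ?_, fun g hg => ?_⟩
    · refine (hu x).2 ?_
      rintro _ ⟨f, hf, rfl⟩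
      exact (ap_mono (le_refl f) hxy).trans ((hu y).1 ⟨f, hf, rfl⟩)
    · exact le_iff_ap.2 fun x => (hu x).1 ⟨f, hf, rfl⟩
    · refine le_iff_ap.2 fun x => (hu x).2 ?_
      rintro _ ⟨f, hf, rfl⟩
      exact le_iff_ap.1 (hg hf) x

/-- Least upper bounds of chains of functionals are pointwise. -/
theorem isLUB_ap {σ τ : Ty} {c : Set (D (.arr σ τ))} (hc : IsChain (· ≤ ·) c)
    {g : D (.arr σ τ)} (hg : IsLUB c g) (x : D σ) :
    IsChain (· ≤ ·) ((fun h => ap h x) '' c) ∧ IsLUB ((fun h => ap h x) '' c) (ap g x) := by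
  have hch : ∀ x : D σ, IsChain (· ≤ ·) ((fun h => ap h x) '' c) := by
    intro x
    rintro _ ⟨f, hf, rfl⟩ _ ⟨g, hg, rfl⟩ _
    rcases hc.total hf hg with h | h
    · exact Or.inl (le_iff_ap.1 h x)
    · exact Or.inr (le_iff_ap.1 h x)
  choose u hu using fun x => exists_isLUB_chain τ _ (hch x)
  have hmono : Monotone u := by
    intro x y hxy
    refine (hu x).2 ?_
    rintro _ ⟨f, hf, rfl⟩
    exact (ap_mono (le_refl f) hxy).trans ((hu y).1 ⟨f, hf, rfl⟩)
  have h1 : IsLUB c (mk ⟨u, hmono⟩) := by
    refine ⟨fun f hf => ?_, fun g hg => ?_⟩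
    · exact le_iff_ap.2 fun x => (hu x).1 ⟨f, hf, rfl⟩
    · refine le_iff_ap.2 fun x => (hu x).2 ?_
      rintro _ ⟨f, hf, rfl⟩
      exact le_iff_ap.1 (hg hf) x
  have h2 : g = mk ⟨u, hmono⟩ := hg.unique h1
  refine ⟨hch x, ?_⟩
  rw [h2]
  exact hu x

/-- A monotone map has a least fixed point, and it belongs to every set which is closed
under the map and under least upper bounds of chains. -/
theorem exists_lfp {σ : Ty} (f : D σ →o D σ) : ∃ x, IsLeast {x | f x = x} x ∧
    ∀ S : Set (D σ), (∀ y ∈ S, f y ∈ S) →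
      (∀ c ⊆ S, IsChain (· ≤ ·) c → ∀ u, IsLUB c u → u ∈ S) → x ∈ S := by
  -- first a maximal element of the set of all points below their image and below all fixed
  -- points
  have key : ∀ S : Set (D σ), (∀ y ∈ S, f y ∈ S) →
      (∀ c ⊆ S, IsChain (· ≤ ·) c → ∀ u, IsLUB c u → u ∈ S) →
      ∃ x ∈ S, IsLeast {x | f x = x} x := by
    intro S hS1 hS2
    obtain ⟨m, hm⟩ := zorn_le₀ {x | x ∈ S ∧ x ≤ f x ∧ ∀ y, f y = y → x ≤ y} (by
      intro c hcs hc
      obtain ⟨u, hu⟩ := exists_isLUB_chain σ c hc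
      refine ⟨u, ⟨hS2 c (fun x hx => (hcs hx).1) hc u hu, ?_, ?_⟩, fun z hz => hu.1 hz⟩
      · exact hu.2 fun x hx => (hcs hx).2.1.trans (f.monotone (hu.1 hx))
      · exact fun y hy => hu.2 fun x hx => (hcs hx).2.2 y hy)
    have h1 := hm.prop
    have h2 : f m ∈ {x | x ∈ S ∧ x ≤ f x ∧ ∀ y, f y = y → x ≤ y} := by
      refine ⟨hS1 m h1.1, f.monotone h1.2.1, fun y hy => ?_⟩
      calc f m ≤ f y := f.monotone (h1.2.2 y hy)
        _ = y := hy
    have h3 : f m ≤ m := hm.le_of_ge h2 h1.2.1
    exact ⟨m, h1.1, le_antisymm h3 h1.2.1, fun y hy => h1.2.2 y hy⟩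
  obtain ⟨x, -, hx⟩ := key Set.univ (fun _ _ => Set.mem_univ _) (fun _ _ _ _ _ => Set.mem_univ _)
  refine ⟨x, hx, fun S h1 h2 => ?_⟩
  obtain ⟨y, hy, hy'⟩ := key S h1 h2
  rwa [hx.unique hy']

/-- The least fixed point of a monotone map. -/
noncomputable def lfp {σ : Ty} (f : D σ →o D σ) : D σ := (exists_lfp f).choose

theorem isLeast_lfp {σ : Ty} (f : D σ →o D σ) : IsLeast {x | f x = x} (lfp f) :=
  (exists_lfp f).choose_spec.1

theorem lfp_mem {σ : Ty} (f : D σ →o D σ) (S : Set (D σ)) (h1 : ∀ y ∈ S, f y ∈ S)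
    (h2 : ∀ c ⊆ S, IsChain (· ≤ ·) c → ∀ u, IsLUB c u → u ∈ S) : lfp f ∈ S :=
  (exists_lfp f).choose_spec.2 S h1 h2

theorem lfp_mono {σ : Ty} {f g : D σ →o D σ} (h : f ≤ g) : lfp f ≤ lfp g := by
  refine lfp_mem f {x | x ≤ lfp g} (fun y hy => ?_) (fun c hc _ u hu => hu.2 hc)
  have h1 : g (lfp g) = lfp g := (isLeast_lfp g).1
  calc f y ≤ g y := h y
    _ ≤ g (lfp g) := g.monotone hy
    _ = lfp g := h1

/-- The least fixed point operator as a functional. -/
noncomputable def fixD (σ : Ty) : D (.arr (.arr σ σ) σ) :=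
  mk ⟨fun f => lfp f, fun _ _ h => lfp_mono h⟩

/-- A function on numbers as a strict functional. -/
noncomputable def fnD (h : ℕ → ℕ) : D (.arr .nat .nat) :=
  mk ⟨fun x : Part ℕ => x.map h, fun x y hxy => by
    intro n hn
    obtain ⟨m, hm, rfl⟩ := (Part.mem_map_iff h).1 hn
    exact (Part.mem_map_iff h).2 ⟨m, hxy m hm, rfl⟩⟩

open Classical in
/-- Definition by cases: the second argument if the first one is `0`, the third argument if
the first one is positive, and undefined if the first one is undefined. -/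
noncomputable def caseD {σ : Ty} (n : Part ℕ) (x y : D σ) : D σ :=
  if 0 ∈ n then x else if ∃ m, m ∈ n then y else ⊥

theorem caseD_mono {σ : Ty} {n n' : Part ℕ} {x x' y y' : D σ} (hn : n ≤ n') (hx : x ≤ x')
    (hy : y ≤ y') : caseD n x y ≤ caseD n' x' y' := by
  unfold caseD
  by_cases h : ∃ m, m ∈ n
  · obtain ⟨m, hm⟩ := h
    rw [part_eq_of_le hn hm]
    split_ifs
    · exact hx
    · exact hy
    · exact bot_le
  · rw [if_neg (fun h' => h ⟨0, h'⟩), if_neg h]
    exact bot_le

/-- Definition by cases as a functional. -/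
noncomputable def casesD (σ : Ty) : D (.arr .nat (.arr σ (.arr σ σ))) :=
  mk ⟨fun n : Part ℕ => mk ⟨fun x => mk ⟨fun y => caseD n x y,
    fun _ _ h => caseD_mono (le_refl n) (le_refl x) h⟩,
    fun _ _ h => le_iff_ap.2 fun y => caseD_mono (le_refl n) h (le_refl y)⟩,
    fun _ _ h => le_iff_ap.2 fun x => le_iff_ap.2 fun y => caseD_mono h (le_refl x) (le_refl y)⟩

/-- Variables of type `σ` in a list of types. -/
inductive Var : List Ty → Ty → Type
  | zero {Γ : List Ty} {σ : Ty} : Var (σ :: Γ) σ
  | succ {Γ : List Ty} {σ τ : Ty} : Var Γ σ → Var (τ :: Γ) σ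

/-- The constants of Platek's calculus: zero, successor, predecessor, definition by cases and
the least fixed point operator. -/
inductive Cst : Ty → Type
  | zero : Cst .nat
  | succ : Cst (.arr .nat .nat)
  | pred : Cst (.arr .nat .nat)
  | cases (σ : Ty) : Cst (.arr .nat (.arr σ (.arr σ σ)))
  | fix (σ : Ty) : Cst (.arr (.arr σ σ) σ)

/-- The value of a constant. -/
noncomputable def Cst.den : ∀ {σ : Ty}, Cst σ → D σ
  | _, .zero => (Part.some 0 : Part ℕ)
  | _, .succ => fnD Nat.succ
  | _, .pred => fnD Nat.pred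
  | _, .cases σ => casesD σ
  | _, .fix σ => fixD σ

/-- Terms of Platek's calculus, with free variables of the types listed in `Γ`. -/
inductive Tm : List Ty → Ty → Type
  | var {Γ : List Ty} {σ : Ty} : Var Γ σ → Tm Γ σ
  | cst {Γ : List Ty} {σ : Ty} : Cst σ → Tm Γ σ
  | app {Γ : List Ty} {σ τ : Ty} : Tm Γ (.arr σ τ) → Tm Γ σ → Tm Γ τ
  | lam {Γ : List Ty} {σ τ : Ty} : Tm (σ :: Γ) τ → Tm Γ (.arr σ τ)

/-- Assignments of values to the free variables. -/
abbrev Env (Γ : List Ty) : Type := ∀ σ, Var Γ σ → D σ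

/-- The empty assignment. -/
def Env.nil : Env [] := fun _ x => nomatch x

/-- Extension of an assignment. -/
def Env.cons {Γ : List Ty} {σ : Ty} (a : D σ) (e : Env Γ) : Env (σ :: Γ)
  | _, .zero => a
  | _, .succ x => e _ x

theorem Env.cons_mono {Γ : List Ty} {σ : Ty} {a a' : D σ} {e e' : Env Γ} (h : a ≤ a')
    (h' : e ≤ e') : Env.cons a e ≤ Env.cons a' e' := by
  intro τ x
  cases x with
  | zero => exact h
  | succ x => exact h' τ x

/-- The value of a variable, as a monotone function of the assignment. -/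
noncomputable def varM {Γ : List Ty} {σ : Ty} (x : Var Γ σ) : Env Γ →o D σ :=
  ⟨fun e => e σ x, fun _ _ h => h σ x⟩

/-- A constant function of the assignment. -/
noncomputable def cstM {Γ : List Ty} {σ : Ty} (a : D σ) : Env Γ →o D σ :=
  ⟨fun _ => a, fun _ _ _ => le_rfl⟩

/-- Application of two monotone functions of the assignment. -/
noncomputable def appM {Γ : List Ty} {σ τ : Ty} (F : Env Γ →o D (.arr σ τ))
    (G : Env Γ →o D σ) : Env Γ →o D τ :=
  ⟨fun e => ap (F e) (G e), fun _ _ h => ap_mono (F.monotone h) (G.monotone h)⟩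

/-- Abstraction of a monotone function of the assignment. -/
noncomputable def lamM {Γ : List Ty} {σ τ : Ty} (F : Env (σ :: Γ) →o D τ) :
    Env Γ →o D (.arr σ τ) :=
  ⟨fun e => mk ⟨fun a => F (Env.cons a e), fun _ _ h => F.monotone (Env.cons_mono h le_rfl)⟩,
    fun _ _ h => le_iff_ap.2 fun a => F.monotone (Env.cons_mono (le_refl a) h)⟩

/-- The value of a term, as a monotone function of the assignment. -/
noncomputable def Tm.den : ∀ {Γ : List Ty} {σ : Ty}, Tm Γ σ → (Env Γ →o D σ)
  | _, _, .var x => varM x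
  | _, _, .cst c => cstM c.den
  | _, _, .app t u => appM t.den u.den
  | _, _, .lam t => lamM t.den

section Functionals

/-- The functional of type `σ ⇒ nat` given by a single valued monotone relation. -/
noncomputable def ofRel {σ : Ty} (Q : D σ → ℕ → Prop) (hu : ∀ g m n, Q g m → Q g n → m = n)
    (hm : ∀ g g' n, g ≤ g' → Q g n → Q g' n) : D (.arr σ .nat) :=
  mk ⟨fun g => (⟨∃ n, Q g n, fun h => h.choose⟩ : Part ℕ), fun g g' hgg' => by
    rintro n ⟨h, rfl⟩
    have h1 : Q g h.choose := h.choose_spec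
    have h2 : ∃ n, Q g' n := ⟨_, hm g g' _ hgg' h1⟩
    exact ⟨h2, hu g' _ _ h2.choose_spec (hm g g' _ hgg' h1)⟩⟩

theorem mem_ofRel {σ : Ty} {Q : D σ → ℕ → Prop} {hu : ∀ g m n, Q g m → Q g n → m = n}
    {hm : ∀ g g' n, g ≤ g' → Q g n → Q g' n} {g : D σ} {n : ℕ} :
    n ∈ val (ap (ofRel Q hu hm) g) ↔ Q g n := by
  constructor
  · rintro ⟨h, rfl⟩
    exact h.choose_spec
  · intro h
    have h2 : ∃ n, Q g n := ⟨n, h⟩
    exact ⟨h2, hu g _ _ h2.choose_spec h⟩

/-- The type of functions on numbers. -/
abbrev one : Ty := .arr .nat .nat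
/-- The type of functionals on functions. -/
abbrev two : Ty := .arr one .nat
/-- The type of functionals on functionals on functions. -/
abbrev three : Ty := .arr two .nat

/-- The functional `g` of type one is total with the values `f n`. -/
def HasValues (g : D one) (f : ℕ → ℕ) : Prop :=
  ∀ n : ℕ, ap g (Part.some n : Part ℕ) = (Part.some (f n) : Part ℕ)

theorem HasValues.mono {g g' : D one} {f : ℕ → ℕ} (h : HasValues g f) (hg : g ≤ g') :
    HasValues g' f := by
  intro n
  have h1 : (show Part ℕ from ap g (Part.some n : Part ℕ)) ≤ ap g' (Part.some n : Part ℕ) :=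
    le_iff_ap.1 hg _
  have h2 : f n ∈ (show Part ℕ from ap g (Part.some n : Part ℕ)) := by
    rw [h n]
    exact Part.mem_some _
  exact Part.eq_some_iff.2 (h1 _ h2)

theorem HasValues.unique {g : D one} {f f' : ℕ → ℕ} (h : HasValues g f) (h' : HasValues g f') :
    f = f' := by
  funext n
  exact Part.some_injective ((h n).symm.trans (h' n))

/-- A point of Cantor space as a functional of type one. -/
noncomputable def bit (f : ℕ → Bool) : D one := fnD fun n => (f n).toNat

theorem hasValues_fnD (h : ℕ → ℕ) : HasValues (fnD h) h := fun n => Part.map_some h n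

theorem toNat_comp_injective {f f' : ℕ → Bool} (h : (fun n => (f n).toNat) = fun n =>
    (f' n).toNat) : f = f' := by
  funext n
  have := congrFun h n
  revert this
  cases f n <;> cases f' n <;> simp

open Classical in
/-- The characteristic function of a set `X` of points of Cantor space, as a functional of type
two, defined exactly on the functionals of type one with values in `{0, 1}`. -/
noncomputable def chi (X : Set (ℕ → Bool)) : D two :=
  ofRel (fun g v => ∃ f : ℕ → Bool, HasValues g (fun n => (f n).toNat) ∧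
      v = if f ∈ X then 1 else 0)
    (by
      rintro g m n ⟨f, hf, rfl⟩ ⟨f', hf', rfl⟩
      rw [toNat_comp_injective (hf.unique hf')])
    (by
      rintro g g' n hg ⟨f, hf, rfl⟩
      exact ⟨f, hf.mono hg, rfl⟩)

open Classical in
/-- Kleene's quantifier, defined exactly on the total functionals of type one. -/
noncomputable def ex2 : D two :=
  ofRel (fun g v => ∃ f : ℕ → ℕ, HasValues g f ∧ v = if ∃ n, f n = 0 then 0 else 1)
    (by
      rintro g m n ⟨f, hf, rfl⟩ ⟨f', hf', rfl⟩
      rw [hf.unique hf'])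
    (by
      rintro g g' n hg ⟨f, hf, rfl⟩
      exact ⟨f, hf.mono hg, rfl⟩)

open Classical in
/-- The functional `φ` of type two restricted to Cantor space is the characteristic function
of the set `X`. -/
def IsChar (φ : D two) (X : Set (ℕ → Bool)) : Prop :=
  ∀ f : ℕ → Bool, ap φ (bit f) = (Part.some (if f ∈ X then 1 else 0) : Part ℕ)

theorem IsChar.mono {φ φ' : D two} {X : Set (ℕ → Bool)} (h : IsChar φ X) (hφ : φ ≤ φ') :
    IsChar φ' X := by
  classical
  intro f
  have h1 : (show Part ℕ from ap φ (bit f)) ≤ ap φ' (bit f) := le_iff_ap.1 hφ _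
  have h2 : (if f ∈ X then 1 else 0) ∈ (show Part ℕ from ap φ (bit f)) := by
    have := h f
    rw [this]
    exact Part.mem_some _
  exact Part.eq_some_iff.2 (h1 _ h2)

theorem IsChar.unique {φ : D two} {X Y : Set (ℕ → Bool)} (h : IsChar φ X) (h' : IsChar φ Y) :
    X = Y := by
  classical
  ext f
  have h1 := Part.some_injective ((h f).symm.trans (h' f))
  by_cases hx : f ∈ X <;> by_cases hy : f ∈ Y <;> simp_all

theorem isChar_chi (X : Set (ℕ → Bool)) : IsChar (chi X) X := by
  classical
  intro f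
  exact Part.eq_some_iff.2 (mem_ofRel.2 ⟨f, hasValues_fnD _, rfl⟩)

open Classical in
/-- The functional which decides emptiness exactly for the sets in the class `K`. -/
noncomputable def emptinessOn (K : Set (Set (ℕ → Bool))) : D three :=
  ofRel (fun φ v => ∃ X ∈ K, IsChar φ X ∧ v = if X.Nonempty then 1 else 0)
    (by
      rintro g m n ⟨X, _, hX, rfl⟩ ⟨Y, _, hY, rfl⟩
      rw [hX.unique hY])
    (by
      rintro g g' n hg ⟨X, hXK, hX, rfl⟩
      exact ⟨X, hXK, hX.mono hg, rfl⟩)

open Classical in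
theorem mem_emptinessOn {K : Set (Set (ℕ → Bool))} {φ : D two} {v : ℕ} :
    v ∈ val (ap (emptinessOn K) φ) ↔
      ∃ X ∈ K, IsChar φ X ∧ v = if X.Nonempty then 1 else 0 :=
  mem_ofRel

/-- The functional `Ω_b`: emptiness of sets with at most one element. -/
noncomputable def omegaB : D three := emptinessOn {X | X.Subsingleton}

/-- The functional `Ω_C`: emptiness of closed sets. -/
noncomputable def omegaC : D three := emptinessOn {X | IsClosed X}

end Functionals

end Pool.Agent.Helper73.Omega
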