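import Pool.Agent.Helper73.OmegaMachine
import Pool.Agent.Helper73.OmegaTerms

/-!
# Terms are evaluated by the machine

Closures and stacks of closures, the machine which evaluates terms with the constants `omegaB`,
`ex2`, functions on numbers and an oracle set, and the proof that a defined value of a term is
found by the machine.
-/

namespace Pool.Agent.Helper73.Omega

/-- Closures. -/
inductive Clo : Ty → Type
  | tm {Γ : List Ty} {σ : Ty} (t : Tm Γ σ) (e : ∀ τ, Var Γ τ → Clo τ) : Clo σ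
  | cst {σ : Ty} (k : Cst σ) : Clo σ
  | app {σ τ : Ty} (c : Clo (.arr σ τ)) (a : Clo σ) : Clo τ
  | num (n : ℕ) : Clo .nat
  | fn (h : ℕ → ℕ) : Clo one
  | real (l : ℕ) : Clo one
  | ex : Clo two
  | orc : Clo two
  | om : Clo three

/-- Stacks of arguments. -/
inductive Stk : Ty → Type
  | nil : Stk .nat
  | push {σ τ : Ty} (a : Clo σ) (s : Stk τ) : Stk (.arr σ τ)

/-- Assignments of closures. -/
abbrev CEnv (Γ : List Ty) : Type := ∀ τ, Var Γ τ → Clo τ

/-- Extension of an assignment of closures. -/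
def CEnv.cons {Γ : List Ty} {σ : Ty} (a : Clo σ) (e : CEnv Γ) : CEnv (σ :: Γ)
  | _, .zero => a
  | _, .succ x => e _ x

/-- Configurations: the number of reals in use, a closure and a stack. -/
structure Cfg : Type where
  /-- the number of reals in use -/
  d : ℕ
  /-- the type of the closure -/
  σ : Ty
  /-- the closure -/
  c : Clo σ
  /-- the stack of arguments -/
  s : Stk σ

/-- The node of a constant. -/
def nodeCst (d : ℕ) : ∀ {σ : Ty}, Cst σ → Stk σ → Node Cfg
  | _, .zero, .nil => .leaf 0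
  | _, .succ, .push a .nil => .un Nat.succ ⟨d, _, a, .nil⟩
  | _, .pred, .push a .nil => .un Nat.pred ⟨d, _, a, .nil⟩
  | _, .cases _, .push a (.push b (.push c s)) => .branch ⟨d, _, a, .nil⟩ ⟨d, _, b, s⟩
      ⟨d, _, c, s⟩
  | _, .fix σ, .push a s => .un id ⟨d, _, a, .push (.app (.cst (.fix σ)) a) s⟩

/-- The node of a term in an environment. -/
def nodeTm (d : ℕ) : ∀ {Γ : List Ty} {σ : Ty}, Tm Γ σ → CEnv Γ → Stk σ → Node Cfg
  | _, _, .var x, e, s => .un id ⟨d, _, e _ x, s⟩
  | _, _, .cst k, _, s => .un id ⟨d, _, .cst k, s⟩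
  | _, _, .app t u, e, s => .un id ⟨d, _, .tm t e, .push (.tm u e) s⟩
  | _, _, .lam t, e, .push a s => .un id ⟨d, _, .tm t (CEnv.cons a e), s⟩

/-- The node of a closure with a stack. -/
def nodeClo (d : ℕ) : ∀ {σ : Ty}, Clo σ → Stk σ → Node Cfg
  | _, .tm t e, s => nodeTm d t e s
  | _, .cst k, s => nodeCst d k s
  | _, .app c a, s => .un id ⟨d, _, c, .push a s⟩
  | _, .num n, .nil => .leaf n
  | _, .fn h, .push a .nil => .un h ⟨d, _, a, .nil⟩
  | _, .real l, .push a .nil => .look (d - 1 - l) ⟨d, _, a, .nil⟩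
  | _, .ex, .push a .nil => .ex fun n => ⟨d, _, a, .push (.num n) .nil⟩
  | _, .orc, .push a .nil => .orc fun n => ⟨d, _, a, .push (.num n) .nil⟩
  | _, .om, .push a .nil => .om ⟨d + 1, _, a, .push (.real d) .nil⟩

/-- The machine. -/
def nodeCfg (x : Cfg) : Node Cfg := nodeClo x.d x.c x.s

/-- Evaluation of a closure with a stack of arguments. -/
abbrev Run (X : Set Real2) (d : ℕ) (r : Stack) {σ : Ty} (c : Clo σ) (s : Stk σ) (v : ℕ) : Prop :=
  Eval nodeCfg X ⟨d, σ, c, s⟩ r v

theorem run_un {X : Set Real2} {d : ℕ} {r : Stack} {σ : Ty} {c : Clo σ} {s : Stk σ}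
    {σ' : Ty} {c' : Clo σ'} {s' : Stk σ'} (h : nodeClo d c s = .un id ⟨d, σ', c', s'⟩) {v : ℕ} :
    Run X d r c s v ↔ Run X d r c' s' v := by
  constructor
  · intro e
    obtain ⟨m, h1, h2⟩ := Eval.inv_un (N := nodeCfg) (c := ⟨d, σ, c, s⟩) h e
    rw [h2]
    exact h1
  · intro e
    exact Eval.un (N := nodeCfg) (c := ⟨d, σ, c, s⟩) (h := id) h e

theorem run_app {X : Set Real2} {d : ℕ} {r : Stack} {σ τ : Ty} {c : Clo (.arr σ τ)} {a : Clo σ}
    {s : Stk τ} {v : ℕ} : Run X d r (.app c a) s v ↔ Run X d r c (.push a s) v := run_un rfl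

/-- `(d', r')` extends `(d, r)` by further reals. -/
def Ext (d : ℕ) (r : Stack) (d' : ℕ) (r' : Stack) : Prop :=
  d ≤ d' ∧ ∀ l < d, r' (d' - 1 - l) = r (d - 1 - l)

theorem Ext.refl (d : ℕ) (r : Stack) : Ext d r d r := ⟨le_rfl, fun _ _ => rfl⟩

theorem Ext.trans {d d' d'' : ℕ} {r r' r'' : Stack} (h : Ext d r d' r') (h' : Ext d' r' d'' r'') :
    Ext d r d'' r'' :=
  ⟨h.1.trans h'.1, fun l hl => (h'.2 l (lt_of_lt_of_le hl h.1)).trans (h.2 l hl)⟩

theorem Ext.push (d : ℕ) (r : Stack) (y : Real2) : Ext d r (d + 1) (push y r) := by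
  refine ⟨Nat.le_succ d, fun l hl => ?_⟩
  obtain ⟨k, hk⟩ : ∃ k, d = l + 1 + k := ⟨d - (l + 1), by omega⟩
  have h1 : d + 1 - 1 - l = k + 1 := by omega
  have h2 : d - 1 - l = k := by omega
  rw [h1, h2]
  rfl

/-- The relation between functionals and closures. -/
def Good (X : Set Real2) : ∀ (σ : Ty), ℕ → Stack → D σ → Clo σ → Prop
  | .nat, d, r, x, c => ∀ d' r', Ext d r d' r' → ∀ v, v ∈ val x →
      Run X d' r' c .nil v
  | .arr σ τ, d, r, g, c => ∀ d' r', Ext d r d' r' → ∀ (a : D σ) (ca : Clo σ),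
      Good X σ d' r' a ca → Good X τ d' r' (ap g a) (.app c ca)

theorem Good.mono {X : Set Real2} {σ : Ty} {d d' : ℕ} {r r' : Stack} {x : D σ} {c : Clo σ}
    (h : Good X σ d r x c) (he : Ext d r d' r') : Good X σ d' r' x c := by
  cases σ with
  | nat => exact fun d'' r'' h' => h d'' r'' (he.trans h')
  | arr σ τ => exact fun d'' r'' h' => h d'' r'' (he.trans h')

theorem good_sim {X : Set Real2} {σ : Ty} {d : ℕ} {r : Stack} {x : D σ} {c c' : Clo σ}
    (h : ∀ d' r', Ext d r d' r' → ∀ (s : Stk σ) v, Run X d' r' c s v → Run X d' r' c' s v)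
    (hg : Good X σ d r x c) : Good X σ d r x c' := by
  induction σ generalizing d r with
  | nat => exact fun d' r' he v hv => h d' r' he _ _ (hg d' r' he v hv)
  | arr σ τ _ ih =>
    intro d' r' he a ca ha
    refine ih (fun d'' r'' he' s v hr => ?_) (hg d' r' he a ca ha)
    rw [run_app] at hr ⊢
    exact h d'' r'' (he.trans he') _ _ hr

theorem good_bot {X : Set Real2} {σ : Ty} {d : ℕ} {r : Stack} (c : Clo σ) :
    Good X σ d r ⊥ c := by
  induction σ generalizing d r with
  | nat => exact fun d' r' he v hv => (Part.notMem_none v hv).elim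
  | arr σ τ _ ih =>
    intro d' r' he a ca ha
    exact ih _

theorem good_sup {X : Set Real2} {σ : Ty} {c : Clo σ} {d : ℕ} {r : Stack} {A : Set (D σ)}
    (hA : IsChain (· ≤ ·) A) {u : D σ} (hu : IsLUB A u) (h : ∀ x ∈ A, Good X σ d r x c) :
    Good X σ d r u c := by
  induction σ generalizing d r with
  | nat =>
    intro d' r' he v hv
    change Set (Part ℕ) at A
    by_cases h1 : ∃ y ∈ A, ∃ n, n ∈ y
    · obtain ⟨y, hy, n, hn⟩ := h1
      have h2 : (show Part ℕ from u) = y := part_eq_of_le (hu.1 hy) hn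
      rw [h2] at hv
      exact h y hy d' r' he v hv
    · exfalso
      have h2 : (show Part ℕ from u) ≤ (⊥ : Part ℕ) := hu.2 (fun y hy n hn => absurd ⟨y, hy, n, hn⟩ h1)
      exact Part.notMem_none v (h2 v hv)
  | arr σ τ _ ih =>
    intro d' r' he a ca ha
    obtain ⟨h1, h2⟩ := isLUB_ap hA hu a
    refine ih h1 h2 ?_
    rintro _ ⟨g, hg, rfl⟩
    exact h g hg d' r' he a ca ha

theorem good_num (X : Set Real2) (d : ℕ) (r : Stack) (n : ℕ) :
    Good X .nat d r (Part.some n : Part ℕ) (.num n) := by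
  intro d' r' he v hv
  rw [Part.mem_some_iff.1 hv]
  exact Eval.leaf rfl

theorem good_fn (X : Set Real2) (d : ℕ) (r : Stack) (h : ℕ → ℕ) :
    Good X one d r (fnD h) (.fn h) := by
  intro d' r' he a ca ha d'' r'' he' v hv
  obtain ⟨n, hn, rfl⟩ := (Part.mem_map_iff h).1 hv
  rw [run_app]
  exact Eval.un (N := nodeCfg) (c := ⟨d'', _, .fn h, .push ca .nil⟩) rfl (ha _ _ he' n hn)

theorem good_real (X : Set Real2) (d : ℕ) (r : Stack) (l : ℕ) (hl : l < d) :
    Good X one d r (bit (r (d - 1 - l))) (.real l) := by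
  intro d' r' he a ca ha d'' r'' he' v hv
  obtain ⟨n, hn, rfl⟩ := (Part.mem_map_iff _).1 hv
  rw [run_app]
  have h1 := Eval.look (N := nodeCfg) (c := ⟨d'', _, .real l, .push ca .nil⟩)
    (i := d'' - 1 - l) rfl (ha _ _ he' n hn)
  have h2 := (he.trans he').2 l hl
  rw [h2] at h1
  exact h1

/-- Total functionals of type one are evaluated. -/
theorem Good.values {X : Set Real2} {d : ℕ} {r : Stack} {g : D one} {c : Clo one}
    (hg : Good X one d r g c) {f : ℕ → ℕ} (hf : HasValues g f) (n : ℕ) :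
    Run X d r c (.push (.num n) .nil) (f n) := by
  rw [← run_app]
  refine hg d r (Ext.refl _ _) _ _ (good_num X d r n) d r (Ext.refl _ _) (f n) ?_
  rw [hf n]
  exact Part.mem_some _

theorem good_ex (X : Set Real2) (d : ℕ) (r : Stack) : Good X two d r ex2 .ex := by
  intro d' r' he a ca ha d'' r'' he' v hv
  obtain ⟨f, hf, rfl⟩ := mem_ofRel.1 hv
  rw [run_app]
  exact Eval.ex (N := nodeCfg) (c := ⟨d'', _, .ex, .push ca .nil⟩) f rfl
    (fun n => (ha.mono he').values hf n)

theorem good_orc (X : Set Real2) (d : ℕ) (r : Stack) : Good X two d r (chi X) .orc := by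
  intro d' r' he a ca ha d'' r'' he' v hv
  obtain ⟨f, hf, rfl⟩ := mem_ofRel.1 hv
  rw [run_app]
  exact Eval.orc (N := nodeCfg) (c := ⟨d'', _, .orc, .push ca .nil⟩) f rfl
    (fun n => (ha.mono he').values hf n)

theorem good_om (X : Set Real2) (d : ℕ) (r : Stack) : Good X three d r omegaB .om := by
  classical
  intro d' r' he a ca ha d'' r'' he' v hv
  obtain ⟨Y, hY, hYa, rfl⟩ := mem_emptinessOn.1 hv
  rw [run_app]
  refine Eval.om (N := nodeCfg) (c := ⟨d'', _, .om, .push ca .nil⟩) Y rfl hY fun y => ?_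
  have h1 : Ext d'' r'' (d'' + 1) (push y r'') := Ext.push _ _ _
  have h2 : Good X one (d'' + 1) (push y r'') (bit y) (.real d'') := by
    have := good_real X (d'' + 1) (push y r'') d'' (Nat.lt_succ_self _)
    have h3 : d'' + 1 - 1 - d'' = 0 := by omega
    rw [h3] at this
    exact this
  have h4 := ha _ _ (he'.trans h1) _ _ h2 _ _ (Ext.refl _ _) (if y ∈ Y then 1 else 0) (by
    have := hYa y
    rw [this]
    exact Part.mem_some _)
  rw [run_app] at h4
  exact h4

theorem good_cst (X : Set Real2) (d : ℕ) (r : Stack) {σ : Ty} (k : Cst σ) :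
    Good X σ d r k.den (.cst k) := by
  cases k with
  | zero =>
    intro d' r' _ v hv
    rw [Part.mem_some_iff.1 hv]
    exact Eval.leaf rfl
  | succ =>
    intro d' r' _ a ca ha d'' r'' he' v hv
    obtain ⟨n, hn, rfl⟩ := (Part.mem_map_iff _).1 hv
    rw [run_app]
    exact Eval.un (N := nodeCfg) (c := ⟨d'', _, .cst .succ, .push ca .nil⟩) rfl
      (ha _ _ he' n hn)
  | pred =>
    intro d' r' _ a ca ha d'' r'' he' v hv
    obtain ⟨n, hn, rfl⟩ := (Part.mem_map_iff _).1 hv
    rw [run_app]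
    exact Eval.un (N := nodeCfg) (c := ⟨d'', _, .cst .pred, .push ca .nil⟩) rfl
      (ha _ _ he' n hn)
  | cases σ =>
    intro d₁ r₁ _ a ca ha d₂ r₂ he₂ b cb hb d₃ r₃ he₃ b' cb' hb'
    change Part ℕ at a
    show Good X σ d₃ r₃ (caseD a b b') _
    unfold caseD
    by_cases h0 : 0 ∈ a
    · rw [if_pos h0]
      refine good_sim (fun d' r' he' s v h => ?_) (hb.mono he₃)
      rw [run_app, run_app, run_app]
      exact Eval.branchZero (N := nodeCfg)
        (c := ⟨d', _, .cst (.cases σ), .push ca (.push cb (.push cb' s))⟩) rfl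
        (ha d' r' ((he₂.trans he₃).trans he') 0 h0) h
    · rw [if_neg h0]
      by_cases h1 : ∃ m, m ∈ a
      · rw [if_pos h1]
        obtain ⟨m, hm⟩ := h1
        obtain ⟨k, rfl⟩ : ∃ k, m = k + 1 := by
          cases m with
          | zero => exact absurd hm h0
          | succ k => exact ⟨k, rfl⟩
        refine good_sim (fun d' r' he' s v h => ?_) hb'
        rw [run_app, run_app, run_app]
        exact Eval.branchSucc (N := nodeCfg)
          (c := ⟨d', _, .cst (.cases σ), .push ca (.push cb (.push cb' s))⟩) rfl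
          (ha d' r' ((he₂.trans he₃).trans he') (k + 1) hm) h
      · rw [if_neg h1]
        exact good_bot _
  | fix σ =>
    intro d' r' _ f cf hf
    show Good X σ d' r' (lfp f) _
    refine lfp_mem f {x | Good X σ d' r' x (.app (.cst (.fix σ)) cf)} (fun y hy => ?_)
      (fun A hA hch u hu => good_sup hch hu fun x hx => hA hx)
    refine good_sim (fun d'' r'' he' s v h => ?_) (hf d' r' (Ext.refl _ _) y _ hy)
    rw [run_app] at h
    rw [run_app]
    exact (run_un rfl).2 h

/-- The fundamental property: every term is related to its closure. -/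
theorem good_tm {X : Set Real2} : ∀ {Γ : List Ty} {σ : Ty} (t : Tm Γ σ) (d : ℕ) (r : Stack)
    (e : Env Γ) (ce : CEnv Γ), (∀ τ x, Good X τ d r (e τ x) (ce τ x)) →
    Good X σ d r (t.den e) (.tm t ce) := by
  intro Γ σ t
  induction t with
  | var x =>
    intro d r e ce he
    exact good_sim (fun d' r' _ s v h => (run_un rfl).2 h) (he _ x)
  | cst k =>
    intro d r e ce he
    exact good_sim (fun d' r' _ s v h => (run_un rfl).2 h) (good_cst X d r k)
  | app t u iht ihu =>
    intro d r e ce he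
    refine good_sim (fun d' r' _ s v h => ?_)
      (iht d r e ce he d r (Ext.refl _ _) _ _ (ihu d r e ce he))
    rw [run_app] at h
    exact (run_un rfl).2 h
  | lam t iht =>
    intro d r e ce he d' r' he' a ca ha
    refine good_sim (fun d'' r'' he'' s v h => ?_)
      (iht d' r' (Env.cons a e) (CEnv.cons ca ce) ?_)
    · rw [run_app]
      exact (run_un rfl).2 h
    · intro τ x
      cases x with
      | zero => exact ha
      | succ x => exact (he τ x).mono he'

end Pool.Agent.Helper73.Omega
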