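import Mathlib

/-!
# Complete covers of Borel sets and threads

A notion of largeness of Borel sets which is stable under countable Borel covers and
under passing to successors admits infinite threads.
-/

namespace Pool.Agent.Helper73.Omega

open Set Topology Filter TopologicalSpace

/-- A system of countable Borel covers of `P` such that every sequence of points of `P`
which is eventually in one member of each cover converges to a point of `P`. -/
def IsCC {S : Type*} [TopologicalSpace S] [MeasurableSpace S] (P : Set S)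
    (D : ℕ → ℕ → Set S) : Prop :=
  (∀ i j, MeasurableSet (D i j)) ∧ (∀ i, P ⊆ ⋃ j, D i j) ∧
    ∀ (J : ℕ → ℕ) (u : ℕ → S), (∀ k, u k ∈ P) → (∀ i, ∀ᶠ k in atTop, u k ∈ D i (J i)) →
      ∃ x ∈ P, Tendsto u atTop (𝓝 x)

theorem exists_isCC {S : Type*} [t : TopologicalSpace S] [PolishSpace S] [m : MeasurableSpace S]
    [b : BorelSpace S] {P : Set S} (hP : MeasurableSet P) : ∃ D : ℕ → ℕ → Set S, IsCC P D := by
  rcases isEmpty_or_nonempty S with hS | hS
  · exact ⟨fun _ _ => univ, fun _ _ => MeasurableSet.univ, fun _ => by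
      intro x; exact (hS.false x).elim, fun _ u => (hS.false (u 0)).elim⟩
  obtain ⟨t', hle, hpol, hcl, -⟩ := hP.isClopenable
  have hborel : @borel S t' = @borel S t := MeasureTheory.borel_eq_borel_of_le hpol ‹_› hle
  have key : ∃ D : ℕ → ℕ → Set S, (∀ i j, @MeasurableSet S (@borel S t') (D i j)) ∧
      (∀ i, P ⊆ ⋃ j, D i j) ∧
      ∀ (J : ℕ → ℕ) (u : ℕ → S), (∀ k, u k ∈ P) → (∀ i, ∀ᶠ k in atTop, u k ∈ D i (J i)) →
        ∃ x ∈ P, Tendsto u atTop (@nhds S t' x) := by
    let := t'
    let := @upgradeIsCompletelyMetrizable S t' (by infer_instance)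
    let : MeasurableSpace S := borel S
    have : BorelSpace S := ⟨rfl⟩
    refine ⟨fun i j => Metric.ball (denseSeq S j) (1 / 2 ^ i), fun i j => ?_, fun i => ?_, ?_⟩
    · exact Metric.isOpen_ball.measurableSet
    · intro x _
      have hpos : (0 : ℝ) < 1 / 2 ^ i := by positivity
      obtain ⟨y, hj, j, rfl⟩ := Metric.dense_iff.1 (denseRange_denseSeq S) x _ hpos
      rw [mem_iUnion]
      exact ⟨j, by rw [Metric.mem_ball]; rw [Metric.mem_ball'] at hj; exact hj⟩
    · intro J u hu hJ
      have hc : CauchySeq u := by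
        rw [Metric.cauchySeq_iff]
        intro ε hε
        obtain ⟨i, hi⟩ := exists_pow_lt_of_lt_one (half_pos hε) (by norm_num : (1 / 2 : ℝ) < 1)
        obtain ⟨n, hn⟩ := eventually_atTop.1 (hJ i)
        refine ⟨n, fun a ha c hc => ?_⟩
        have h1 := hn a ha
        have h2 := hn c hc
        rw [Metric.mem_ball] at h1 h2
        have h3 : (1 : ℝ) / 2 ^ i = (1 / 2) ^ i := by rw [one_div_pow]
        rw [h3] at h1 h2
        calc dist (u a) (u c) ≤ dist (u a) (denseSeq S (J i)) + dist (u c) (denseSeq S (J i)) :=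
              dist_triangle_right _ _ _
          _ < ε := by linarith
      obtain ⟨x, hx⟩ := cauchySeq_tendsto_of_complete hc
      exact ⟨x, hcl.mem_of_tendsto hx (Eventually.of_forall hu), hx⟩
  obtain ⟨D, h1, h2, h3⟩ := key
  refine ⟨D, fun i j => ?_, h2, fun J u hu hJ => ?_⟩
  · have := h1 i j
    rw [hborel] at this
    rw [b.measurable_eq]
    exact this
  · obtain ⟨x, hx, hx'⟩ := h3 J u hu hJ
    exact ⟨x, hx, hx'.mono_right (nhds_mono hle)⟩

section Thread

variable {A : Type*} (S : A → Type*) [∀ a, TopologicalSpace (S a)] [∀ a, T2Space (S a)]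
  [∀ a, PolishSpace (S a)] [∀ a, MeasurableSpace (S a)] [∀ a, BorelSpace (S a)]

/-- The data carried along when a thread is built. -/
structure St where
  /-- the index of the space -/
  a : A
  /-- the current large set -/
  P : Set (S a)
  /-- the covers, pulled back from the earlier stages -/
  D : ℕ → ℕ → ℕ → Set (S a)

/-- The projections of the points `u k` to the earlier stages. -/
def yaux (a : ℕ → A) (f : ∀ k, S (a (k + 1)) → S (a k)) (u : ∀ k, S (a k)) (k l : ℕ) :
    S (a l) :=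
  if h : l < k then f l (yaux a f u k (l + 1)) else u l
termination_by k - l

end Thread

theorem exists_thread {A : Type*} {S : A → Type*} [∀ a, TopologicalSpace (S a)]
    [∀ a, PolishSpace (S a)] [∀ a, MeasurableSpace (S a)] [∀ a, BorelSpace (S a)]
    (Big : ∀ a, Set (S a) → Prop) (R : ∀ a' a, S a' → S a → Prop)
    (h1 : ∀ a P, Big a P → MeasurableSet P ∧ P.Nonempty)
    (h2 : ∀ a P (E : ℕ → Set (S a)), Big a P → (∀ j, MeasurableSet (E j)) → P ⊆ ⋃ j, E j →
      ∃ j, Big a (P ∩ E j))
    (h3 : ∀ a P, Big a P → ∃ (a' : A) (P' : Set (S a')) (f : S a' → S a), Big a' P' ∧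
      Continuous f ∧ ∀ p ∈ P', f p ∈ P ∧ R a' a p (f p))
    (a₀ : A) (P₀ : Set (S a₀)) (h0 : Big a₀ P₀) :
    ∃ (a : ℕ → A) (P : ∀ k, Set (S (a k))) (w : ∀ k, S (a k)),
      (∀ k, Big (a k) (P k) ∧ w k ∈ P k) ∧ ∀ k, R (a (k + 1)) (a k) (w (k + 1)) (w k) := by
  classical
  let Inv : St S → Prop := fun s => Big s.a s.P ∧
    ∀ l i, (∀ j, MeasurableSet (s.D l i j)) ∧ s.P ⊆ ⋃ j, s.D l i j
  let Step : ℕ → St S → St S → Prop := fun k s s' =>
    ∃ (f : S s'.a → S s.a) (j : ℕ), Continuous f ∧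
      (∀ p ∈ s'.P, f p ∈ s.P ∧ R s'.a s.a p (f p) ∧
        f p ∈ s.D (Nat.unpair k).1 (Nat.unpair k).2 j) ∧
      (∀ l, l ≠ k + 1 → ∀ i j, s'.D l i j = f ⁻¹' (s.D l i j)) ∧
      IsCC s'.P (s'.D (k + 1))
  have hstep : ∀ k s, Inv s → ∃ s', Inv s' ∧ Step k s s' := by
    rintro k s ⟨hB, hD⟩
    obtain ⟨hm, hc⟩ := hD (Nat.unpair k).1 (Nat.unpair k).2
    obtain ⟨j, hj⟩ := h2 s.a s.P _ hB hm hc
    obtain ⟨a', P', f, hB', hf, hP'⟩ := h3 _ _ hj
    obtain ⟨E, hE⟩ := exists_isCC (h1 _ _ hB').1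
    refine ⟨⟨a', P', fun l i j => if l = k + 1 then E i j else f ⁻¹' (s.D l i j)⟩,
      ⟨hB', fun l i => ?_⟩, f, j, hf, fun p hp => ?_, fun l hl i j => ?_, ?_⟩
    · by_cases hl : l = k + 1
      · simp only [hl, if_true]
        exact ⟨hE.1 i, hE.2.1 i⟩
      · simp only [hl, if_false]
        refine ⟨fun j => hf.measurable ((hD l i).1 j), fun p hp => ?_⟩
        have := (hD l i).2 (hP' p hp).1.1
        simpa using this
    · exact ⟨(hP' p hp).1.1, (hP' p hp).2, (hP' p hp).1.2⟩
    · simp [hl]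
    · simpa using hE
  obtain ⟨E₀, hE₀⟩ := exists_isCC (h1 _ _ h0).1
  let s₀ : St S := ⟨a₀, P₀, fun l i j => if l = 0 then E₀ i j else univ⟩
  have hs₀ : Inv s₀ := by
    refine ⟨h0, fun l i => ?_⟩
    by_cases hl : l = 0
    · simp only [s₀, hl, if_true]
      exact ⟨hE₀.1 i, hE₀.2.1 i⟩
    · simp only [s₀, hl, if_false]
      exact ⟨fun _ => MeasurableSet.univ, fun p _ => by simp⟩
  let nxt : ℕ → {s // Inv s} → {s // Inv s} := fun k s =>
    ⟨(hstep k s.1 s.2).choose, (hstep k s.1 s.2).choose_spec.1⟩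
  let seq : ℕ → {s // Inv s} := fun k => Nat.rec ⟨s₀, hs₀⟩ nxt k
  have hseq : ∀ k, Step k (seq k).1 (seq (k + 1)).1 := fun k =>
    (hstep k (seq k).1 (seq k).2).choose_spec.2
  let s : ℕ → St S := fun k => (seq k).1
  have hs : ∀ k, Inv (s k) := fun k => (seq k).2
  choose f j hf hP hD hCC using hseq
  have hCC' : ∀ l, IsCC (s l).P ((s l).D l) := by
    intro l
    cases l with
    | zero => exact hE₀
    | succ l => exact hCC l
  choose u hu using fun k => (h1 _ _ (hs k).1).2
  -- the projections of `u k` to the earlier stages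
  obtain ⟨y, hy1, hy2⟩ : ∃ y : ∀ _ l : ℕ, S (s l).a, (∀ k l, k ≤ l → y k l = u l) ∧
      ∀ k l, l < k → y k l = f l (y k (l + 1)) := by
    refine ⟨fun k l => yaux S (fun k => (s k).a) f u k l, fun k l hkl => ?_, fun k l hkl => ?_⟩
    · show yaux S (fun k => (s k).a) f u k l = u l
      unfold yaux
      exact dif_neg (by omega)
    · show yaux S (fun k => (s k).a) f u k l = f l (yaux S (fun k => (s k).a) f u k (l + 1))
      conv_lhs => unfold yaux
      exact dif_pos hkl
  have hyP : ∀ k d m, m + d = k → y k m ∈ (s m).P := by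
    intro k d
    induction d with
    | zero =>
      intro m hm
      rw [hy1 k m (by omega)]
      exact hu m
    | succ d ih =>
      intro m hm
      rw [hy2 k m (by omega)]
      exact (hP m _ (ih (m + 1) (by omega))).1
  have hyP' : ∀ k m, y k m ∈ (s m).P := by
    intro k m
    by_cases h : m ≤ k
    · exact hyP k (k - m) m (by omega)
    · rw [hy1 k m (by omega)]
      exact hu m
  have hyD : ∀ k l i j' m, l ≤ m → m ≤ k → (y k m ∈ (s m).D l i j' ↔ y k l ∈ (s l).D l i j') := by
    intro k l i j' m hlm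
    induction m, hlm using Nat.le_induction with
    | base => intro _; rfl
    | succ m hlm ih =>
      intro hmk
      rw [← ih (by omega), hy2 k m (by omega)]
      have := hD m l (by omega) i j'
      show _ ∈ (s (m + 1)).D l i j' ↔ _
      have h' : (s (m + 1)).D l i j' = f m ⁻¹' (s m).D l i j' := this
      rw [h', mem_preimage]
  have hconv : ∀ l, ∃ x ∈ (s l).P, Tendsto (fun k => y k l) atTop (𝓝 x) := by
    intro l
    refine (hCC' l).2.2 (fun i => j (Nat.pair l i)) (fun k => y k l) (fun k => hyP' k l) ?_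
    intro i
    rw [eventually_atTop]
    refine ⟨Nat.pair l i + 1, fun k hk => ?_⟩
    have hle : l ≤ Nat.pair l i := Nat.left_le_pair l i
    have h4 := (hP (Nat.pair l i) _ (hyP' k (Nat.pair l i + 1))).2.2
    rw [Nat.unpair_pair, ← hy2 k _ (by omega)] at h4
    exact (hyD k l i _ _ hle (by omega)).1 h4
  choose w hw hw' using hconv
  refine ⟨fun k => (s k).a, fun k => (s k).P, w, fun k => ⟨(hs k).1, hw k⟩, fun k => ?_⟩
  have h5 : f k (w (k + 1)) = w k := by
    have h6 : Tendsto (fun n => f k (y n (k + 1))) atTop (𝓝 (f k (w (k + 1)))) :=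
      ((hf k).tendsto _).comp (hw' (k + 1))
    have h7 : Tendsto (fun n => f k (y n (k + 1))) atTop (𝓝 (w k)) := by
      refine (hw' k).congr' ?_
      rw [EventuallyEq, eventually_atTop]
      exact ⟨k + 1, fun n hn => hy2 n k (by omega)⟩
    exact tendsto_nhds_unique h6 h7
  have h8 := (hP k _ (hw (k + 1))).2.1
  rw [h5] at h8
  exact h8

end Pool.Agent.Helper73.Omega
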