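import Pool.Agent.Helper73.OmegaMachine
import Pool.Agent.Helper73.OmegaThread

/-!
# Borel measurability of evaluation

On a Borel set of points at which the evaluation is defined for a Borel family of oracle
sets, the value is a Borel function.
-/

namespace Pool.Agent.Helper73.Omega

open Set Topology Filter TopologicalSpace

theorem polish_of_compact (X : Type*) [TopologicalSpace X] [CompactSpace X] [T2Space X]
    [SecondCountableTopology X] : PolishSpace X := by
  let := metrizableSpaceMetric X
  infer_instance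

instance instPolishReal2 : PolishSpace Real2 := polish_of_compact _
instance instPolishStack : PolishSpace Stack := polish_of_compact _

theorem continuous_pop : Continuous pop := by
  unfold pop
  fun_prop

theorem continuous_push : Continuous (fun p : Real2 × Stack => push p.1 p.2) := by
  refine continuous_pi fun n => ?_
  cases n with
  | zero => exact continuous_fst
  | succ n => exact (continuous_apply n).comp continuous_snd

theorem measurable_push {X : Type*} [MeasurableSpace X] {f : X → Real2} {g : X → Stack}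
    (hf : Measurable f) (hg : Measurable g) : Measurable (fun x => push (f x) (g x)) :=
  continuous_push.measurable.comp (hf.prodMk hg)

variable {C : Type} {N : C → Node C}

/-- Largeness for the proof of Borel measurability. -/
def BadBorel {T : Type} [MeasurableSpace T] (N : C → Node C) (X : T → Set Real2) (c : C)
    (P : Set (T × Stack)) : Prop :=
  MeasurableSet P ∧ (∀ p ∈ P, Def N (X p.1) c p.2) ∧
    ∃ v, ¬ MeasurableSet {p | p ∈ P ∧ Eval N (X p.1) c p.2 v}

theorem not_badBorel {T : Type} [MeasurableSpace T] {X : T → Set Real2} {c : C}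
    {P : Set (T × Stack)} (hP : MeasurableSet P) (hd : ∀ p ∈ P, Def N (X p.1) c p.2)
    (h : ¬ BadBorel N X c P) (v : ℕ) : MeasurableSet {p | p ∈ P ∧ Eval N (X p.1) c p.2 v} := by
  by_contra h'
  exact h ⟨hP, hd, v, h'⟩

/-- A successor step. -/
def SuccBorel {T : Type} [TopologicalSpace T] [MeasurableSpace T] (N : C → Node C)
    (X : T → Set Real2) (c : C) (P : Set (T × Stack)) : Prop :=
  ∃ (c' : C) (P' : Set (T × Stack)) (f : T × Stack → T × Stack), BadBorel N X c' P' ∧
    Continuous f ∧ ∀ p ∈ P', f p ∈ P ∧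
      ((f p).1 = p.1 ∧ Sub N (X (f p).1) (c', p.2) (c, (f p).2))

theorem succBorel_id {T : Type} [TopologicalSpace T] [MeasurableSpace T] {X : T → Set Real2}
    {c c' : C} {P P' : Set (T × Stack)} (hb : BadBorel N X c' P') (hsub : P' ⊆ P)
    (h : ∀ p ∈ P', Sub N (X p.1) (c', p.2) (c, p.2)) : SuccBorel N X c P :=
  ⟨c', P', id, hb, continuous_id, fun p hp => ⟨hsub hp, rfl, h p hp⟩⟩

theorem badBorel_succ {T : Type} [TopologicalSpace T] [PolishSpace T] [MeasurableSpace T]
    [BorelSpace T] {X : T → Set Real2} (hX : MeasurableSet {p : T × Real2 | p.2 ∈ X p.1})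
    {c : C} {P : Set (T × Stack)} (hb : BadBorel N X c P) : SuccBorel N X c P := by
  classical
  obtain ⟨hP, hd, v, hv⟩ := hb
  by_contra hcon
  cases hc : N c with
  | leaf n =>
    refine hv ?_
    by_cases h : v = n
    · have : {p | p ∈ P ∧ Eval N (X p.1) c p.2 v} = P := by
        ext p
        exact ⟨fun h => h.1, fun h' => ⟨h', h ▸ Eval.leaf hc⟩⟩
      rwa [this]
    · have : {p | p ∈ P ∧ Eval N (X p.1) c p.2 v} = ∅ := by
        ext p
        simp only [Set.mem_ofPred_eq, mem_empty_iff_false, iff_false, not_and]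
        exact fun _ h' => h (h'.inv_leaf hc)
      rw [this]
      exact MeasurableSet.empty
  | un h c' =>
    have hdc' : ∀ p ∈ P, Def N (X p.1) c' p.2 := fun p hp => (hd p hp).sub (Sub.un hc)
    have hm := not_badBorel hP hdc' (fun hb => hcon (succBorel_id hb subset_rfl
      fun p _ => Sub.un hc))
    refine hv ?_
    have : {p | p ∈ P ∧ Eval N (X p.1) c p.2 v} =
        ⋃ m : ℕ, ⋃ _ : h m = v, {p | p ∈ P ∧ Eval N (X p.1) c' p.2 m} := by
      ext p
      simp only [Set.mem_ofPred_eq, mem_iUnion]
      constructor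
      · rintro ⟨hp, he⟩
        obtain ⟨m, hm, hv⟩ := he.inv_un hc
        exact ⟨m, hv.symm, hp, hm⟩
      · rintro ⟨m, hm, hp, he⟩
        exact ⟨hp, hm ▸ Eval.un hc he⟩
    rw [this]
    exact MeasurableSet.iUnion fun m => MeasurableSet.iUnion fun _ => hm m
  | look i c' =>
    have hdc' : ∀ p ∈ P, Def N (X p.1) c' p.2 := fun p hp => (hd p hp).sub (Sub.look hc)
    have hm := not_badBorel hP hdc' (fun hb => hcon (succBorel_id hb subset_rfl
      fun p _ => Sub.look hc))
    refine hv ?_
    have : {p | p ∈ P ∧ Eval N (X p.1) c p.2 v} =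
        ⋃ m : ℕ, ({p | p ∈ P ∧ Eval N (X p.1) c' p.2 m} ∩ {p | (p.2 i m).toNat = v}) := by
      ext p
      simp only [Set.mem_ofPred_eq, mem_iUnion, mem_inter_iff]
      constructor
      · rintro ⟨hp, he⟩
        obtain ⟨m, hm, hv⟩ := he.inv_look hc
        exact ⟨m, ⟨hp, hm⟩, hv.symm⟩
      · rintro ⟨m, ⟨hp, he⟩, hm⟩
        exact ⟨hp, hm ▸ Eval.look hc he⟩
    rw [this]
    refine MeasurableSet.iUnion fun m => (hm m).inter ?_
    have h1 : Measurable (fun p : T × Stack => (p.2 i m).toNat) :=
      (measurable_of_countable Bool.toNat).comp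
        ((measurable_pi_apply m).comp ((measurable_pi_apply i).comp measurable_snd))
    exact h1 (measurableSet_singleton v)
  | branch a c₁ c₂ =>
    have hda : ∀ p ∈ P, Def N (X p.1) a p.2 := fun p hp => (hd p hp).sub (Sub.branchArg hc)
    have hma := not_badBorel hP hda (fun hb => hcon (succBorel_id hb subset_rfl
      fun p _ => Sub.branchArg hc))
    have hm1 := not_badBorel (hma 0)
      (fun p hp => (hd p hp.1).sub (Sub.branchZero hc hp.2))
      (fun hb => hcon (succBorel_id hb (fun p hp => hp.1) fun p hp => Sub.branchZero hc hp.2))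
    have hm2 := fun m => not_badBorel (hma (m + 1))
      (fun p hp => (hd p hp.1).sub (Sub.branchSucc hc hp.2))
      (fun hb => hcon (succBorel_id hb (fun p hp => hp.1) fun p hp => Sub.branchSucc hc hp.2))
    refine hv ?_
    have : {p | p ∈ P ∧ Eval N (X p.1) c p.2 v} =
        {p | p ∈ {p | p ∈ P ∧ Eval N (X p.1) a p.2 0} ∧ Eval N (X p.1) c₁ p.2 v} ∪
        ⋃ m : ℕ, {p | p ∈ {p | p ∈ P ∧ Eval N (X p.1) a p.2 (m + 1)} ∧
          Eval N (X p.1) c₂ p.2 v} := by
      ext p
      simp only [Set.mem_ofPred_eq, mem_iUnion, mem_union]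
      constructor
      · rintro ⟨hp, he⟩
        rcases he.inv_branch hc with ⟨h1, h2⟩ | ⟨m, h1, h2⟩
        · exact Or.inl ⟨⟨hp, h1⟩, h2⟩
        · exact Or.inr ⟨m, ⟨hp, h1⟩, h2⟩
      · rintro (⟨⟨hp, h1⟩, h2⟩ | ⟨m, ⟨hp, h1⟩, h2⟩)
        · exact ⟨hp, Eval.branchZero hc h1 h2⟩
        · exact ⟨hp, Eval.branchSucc hc h1 h2⟩
    rw [this]
    exact (hm1 v).union (MeasurableSet.iUnion fun m => hm2 m v)
  | ex cs =>
    have hdn : ∀ n, ∀ p ∈ P, Def N (X p.1) (cs n) p.2 :=
      fun n p hp => (hd p hp).sub (Sub.ex n hc)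
    have hm := fun n => not_badBorel hP (hdn n) (fun hb => hcon (succBorel_id hb subset_rfl
      fun p _ => Sub.ex n hc))
    refine hv ?_
    have h0 : MeasurableSet (⋃ n : ℕ, {p | p ∈ P ∧ Eval N (X p.1) (cs n) p.2 0}) :=
      MeasurableSet.iUnion fun n => hm n 0
    have : {p | p ∈ P ∧ Eval N (X p.1) c p.2 v} =
        if v = 0 then ⋃ n : ℕ, {p | p ∈ P ∧ Eval N (X p.1) (cs n) p.2 0}
        else if v = 1 then P \ ⋃ n : ℕ, {p | p ∈ P ∧ Eval N (X p.1) (cs n) p.2 0} else ∅ := by
      ext p
      have hcases : p ∈ P → ∃ f : ℕ → ℕ, (∀ n, Eval N (X p.1) (cs n) p.2 (f n)) ∧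
          Eval N (X p.1) c p.2 (if ∃ n, f n = 0 then 0 else 1) := by
        intro hp
        obtain ⟨w, hw⟩ := hd p hp
        obtain ⟨f, h1, h2⟩ := hw.inv_ex hc
        exact ⟨f, h1, h2 ▸ hw⟩
      by_cases hp : p ∈ P
      · obtain ⟨f, h1, h2⟩ := hcases hp
        have h3 : (∃ n, f n = 0) ↔ ∃ n, Eval N (X p.1) (cs n) p.2 0 :=
          ⟨fun ⟨n, hn⟩ => ⟨n, hn ▸ h1 n⟩, fun ⟨n, hn⟩ => ⟨n, (h1 n).det hn⟩⟩
        have h4 : Eval N (X p.1) c p.2 v ↔ v = if ∃ n, f n = 0 then 0 else 1 :=
          ⟨fun h => h.det h2, fun h => h ▸ h2⟩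
        by_cases h5 : ∃ n, f n = 0
        · have h6 := h3.1 h5
          simp only [Set.mem_ofPred_eq, hp, true_and, h4, h5, if_true]
          split_ifs with h7 h8
          · simp [h7, h6, hp]
          · simp [h7, h6, hp]
          · simp [h7]
        · have h6 := fun h => h5 (h3.2 h)
          simp only [Set.mem_ofPred_eq, hp, true_and, h4, h5, if_false]
          split_ifs with h7 h8
          · subst h7
            simp only [mem_iUnion, Set.mem_ofPred_eq]
            constructor
            · intro h; omega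
            · rintro ⟨n, _, hn⟩
              exact absurd ⟨n, hn⟩ h6
          · simp only [h8, Set.mem_sdiff, hp, mem_iUnion, Set.mem_ofPred_eq, true_and, true_iff]
            exact h6
          · simp [h8]
      · simp only [Set.mem_ofPred_eq, hp, false_and, false_iff]
        split_ifs with h7 h8 <;> simp [hp]
    rw [this]
    split_ifs with h7 h8
    · exact h0
    · exact hP.diff h0
    · exact MeasurableSet.empty
  | orc cs =>
    have hdn : ∀ n, ∀ p ∈ P, Def N (X p.1) (cs n) p.2 :=
      fun n p hp => (hd p hp).sub (Sub.orc n hc)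
    have hm := fun n => not_badBorel hP (hdn n) (fun hb => hcon (succBorel_id hb subset_rfl
      fun p _ => Sub.orc n hc))
    refine hv ?_
    -- the function consulted
    let g : T × Stack → Real2 := fun p n =>
      if p ∈ {p | p ∈ P ∧ Eval N (X p.1) (cs n) p.2 1} then true else false
    have hg : Measurable g := by
      refine measurable_pi_lambda _ fun n => ?_
      exact Measurable.ite (hm n 1) measurable_const measurable_const
    have hgX : MeasurableSet {p : T × Stack | g p ∈ X p.1} :=
      (measurable_fst.prodMk hg : Measurable fun p : T × Stack => (p.1, g p)) hX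
    have : {p | p ∈ P ∧ Eval N (X p.1) c p.2 v} =
        if v = 1 then P ∩ {p : T × Stack | g p ∈ X p.1}
        else if v = 0 then P \ {p : T × Stack | g p ∈ X p.1} else ∅ := by
      ext p
      by_cases hp : p ∈ P
      · obtain ⟨w, hw⟩ := hd p hp
        obtain ⟨f, h1, h2⟩ := hw.inv_orc hc
        rw [h2] at hw
        have hfg : f = g p := by
          funext n
          simp only [g, Set.mem_ofPred_eq, hp, true_and]
          split_ifs with h
          · have := (h1 n).det h
            revert this
            cases f n <;> simp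
          · cases hfn : f n
            · rfl
            · exfalso
              have := h1 n
              rw [hfn] at this
              exact h this
        have h4 : Eval N (X p.1) c p.2 v ↔ v = if f ∈ X p.1 then 1 else 0 :=
          ⟨fun h => h.det hw, fun h => h ▸ hw⟩
        rw [hfg] at h4
        by_cases h5 : g p ∈ X p.1
        · simp only [Set.mem_ofPred_eq, hp, true_and, h4, h5, if_true]
          split_ifs with h7 h8
          · simp [h7, h5, hp]
          · simp [h7, h5, hp]
          · simp [h7]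
        · simp only [Set.mem_ofPred_eq, hp, true_and, h4, h5, if_false]
          split_ifs with h7 h8
          · simp [h7, h5, hp]
          · simp [h8, h5, hp]
          · simp [h8]
      · simp only [Set.mem_ofPred_eq, hp, false_and, false_iff]
        split_ifs with h7 h8 <;> simp [hp]
    rw [this]
    split_ifs with h7 h8
    · exact hP.inter hgX
    · exact hP.diff hgX
    · exact MeasurableSet.empty
  | om c' =>
    let f : T × Stack → T × Stack := fun p => (p.1, pop p.2)
    have hf : Continuous f := continuous_fst.prodMk (continuous_pop.comp continuous_snd)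
    have hP' : MeasurableSet (f ⁻¹' P) := hf.measurable hP
    have hsub : ∀ p : T × Stack, Sub N (X p.1) (c', p.2) (c, pop p.2) := by
      intro p
      have := Sub.om (X := X p.1) (r := pop p.2) (p.2 0) hc
      rwa [push_head_pop] at this
    have hd' : ∀ p ∈ f ⁻¹' P, Def N (X p.1) c' p.2 := fun p hp => (hd (f p) hp).sub (hsub p)
    have hm := not_badBorel hP' hd' (fun hb => hcon ⟨c', f ⁻¹' P, f, hb, hf, fun p hp =>
      ⟨hp, rfl, hsub p⟩⟩)
    refine hv ?_
    have hG := hm 1
    have hinj : InjOn f {p | p ∈ f ⁻¹' P ∧ Eval N (X p.1) c' p.2 1} := by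
      rintro ⟨x, r⟩ ⟨hp, he⟩ ⟨x', r'⟩ ⟨hp', he'⟩ heq
      simp only [f, Prod.mk.injEq] at heq
      obtain ⟨rfl, h2⟩ := heq
      obtain ⟨w, hw⟩ := hd _ hp
      obtain ⟨Y, hY, h3, _⟩ := hw.inv_om hc
      have h4 : r 0 ∈ Y := by
        by_contra h
        have h5 := h3 (r 0)
        rw [if_neg h] at h5
        simp only [f, push_head_pop] at h5
        exact absurd (h5.det he) (by omega)
      have h5 : r' 0 ∈ Y := by
        by_contra h
        have h5 := h3 (r' 0)
        rw [if_neg h] at h5
        simp only [f, h2, push_head_pop] at h5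
        exact absurd (h5.det he') (by omega)
      have h6 : r = r' := by
        rw [← push_head_pop r, ← push_head_pop r', h2, hY h4 h5]
      rw [h6]
    have himg : MeasurableSet (f '' {p | p ∈ f ⁻¹' P ∧ Eval N (X p.1) c' p.2 1}) :=
      hG.image_of_measurable_injOn hf.measurable hinj
    have : {p | p ∈ P ∧ Eval N (X p.1) c p.2 v} =
        if v = 1 then f '' {p | p ∈ f ⁻¹' P ∧ Eval N (X p.1) c' p.2 1}
        else if v = 0 then P \ f '' {p | p ∈ f ⁻¹' P ∧ Eval N (X p.1) c' p.2 1} else ∅ := by
      ext p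
      have himg' : p ∈ P → (p ∈ f '' {p | p ∈ f ⁻¹' P ∧ Eval N (X p.1) c' p.2 1} ↔
          Eval N (X p.1) c p.2 1) := by
        intro hp
        obtain ⟨w, hw⟩ := hd p hp
        obtain ⟨Y, hY, h3, h4⟩ := hw.inv_om hc
        rw [h4] at hw
        constructor
        · rintro ⟨⟨x, r⟩, ⟨hq, he⟩, rfl⟩
          have h5 : r 0 ∈ Y := by
            by_contra h
            have h5 := h3 (r 0)
            rw [if_neg h] at h5
            simp only [f, push_head_pop] at h5
            exact absurd (h5.det he) (by omega)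
          rwa [if_pos ⟨_, h5⟩] at hw
        · intro he
          have h5 : Y.Nonempty := by
            by_contra h
            rw [if_neg h] at hw
            exact absurd (hw.det he) (by omega)
          obtain ⟨y, hy⟩ := h5
          have h6 := h3 y
          rw [if_pos hy] at h6
          exact ⟨(p.1, push y p.2), ⟨hp, h6⟩, rfl⟩
      by_cases hp : p ∈ P
      · obtain ⟨w, hw⟩ := hd p hp
        obtain ⟨Y, hY, h3, h4⟩ := hw.inv_om hc
        have hw01 : w = 0 ∨ w = 1 := by
          rw [h4]
          split_ifs <;> simp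
        have h7 := himg' hp
        split_ifs with h8 h9
        · rw [h7]
          simp [hp, h8]
        · simp only [Set.mem_sdiff, hp, true_and, Set.mem_ofPred_eq, h7, h9]
          constructor
          · intro h10 h11
            exact absurd (h10.det h11) (by omega)
          · intro h10
            rcases hw01 with rfl | rfl
            · exact hw
            · exact absurd hw h10
        · simp only [Set.mem_ofPred_eq, hp, true_and, mem_empty_iff_false, iff_false]
          intro h10
          have := h10.det hw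
          omega
      · have h7 : p ∉ f '' {p | p ∈ f ⁻¹' P ∧ Eval N (X p.1) c' p.2 1} := by
          rintro ⟨q, ⟨hq, _⟩, rfl⟩
          exact hp hq
        split_ifs with h8 h9
        · exact ⟨fun h => absurd h.1 hp, fun h => absurd h h7⟩
        · exact ⟨fun h => absurd h.1 hp, fun h => absurd h.1 hp⟩
        · exact ⟨fun h => absurd h.1 hp, fun h => h.elim⟩
    rw [this]
    split_ifs with h7 h8
    · exact himg
    · exact hP.diff himg
    · exact MeasurableSet.empty

/-- **Borel measurability of evaluation.** -/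
theorem measurable_eval {T : Type} [TopologicalSpace T] [PolishSpace T] [MeasurableSpace T]
    [BorelSpace T] {X : T → Set Real2} (hX : MeasurableSet {p : T × Real2 | p.2 ∈ X p.1})
    {c : C} {P : Set (T × Stack)} (hP : MeasurableSet P)
    (hd : ∀ p ∈ P, Def N (X p.1) c p.2) (v : ℕ) :
    MeasurableSet {p | p ∈ P ∧ Eval N (X p.1) c p.2 v} := by
  by_contra hv
  have hbs : BorelSpace (T × Stack) := inferInstance
  have hps : PolishSpace (T × Stack) := inferInstance
  obtain ⟨a, Q, w, h1, h2⟩ := @exists_thread C (fun _ => T × Stack) (fun _ => inferInstance)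
    (fun _ => hps) (fun _ => inferInstance) (fun _ => hbs)
    (Big := BadBorel N X)
    (R := fun c' c p' p => p.1 = p'.1 ∧ Sub N (X p.1) (c', p'.2) (c, p.2))
    (fun c P h => ⟨h.1, by
      by_contra hne
      rw [not_nonempty_iff_eq_empty] at hne
      obtain ⟨v, hv⟩ := h.2.2
      refine hv ?_
      have : {p | p ∈ P ∧ Eval N (X p.1) c p.2 v} = ∅ := by
        rw [hne]
        ext p
        simp
      rw [this]
      exact MeasurableSet.empty⟩)
    (fun c P E h hE hsub => by
      by_contra hcon
      push Not at hcon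
      obtain ⟨v, hv⟩ := h.2.2
      refine hv ?_
      have : {p | p ∈ P ∧ Eval N (X p.1) c p.2 v} =
          ⋃ j, {p | p ∈ P ∩ E j ∧ Eval N (X p.1) c p.2 v} := by
        ext p
        simp only [Set.mem_ofPred_eq, mem_iUnion, mem_inter_iff]
        constructor
        · rintro ⟨hp, he⟩
          obtain ⟨j, hj⟩ := mem_iUnion.1 (hsub hp)
          exact ⟨j, ⟨hp, hj⟩, he⟩
        · rintro ⟨j, ⟨hp, _⟩, he⟩
          exact ⟨hp, he⟩
      rw [this]
      exact MeasurableSet.iUnion fun j => not_badBorel (h.1.inter (hE j))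
        (fun p hp => h.2.1 p hp.1) (hcon j) v)
    (fun c P h => by
      obtain ⟨c', P', f, h1, h2, h3⟩ := badBorel_succ hX h
      exact ⟨c', P', f, h1, h2, fun p hp => h3 p hp⟩)
    c P ⟨hP, hd, v, hv⟩
  have hconst : ∀ k, (w k).1 = (w 0).1 := by
    intro k
    induction k with
    | zero => rfl
    | succ k ih => rw [← ih]; exact ((h2 k).1).symm
  refine no_descent (N := N) (X := X (w 0).1) (s := fun k => (a k, (w k).2)) ?_ ?_
  · exact (h1 0).1.2.1 _ (h1 0).2
  · intro k
    have := (h2 k).2
    rwa [hconst k] at this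

section Families

variable {T : Type} [TopologicalSpace T] [PolishSpace T] [MeasurableSpace T] [BorelSpace T]

theorem measurable_eval' {X : T → Set Real2} (hX : MeasurableSet {p : T × Real2 | p.2 ∈ X p.1})
    {r : T → Stack} (hr : Measurable r) {c : C} {P : Set T} (hP : MeasurableSet P)
    (hd : ∀ p ∈ P, Def N (X p) c (r p)) (v : ℕ) :
    MeasurableSet {p | p ∈ P ∧ Eval N (X p) c (r p) v} := by
  have h1 : MeasurableSet {q : T × Stack | q.1 ∈ P ∧ q.2 = r q.1} :=
    (measurable_fst hP).inter (measurableSet_eq_fun measurable_snd (hr.comp measurable_fst))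
  have h2 := measurable_eval (N := N) (c := c) hX h1 (fun q hq => by
    rw [hq.2]
    exact hd _ hq.1) v
  have h3 : Measurable (fun p : T => (p, r p)) := measurable_id.prodMk hr
  have h4 := h3 h2
  have : {p | p ∈ P ∧ Eval N (X p) c (r p) v} = (fun p : T => (p, r p)) ⁻¹'
      {p : T × Stack | p ∈ {q : T × Stack | q.1 ∈ P ∧ q.2 = r q.1} ∧ Eval N (X p.1) c p.2 v} := by
    ext p
    simp
  rw [this]
  exact h4

/-- Measurable choice of the unique witness of `om`. -/
theorem exists_measurable_witness {X : T → Set Real2}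
    (hX : MeasurableSet {p : T × Real2 | p.2 ∈ X p.1})
    {r : T → Stack} (hr : Measurable r) {c c' : C} (hc : N c = Node.om c') {P : Set T}
    (hP : MeasurableSet P) (hd : ∀ p ∈ P, Eval N (X p) c (r p) 1) :
    ∃ y : T → Real2, Measurable y ∧ ∀ p ∈ P, Eval N (X p) c' (push (y p) (r p)) 1 ∧
      ∀ y', y' ≠ y p → Eval N (X p) c' (push y' (r p)) 0 := by
  classical
  have hX' : MeasurableSet {p : (T × Real2) × Real2 | p.2 ∈ X p.1.1} :=
    ((measurable_fst.comp measurable_fst).prodMk measurable_snd :
      Measurable fun p : (T × Real2) × Real2 => (p.1.1, p.2)) hX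
  have hG := measurable_eval' (N := N) (T := T × Real2) (X := fun p => X p.1) (c := c')
    (r := fun p => push p.2 (r p.1)) (P := {p | p.1 ∈ P}) hX'
    (measurable_push measurable_snd (hr.comp measurable_fst)) (measurable_fst hP)
    (fun p hp => by
      have h : Def N (X p.1) c (r p.1) := ⟨1, hd _ hp⟩
      exact h.sub (Sub.om p.2 hc)) 1
  set G : Set (T × Real2) := {p | p ∈ {p : T × Real2 | p.1 ∈ P} ∧
    Eval N (X p.1) c' (push p.2 (r p.1)) 1} with hGdef
  have hwit : ∀ p ∈ P, ∃ Y : Set Real2, Y.Subsingleton ∧ Y.Nonempty ∧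
      ∀ y, Eval N (X p) c' (push y (r p)) (if y ∈ Y then 1 else 0) := by
    intro p hp
    obtain ⟨Y, h1, h2, h3⟩ := (hd p hp).inv_om hc
    refine ⟨Y, h1, ?_, h2⟩
    by_contra h
    rw [if_neg h] at h3
    omega
  have hinj : Function.Injective (fun q : G => q.1.1) := by
    rintro ⟨⟨p, y⟩, hp, hy⟩ ⟨⟨p', y'⟩, hp', hy'⟩ heq
    dsimp only at heq
    subst heq
    obtain ⟨Y, h1, _, h2⟩ := hwit p hp
    have h3 : ∀ z, Eval N (X p) c' (push z (r p)) 1 → z ∈ Y := by
      intro z hz
      by_contra h
      have h4 := h2 z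
      rw [if_neg h] at h4
      exact absurd (h4.det hz) (by omega)
    have h5 : y = y' := h1 (h3 y hy) (h3 y' hy')
    subst h5
    rfl
  have hstd : StandardBorelSpace G := hG.standardBorel
  have hemb : MeasurableEmbedding (fun q : G => q.1.1) :=
    (measurable_fst.comp measurable_subtype_coe).measurableEmbedding hinj
  obtain ⟨y, hy, hyG⟩ := hemb.exists_measurable_extend
    (g := fun q : G => q.1.2) (measurable_snd.comp measurable_subtype_coe)
    (fun _ => ⟨fun _ => false⟩)
  refine ⟨y, hy, fun p hp => ?_⟩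
  obtain ⟨Y, h1, ⟨y0, hy0⟩, h2⟩ := hwit p hp
  have h3 := h2 y0
  rw [if_pos hy0] at h3
  have h4 : (p, y0) ∈ G := ⟨hp, h3⟩
  have h5 : y p = y0 := congrFun hyG ⟨(p, y0), h4⟩
  rw [h5]
  refine ⟨h3, fun y' hy' => ?_⟩
  have h6 := h2 y'
  rwa [if_neg (fun h => hy' (h1 h hy0))] at h6

end Families

end Pool.Agent.Helper73.Omega
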