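import Mathlib

/-!
# Facts on Baire category

The theorem of Kuratowski and Ulam for comeagre sets in products, and localisation of
Borel sets to open sets.
-/

namespace Pool.Agent.Helper73.Omega

open Set Topology Filter

section General

variable {X : Type*} [TopologicalSpace X]

theorem residual_meets [BaireSpace X] {P : X → Prop} (h : ∀ᶠ x in residual X, P x) {p : Set X}
    (hp : IsOpen p) (hne : p.Nonempty) : ∃ x ∈ p, P x := by
  have hd : Dense {x | P x} := dense_of_mem_residual h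
  obtain ⟨x, hx, hx'⟩ := hd.inter_open_nonempty p hp hne
  exact ⟨x, hx, hx'⟩

theorem exists_open_of_nonmeagre [MeasurableSpace X] [BorelSpace X]
    {S p : Set X} (hS : MeasurableSet S) (hp : IsOpen p)
    (h : ¬ ∀ᶠ x in residual X, x ∈ p → x ∉ S) :
    ∃ q : Set X, IsOpen q ∧ q.Nonempty ∧ q ⊆ p ∧ ∀ᶠ x in residual X, x ∈ q → x ∈ S := by
  obtain ⟨u, hu, hSu⟩ := (hS.inter hp.measurableSet).residualEq_isOpen
  have h1 : ∀ᶠ x in residual X, (x ∈ S ∩ p ↔ x ∈ u) := Filter.eventuallyEq_set.1 hSu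
  refine ⟨u ∩ p, hu.inter hp, ?_, inter_subset_right, ?_⟩
  · by_contra hne
    rw [not_nonempty_iff_eq_empty] at hne
    refine h (h1.mono fun x hx hxp hxS => ?_)
    have : x ∈ u ∩ p := ⟨hx.1 ⟨hxS, hxp⟩, hxp⟩
    rw [hne] at this
    exact this
  · exact h1.mono fun x hx hxq => (hx.2 hxq.1).1

theorem exists_open_of_iUnion [BaireSpace X] [MeasurableSpace X] [BorelSpace X] {ι : Type*}
    [Countable ι] {S : ι → Set X} {p : Set X} (hS : ∀ i, MeasurableSet (S i)) (hp : IsOpen p)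
    (hne : p.Nonempty) (h : ∀ᶠ x in residual X, x ∈ p → ∃ i, x ∈ S i) :
    ∃ i, ∃ q : Set X, IsOpen q ∧ q.Nonempty ∧ q ⊆ p ∧ ∀ᶠ x in residual X, x ∈ q → x ∈ S i := by
  by_contra hcon
  have h1 : ∀ i, ∀ᶠ x in residual X, x ∈ p → x ∉ S i := by
    intro i
    by_contra h2
    obtain ⟨q, a, b, c, d⟩ := exists_open_of_nonmeagre (hS i) hp h2
    exact hcon ⟨i, q, a, b, c, d⟩
  have h2 : ∀ᶠ x in residual X, ∀ i, x ∈ p → x ∉ S i := eventually_countable_forall.2 h1
  obtain ⟨x, hx, h3, h4⟩ := residual_meets (h.and h2) hp hne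
  obtain ⟨i, hi⟩ := h3 hx
  exact h4 i hx hi

end General

section KU

variable {X Y : Type*} [TopologicalSpace X] [TopologicalSpace Y] [SecondCountableTopology Y]

theorem curry_open_dense {D : Set (X × Y)} (ho : IsOpen D) (hd : Dense D) :
    ∀ᶠ x in residual X, ∀ᶠ y in residual Y, (x, y) ∈ D := by
  have h1 : ∀ V ∈ TopologicalSpace.countableBasis Y,
      ∀ᶠ x in residual X, ∃ y ∈ V, (x, y) ∈ D := by
    intro V hV
    have hVo := TopologicalSpace.isOpen_of_mem_countableBasis hV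
    have hVn := TopologicalSpace.nonempty_of_mem_countableBasis hV
    refine residual_of_dense_open ?_ ?_
    · have : {x | ∃ y ∈ V, (x, y) ∈ D} = Prod.fst '' (D ∩ Prod.snd ⁻¹' V) := by
        ext x
        constructor
        · rintro ⟨y, hy, hxy⟩
          exact ⟨(x, y), ⟨hxy, hy⟩, rfl⟩
        · rintro ⟨⟨x', y⟩, ⟨hxy, hy⟩, rfl⟩
          exact ⟨y, hy, hxy⟩
      show IsOpen {x | ∃ y ∈ V, (x, y) ∈ D}
      rw [this]
      exact isOpenMap_fst _ (ho.inter (hVo.preimage continuous_snd))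
    · rw [dense_iff_inter_open]
      intro U hU hUn
      obtain ⟨⟨x, y⟩, ⟨hx, hy⟩, hxy⟩ :=
        hd.inter_open_nonempty (U ×ˢ V) (hU.prod hVo) (hUn.prod hVn)
      exact ⟨x, hx, y, hy, hxy⟩
  have h2 : ∀ᶠ x in residual X, ∀ V ∈ TopologicalSpace.countableBasis Y,
      ∃ y ∈ V, (x, y) ∈ D :=
    (eventually_countable_ball (TopologicalSpace.countable_countableBasis Y)).2 h1
  refine h2.mono fun x hx => residual_of_dense_open ?_ ?_
  · exact ho.preimage (by fun_prop : Continuous fun y : Y => (x, y))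
  · exact (TopologicalSpace.isBasis_countableBasis Y).dense_iff.2 fun V hV _ => by
      obtain ⟨y, hy, hxy⟩ := hx V hV
      exact ⟨y, hy, hxy⟩

/-- Kuratowski and Ulam: sections of comeagre sets are generically comeagre. -/
theorem KU1 {P : X × Y → Prop} (h : ∀ᶠ p in residual (X × Y), P p) :
    ∀ᶠ x in residual X, ∀ᶠ y in residual Y, P (x, y) := by
  obtain ⟨S, hS1, hS2, hSc, hS⟩ := mem_residual_iff.1 h
  have h1 : ∀ᶠ x in residual X, ∀ D ∈ S, ∀ᶠ y in residual Y, (x, y) ∈ D :=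
    (eventually_countable_ball hSc).2 fun D hD => curry_open_dense (hS1 D hD) (hS2 D hD)
  refine h1.mono fun x hx => ?_
  have h2 : ∀ᶠ y in residual Y, ∀ D ∈ S, (x, y) ∈ D := (eventually_countable_ball hSc).2 hx
  exact h2.mono fun y hy => hS (mem_sInter.2 hy)

theorem KU2 [BaireSpace X] [BaireSpace Y] [MeasurableSpace (X × Y)] [BorelSpace (X × Y)]
    {G : Set (X × Y)} (hG : MeasurableSet G)
    (h : ∀ᶠ x in residual X, ∀ᶠ y in residual Y, (x, y) ∈ G) :
    ∀ᶠ p in residual (X × Y), p ∈ G := by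
  by_contra hcon
  have h1 : ¬ ∀ᶠ p in residual (X × Y), p ∈ (univ : Set (X × Y)) → p ∉ Gᶜ := by
    simpa using hcon
  obtain ⟨q, hq, ⟨⟨x0, y0⟩, hxy⟩, _, h2⟩ := exists_open_of_nonmeagre hG.compl isOpen_univ h1
  obtain ⟨U, V, hU, hV, hx0, hy0, hUV⟩ := isOpen_prod_iff.1 hq x0 y0 hxy
  obtain ⟨x, hx, h3, h4⟩ := residual_meets ((KU1 h2).and h) hU ⟨x0, hx0⟩
  obtain ⟨y, hy, h5, h6⟩ := residual_meets (h3.and h4) hV ⟨y0, hy0⟩
  exact h5 (hUV ⟨hx, hy⟩) h6

end KU

end Pool.Agent.Helper73.Omega
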