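import Pool.Agent.Helper73.OmegaMachine

/-!
# Codes of nonempty closed subsets of Cantor space, and merging

A code is a map `e : List Bool → Option Bool`; at the node `s` it allows both
continuations when `e s = none` and only the continuation `b` when `e s = some b`.
Nodes are stored in reversed order, the most recent value first.
-/

namespace Pool.Agent.Helper73.Omega

open Set Topology Filter

/-- The space of codes of nonempty closed subsets of Cantor space. -/
abbrev Cod : Type := List Bool → Option Bool

instance instTopOptBool : TopologicalSpace (Option Bool) := ⊥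
instance instDiscOptBool : DiscreteTopology (Option Bool) := ⟨rfl⟩
instance instMeasOptBool : MeasurableSpace (Option Bool) := ⊤

/-- The first `n` values of `f`, the last one first. -/
def ini (f : Real2) : ℕ → List Bool
  | 0 => []
  | n + 1 => f n :: ini f n

/-- `Alw e s b`: the code `e` allows to continue the node `s` by `b`. -/
def Alw (e : Cod) (s : List Bool) (b : Bool) : Prop := e s = none ∨ e s = some b

/-- The closed set coded by `e`. -/
def Zset (e : Cod) : Set Real2 := {f | ∀ n, Alw e (ini f n) (f n)}

/-- The tree of the code `e`. -/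
def InT (e : Cod) : List Bool → Prop
  | [] => True
  | b :: s => InT e s ∧ Alw e s b

open Classical in
/-- A code of the union of the two sets coded by `e` and `e'`. -/
noncomputable def mrg (e e' : Cod) : Cod := fun s =>
  if InT e' s then (if InT e s then (if e s = e' s then e s else none) else e' s) else e s

theorem length_ini (f : Real2) (n : ℕ) : (ini f n).length = n := by
  induction n with
  | zero => rfl
  | succ n ih => simp [ini, ih]

theorem inT_ini_iff (e : Cod) (f : Real2) (n : ℕ) :
    InT e (ini f n) ↔ ∀ i < n, Alw e (ini f i) (f i) := by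
  induction n with
  | zero => simp [ini, InT]
  | succ n ih =>
    simp only [ini, InT, ih]
    constructor
    · rintro ⟨h1, h2⟩ i hi
      rcases Nat.lt_succ_iff_lt_or_eq.1 hi with h | rfl
      · exact h1 i h
      · exact h2
    · intro h
      exact ⟨fun i hi => h i (by omega), h n (by omega)⟩

theorem mem_Zset_iff (e : Cod) (f : Real2) : f ∈ Zset e ↔ ∀ n, InT e (ini f n) := by
  constructor
  · intro h n
    rw [inT_ini_iff]
    exact fun i _ => h i
  · intro h n
    exact (h (n + 1)).2

theorem inT_mrg (e e' : Cod) (s : List Bool) : InT (mrg e e') s ↔ InT e s ∨ InT e' s := by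
  induction s with
  | nil => simp [InT]
  | cons b s ih =>
    simp only [InT, ih]
    by_cases h1 : InT e s <;> by_cases h2 : InT e' s
    · simp only [h1, h2, or_self, true_and, Alw, mrg, if_true]
      rcases hs : e s with _ | x <;> rcases hs' : e' s with _ | x'
      · simp
      · simp
      · simp
      · by_cases hx : x = x'
        · subst hx; simp
        · simp only [Option.some.injEq, hx, if_false, true_or, reduceCtorEq, false_or, true_iff]
          cases x <;> cases x' <;> cases b <;> simp_all
    · simp only [h1, h2, or_false, true_and, false_and, Alw, mrg, if_false]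
    · simp only [h1, h2, false_or, true_and, false_and, Alw, mrg, if_false, if_true]
    · simp [h1, h2]

theorem Zset_mrg (e e' : Cod) : Zset (mrg e e') = Zset e ∪ Zset e' := by
  ext f
  simp only [mem_union, mem_Zset_iff, inT_mrg]
  constructor
  · intro h
    by_contra hcon
    push Not at hcon
    obtain ⟨⟨n, hn⟩, ⟨m, hm⟩⟩ := hcon
    have mono : ∀ (d : Cod) (i j : ℕ), i ≤ j → InT d (ini f j) → InT d (ini f i) := by
      intro d i j hij hj
      rw [inT_ini_iff] at hj ⊢
      exact fun k hk => hj k (by omega)
    rcases h (max n m) with h1 | h1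
    · exact hn (mono e n _ (le_max_left _ _) h1)
    · exact hm (mono e' m _ (le_max_right _ _) h1)
  · rintro (h | h) n
    · exact Or.inl (h n)
    · exact Or.inr (h n)

/-- Two codes agree on all nodes of length less than `n`. -/
def AgreeLt (n : ℕ) (e e' : Cod) : Prop := ∀ s : List Bool, s.length < n → e s = e' s

theorem AgreeLt.refl (n : ℕ) (e : Cod) : AgreeLt n e e := fun _ _ => rfl
theorem AgreeLt.symm {n : ℕ} {e e' : Cod} (h : AgreeLt n e e') : AgreeLt n e' e :=
  fun s hs => (h s hs).symm
theorem AgreeLt.trans {n : ℕ} {e e' e'' : Cod} (h : AgreeLt n e e') (h' : AgreeLt n e' e'') :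
    AgreeLt n e e'' := fun s hs => (h s hs).trans (h' s hs)

theorem AgreeLt.inT {n : ℕ} {e e' : Cod} (h : AgreeLt n e e') (s : List Bool)
    (hs : s.length ≤ n) : InT e s ↔ InT e' s := by
  induction s with
  | nil => simp [InT]
  | cons b s ih =>
    simp only [List.length_cons] at hs
    simp only [InT, ih (by omega), Alw, h s (by omega)]

theorem AgreeLt.mrg {n : ℕ} {e₁ e₁' e₂ e₂' : Cod} (h : AgreeLt n e₁ e₁')
    (h' : AgreeLt n e₂ e₂') : AgreeLt n (mrg e₁ e₂) (mrg e₁' e₂') := by
  intro s hs
  have a := h.inT s hs.le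
  have b := h'.inT s hs.le
  unfold Omega.mrg
  rw [h s hs, h' s hs]
  by_cases h1 : InT e₁ s <;> by_cases h2 : InT e₂ s
  · rw [if_pos h2, if_pos h1, if_pos (b.1 h2), if_pos (a.1 h1)]
  · rw [if_neg h2, if_neg (fun h => h2 (b.2 h))]
  · rw [if_pos h2, if_neg h1, if_pos (b.1 h2), if_neg (fun h => h1 (a.2 h))]
  · rw [if_neg h2, if_neg (fun h => h2 (b.2 h))]

/-- Cylinders. -/
def Cyl (n : ℕ) (e : Cod) : Set Cod := {d | AgreeLt n d e}

theorem finite_length_lt (n : ℕ) : {s : List Bool | s.length < n}.Finite := by
  exact List.finite_length_lt Bool n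

theorem isOpen_Cyl (n : ℕ) (e : Cod) : IsOpen (Cyl n e) := by
  have : Cyl n e = Set.pi {s : List Bool | s.length < n} (fun s => {e s}) := by
    ext d
    simp [Cyl, AgreeLt, Set.mem_pi]
  rw [this]
  exact isOpen_set_pi (finite_length_lt n) (fun s _ => isOpen_discrete _)

theorem isClosed_Cyl (n : ℕ) (e : Cod) : IsClosed (Cyl n e) := by
  have : Cyl n e = Set.pi {s : List Bool | s.length < n} (fun s => {e s}) := by
    ext d
    simp [Cyl, AgreeLt, Set.mem_pi]
  rw [this]
  exact isClosed_set_pi (fun s _ => isClosed_discrete _)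

theorem mem_Cyl_self (n : ℕ) (e : Cod) : e ∈ Cyl n e := AgreeLt.refl n e

/-- Cylinders are a neighbourhood base. -/
theorem exists_Cyl_subset {U : Set Cod} (hU : IsOpen U) {e : Cod} (he : e ∈ U) :
    ∃ n, Cyl n e ⊆ U := by
  rw [isOpen_pi_iff] at hU
  obtain ⟨I, u, h1, h2⟩ := hU e he
  obtain ⟨n, hn⟩ : ∃ n, ∀ s ∈ I, s.length < n := by
    refine ⟨(I.sup List.length) + 1, fun s hs => ?_⟩
    exact Nat.lt_succ_of_le (Finset.le_sup (f := List.length) hs)
  refine ⟨n, fun d hd => h2 fun s hs => ?_⟩
  rw [hd s (hn s hs)]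
  exact (h1 s hs).2

theorem Cyl_anti {n m : ℕ} (h : n ≤ m) (e : Cod) : Cyl m e ⊆ Cyl n e :=
  fun _ hd s hs => hd s (by omega)

theorem Cyl_eq_of_mem {n : ℕ} {e d : Cod} (h : d ∈ Cyl n e) : Cyl n d = Cyl n e := by
  ext x
  exact ⟨fun hx => AgreeLt.trans hx h, fun hx => AgreeLt.trans hx (AgreeLt.symm h)⟩

/-- The lifting property of merging. -/
theorem exists_mrg_eq (n : ℕ) (z z' w : Cod) (h : AgreeLt n w (mrg z z')) :
    ∃ d d' : Cod, AgreeLt n d z ∧ AgreeLt n d' z' ∧ mrg d d' = w := by
  classical
  refine ⟨fun s => if s.length < n then z s else w s,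
    fun s => if s.length < n then z' s else w s, ?_, ?_, ?_⟩
  · intro s hs
    simp [hs]
  · intro s hs
    simp [hs]
  · funext s
    by_cases hs : s.length < n
    · rw [h s hs]
      refine AgreeLt.mrg (n := n) ?_ ?_ s hs
      · intro t ht
        simp [ht]
      · intro t ht
        simp [ht]
    · unfold mrg
      simp only [hs, if_false]
      split_ifs <;> rfl

theorem mrg_mem_Cyl {n : ℕ} {e z z' : Cod} (h : z ∈ Cyl n e) (h' : z' ∈ Cyl n e) :
    mrg z z' ∈ Cyl n e := by
  intro s hs
  unfold mrg
  rw [h s hs, h' s hs]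
  split_ifs <;> simp_all

theorem continuous_mrg : Continuous (fun p : Cod × Cod => mrg p.1 p.2) := by
  rw [continuous_iff_continuousAt]
  rintro ⟨z, z'⟩
  rw [ContinuousAt, tendsto_nhds]
  intro U hU hz
  obtain ⟨n, hn⟩ := exists_Cyl_subset hU hz
  have : (Cyl n z) ×ˢ (Cyl n z') ∈ 𝓝 (z, z') :=
    prod_mem_nhds ((isOpen_Cyl n z).mem_nhds (mem_Cyl_self n z))
      ((isOpen_Cyl n z').mem_nhds (mem_Cyl_self n z'))
  refine mem_of_superset this ?_
  rintro ⟨d, d'⟩ ⟨hd, hd'⟩
  exact hn (AgreeLt.mrg hd hd')

theorem isOpenMap_mrg : IsOpenMap (fun p : Cod × Cod => mrg p.1 p.2) := by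
  intro U hU
  rw [isOpen_iff_mem_nhds]
  rintro w ⟨⟨z, z'⟩, hz, rfl⟩
  rw [isOpen_prod_iff] at hU
  obtain ⟨V, V', hV, hV', hz1, hz2, hsub⟩ := hU z z' hz
  obtain ⟨n, hn⟩ := exists_Cyl_subset hV hz1
  obtain ⟨m, hm⟩ := exists_Cyl_subset hV' hz2
  refine mem_of_superset ((isOpen_Cyl (max n m) _).mem_nhds (mem_Cyl_self (max n m) _)) ?_
  intro w hw
  obtain ⟨d, d', h1, h2, h3⟩ := exists_mrg_eq (max n m) z z' w hw
  exact ⟨(d, d'), hsub ⟨hn (Cyl_anti (le_max_left _ _) _ h1), hm (Cyl_anti (le_max_right _ _) _ h2)⟩,
    h3⟩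

theorem Zset_nonempty (e : Cod) : (Zset e).Nonempty := by
  classical
  let st : ℕ → List Bool := fun n => Nat.rec [] (fun _ s => ((e s).getD false) :: s) n
  let f : Real2 := fun n => (e (st n)).getD false
  have hst : ∀ n, ini f n = st n := by
    intro n
    induction n with
    | zero => rfl
    | succ n ih => simp only [ini, ih]; rfl
  refine ⟨f, fun n => ?_⟩
  rw [hst n]
  show e (st n) = none ∨ e (st n) = some ((e (st n)).getD false)
  rcases e (st n) with _ | b <;> simp

theorem isClopen_ini (n : ℕ) (s : List Bool) : IsClopen {f : Real2 | ini f n = s} := by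
  induction n generalizing s with
  | zero =>
    by_cases h : s = []
    · subst h
      simpa [ini] using isClopen_univ
    · have : {f : Real2 | ini f 0 = s} = ∅ := by
        ext f
        simp only [ini, Set.mem_ofPred_eq, Set.mem_empty_iff_false, iff_false]
        exact fun h' => h h'.symm
      rw [this]
      exact isClopen_empty
  | succ n ih =>
    cases s with
    | nil =>
      have : {f : Real2 | ini f (n + 1) = []} = ∅ := by
        ext f
        simp [ini]
      rw [this]
      exact isClopen_empty
    | cons b s =>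
      have : {f : Real2 | ini f (n + 1) = b :: s} = {f | f n = b} ∩ {f | ini f n = s} := by
        ext f
        simp [ini]
      rw [this]
      exact (isClopen_discrete {b}).preimage (continuous_apply n) |>.inter (ih s)

theorem isClosed_mem_Zset : IsClosed {p : Cod × Real2 | p.2 ∈ Zset p.1} := by
  have : {p : Cod × Real2 | p.2 ∈ Zset p.1} = ⋂ n : ℕ, ⋂ s : List Bool, ⋂ b : Bool,
      ({p | ini p.2 n = s}ᶜ ∪ ({p | p.2 n = b}ᶜ ∪ {p | Alw p.1 s b})) := by
    ext p
    simp only [mem_iInter, mem_union, mem_compl_iff, Set.mem_ofPred_eq]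
    constructor
    · intro h n s b
      by_cases h1 : ini p.2 n = s
      · by_cases h2 : p.2 n = b
        · exact Or.inr (Or.inr (h1 ▸ h2 ▸ h n))
        · exact Or.inr (Or.inl h2)
      · exact Or.inl h1
    · intro h n
      rcases h n _ _ with h1 | h1 | h1
      · exact absurd rfl h1
      · exact absurd rfl h1
      · exact h1
  rw [this]
  refine isClosed_iInter fun n => isClosed_iInter fun s => isClosed_iInter fun b => ?_
  refine IsClosed.union ?_ (IsClosed.union ?_ ?_)
  · exact ((isClopen_ini n s).preimage continuous_snd).compl.isClosed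
  · have h1 : IsClopen {f : Real2 | f n = b} :=
      (isClopen_discrete {b}).preimage (continuous_apply (A := fun _ : ℕ => Bool) n)
    exact (h1.preimage continuous_snd).compl.isClosed
  · have : {p : Cod × Real2 | Alw p.1 s b} = (fun p : Cod × Real2 => p.1 s) ⁻¹' {none, some b} := by
      ext p
      simp [Alw]
    rw [this]
    exact (isClosed_discrete _).preimage ((continuous_apply s).comp continuous_fst)

theorem isClosed_Zset (e : Cod) : IsClosed (Zset e) :=
  isClosed_mem_Zset.preimage (by fun_prop : Continuous (fun f : Real2 => (e, f)))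

/-- For a fixed point the codes of closed sets missing it are dense and open. -/
theorem isOpen_notMem_Zset (f : Real2) : IsOpen {e : Cod | f ∉ Zset e} := by
  have : IsClosed {e : Cod | f ∈ Zset e} :=
    isClosed_mem_Zset.preimage (by fun_prop : Continuous (fun e : Cod => (e, f)))
  exact this.isOpen_compl

theorem dense_notMem_Zset (f : Real2) : Dense {e : Cod | f ∉ Zset e} := by
  classical
  rw [dense_iff_inter_open]
  rintro U hU ⟨e, he⟩
  obtain ⟨n, hn⟩ := exists_Cyl_subset hU he
  refine ⟨Function.update e (ini f n) (some (!f n)), hn ?_, ?_⟩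
  · intro s hs
    rw [Function.update_of_ne]
    rintro rfl
    rw [length_ini] at hs
    omega
  · intro h
    rcases h n with h1 | h1
    · simp at h1
    · simp at h1

theorem measurableSet_mem_Zset : MeasurableSet {p : Cod × Real2 | p.2 ∈ Zset p.1} :=
  isClosed_mem_Zset.measurableSet

end Pool.Agent.Helper73.Omega
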