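import Pool.Agent.Helper73.OmegaMain
import Pool.Agent.Helper73.OmegaAdequacy

/-!
# `omegaC` is not computable in `omegaB` and `ex2`
-/

namespace Pool.Agent.Helper73.Omega

/-- If the value of a term on the characteristic functions of closed sets is always defined,
then its value for the empty set is also its value for some nonempty closed set.  The free
variables of the term stand for `omegaB` and `ex2`. -/
theorem exists_same_value_of_term (s : Tm [three, two] three)
    (hd : ∀ X : Set Real2, IsClosed X →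
      ∃ v, v ∈ val (ap (s.den (Env.cons omegaB (Env.cons ex2 Env.nil))) (chi X))) :
    ∃ X : Set Real2, IsClosed X ∧ X.Nonempty ∧
      ap (s.den (Env.cons omegaB (Env.cons ex2 Env.nil))) (chi X) =
      ap (s.den (Env.cons omegaB (Env.cons ex2 Env.nil))) (chi ∅) := by
  let ce : CEnv [three, two] := CEnv.cons .om (CEnv.cons .ex fun _ x => nomatch x)
  let r₀ : Stack := fun _ _ => false
  have key : ∀ X : Set Real2, ∀ v,
      v ∈ val (ap (s.den (Env.cons omegaB (Env.cons ex2 Env.nil))) (chi X)) →
      Run X 0 r₀ (.app (.tm s ce) .orc) .nil v := by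
    intro X v hv
    have h1 : Good X three 0 r₀ (s.den (Env.cons omegaB (Env.cons ex2 Env.nil))) (.tm s ce) := by
      refine good_tm s 0 r₀ _ ce ?_
      intro τ x
      cases x with
      | zero => exact good_om X 0 r₀
      | succ x =>
        cases x with
        | zero => exact good_ex X 0 r₀
        | succ x => exact nomatch x
    exact h1 0 r₀ (Ext.refl _ _) _ _ (good_orc X 0 r₀) 0 r₀ (Ext.refl _ _) v hv
  obtain ⟨v, hv⟩ := hd ∅ isClosed_empty
  obtain ⟨X, hX, hne, he⟩ := exists_same_value (N := nodeCfg)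
    (c := ⟨0, _, .app (.tm s ce) .orc, .nil⟩) (r := r₀)
    (fun X hX => by
      obtain ⟨v, hv⟩ := hd X hX
      exact ⟨v, key X v hv⟩) (key ∅ v hv)
  refine ⟨X, hX, hne, ?_⟩
  obtain ⟨w, hw⟩ := hd X hX
  have h1 : w = v := (key X w hw).det he
  rw [h1] at hw
  exact (Part.eq_some_iff.2 hw).trans (Part.eq_some_iff.2 hv).symm

theorem not_computable :
    ¬ ∃ s : Tm [three, two] three, omegaC ≤ s.den (Env.cons omegaB (Env.cons ex2 Env.nil)) := by
  classical
  rintro ⟨s, hs⟩
  have h1 : ∀ X : Set Real2, IsClosed X → (if X.Nonempty then 1 else 0) ∈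
      val (ap (s.den (Env.cons omegaB (Env.cons ex2 Env.nil))) (chi X)) := by
    intro X hX
    have h2 : (if X.Nonempty then 1 else 0) ∈ val (ap omegaC (chi X)) :=
      mem_emptinessOn.2 ⟨X, hX, isChar_chi X, rfl⟩
    have h3 : val (ap omegaC (chi X)) ≤
        val (ap (s.den (Env.cons omegaB (Env.cons ex2 Env.nil))) (chi X)) := le_iff_ap.1 hs _
    exact h3 _ h2
  obtain ⟨X, hX, hne, he⟩ := exists_same_value_of_term s (fun X hX => ⟨_, h1 X hX⟩)
  have h4 := h1 X hX
  have h5 := h1 ∅ isClosed_empty
  rw [he] at h4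
  rw [if_pos hne] at h4
  rw [if_neg Set.not_nonempty_empty] at h5
  exact absurd (Part.mem_unique h4 h5) (by omega)

end Pool.Agent.Helper73.Omega
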