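import Mathlib

/-!
# An evaluation machine with reals, an oracle set and the functionals `ex`, `om`

`Stack` is the type of infinite stacks of reals (elements of Cantor space).  A machine
is a map `N : C → Node C` from codes to node kinds.  `Eval N X c r v` says that the
code `c` with the stack `r` and the oracle set `X` evaluates to the number `v`.
-/

namespace Pool.Agent.Helper73.Omega

/-- Points of Cantor space. -/
abbrev Real2 : Type := ℕ → Bool

/-- Stacks of points of Cantor space. -/
abbrev Stack : Type := ℕ → Real2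

/-- Push a real on a stack. -/
def push (y : Real2) (r : Stack) : Stack := fun n => Nat.casesOn n y r

@[simp] theorem push_zero (y : Real2) (r : Stack) : push y r 0 = y := rfl
@[simp] theorem push_succ (y : Real2) (r : Stack) (n : ℕ) : push y r (n + 1) = r n := rfl

/-- Remove the top real. -/
def pop (r : Stack) : Stack := fun n => r (n + 1)

@[simp] theorem pop_push (y : Real2) (r : Stack) : pop (push y r) = r := rfl

theorem push_head_pop (r : Stack) : push (r 0) (pop r) = r := by
  funext n
  cases n <;> rfl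

/-- The kinds of nodes of an evaluation tree. -/
inductive Node (C : Type) : Type
  | leaf (n : ℕ) : Node C
  | un (h : ℕ → ℕ) (c : C) : Node C
  | look (i : ℕ) (c : C) : Node C
  | branch (a c₁ c₂ : C) : Node C
  | ex (cs : ℕ → C) : Node C
  | orc (cs : ℕ → C) : Node C
  | om (c : C) : Node C

open Classical in
/-- Evaluation of the code `c` with stack `r` and oracle set `X`. -/
inductive Eval {C : Type} (N : C → Node C) (X : Set Real2) : C → Stack → ℕ → Prop
  | leaf {c : C} {r : Stack} {n : ℕ} : N c = Node.leaf n → Eval N X c r n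
  | un {c c' : C} {r : Stack} {h : ℕ → ℕ} {m : ℕ} : N c = Node.un h c' →
      Eval N X c' r m → Eval N X c r (h m)
  | look {c c' : C} {r : Stack} {i m : ℕ} : N c = Node.look i c' →
      Eval N X c' r m → Eval N X c r (r i m).toNat
  | branchZero {c a c₁ c₂ : C} {r : Stack} {v : ℕ} : N c = Node.branch a c₁ c₂ →
      Eval N X a r 0 → Eval N X c₁ r v → Eval N X c r v
  | branchSucc {c a c₁ c₂ : C} {r : Stack} {m v : ℕ} : N c = Node.branch a c₁ c₂ →
      Eval N X a r (m + 1) → Eval N X c₂ r v → Eval N X c r v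
  | ex {c : C} {cs : ℕ → C} {r : Stack} (f : ℕ → ℕ) : N c = Node.ex cs →
      (∀ n, Eval N X (cs n) r (f n)) → Eval N X c r (if ∃ n, f n = 0 then 0 else 1)
  | orc {c : C} {cs : ℕ → C} {r : Stack} (f : Real2) : N c = Node.orc cs →
      (∀ n, Eval N X (cs n) r (f n).toNat) → Eval N X c r (if f ∈ X then 1 else 0)
  | om {c c' : C} {r : Stack} (Y : Set Real2) : N c = Node.om c' → Y.Subsingleton →
      (∀ y, Eval N X c' (push y r) (if y ∈ Y then 1 else 0)) →
      Eval N X c r (if Y.Nonempty then 1 else 0)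

variable {C : Type} {N : C → Node C} {X : Set Real2}

section Inversion

variable {c : C} {r : Stack} {v : ℕ}

theorem Eval.inv_leaf {n : ℕ} (hc : N c = .leaf n) (e : Eval N X c r v) : v = n := by
  cases e <;> simp_all

theorem Eval.inv_un {h : ℕ → ℕ} {c' : C} (hc : N c = .un h c') (e : Eval N X c r v) :
    ∃ m, Eval N X c' r m ∧ v = h m := by
  cases e with
  | un h1 h2 =>
    rw [hc] at h1
    cases h1
    exact ⟨_, h2, rfl⟩
  | _ => simp_all

theorem Eval.inv_look {i : ℕ} {c' : C} (hc : N c = .look i c') (e : Eval N X c r v) :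
    ∃ m, Eval N X c' r m ∧ v = (r i m).toNat := by
  cases e with
  | look h1 h2 =>
    rw [hc] at h1
    cases h1
    exact ⟨_, h2, rfl⟩
  | _ => simp_all

theorem Eval.inv_branch {a c₁ c₂ : C} (hc : N c = .branch a c₁ c₂) (e : Eval N X c r v) :
    (Eval N X a r 0 ∧ Eval N X c₁ r v) ∨ (∃ m, Eval N X a r (m + 1) ∧ Eval N X c₂ r v) := by
  cases e with
  | branchZero h1 h2 h3 =>
    rw [hc] at h1
    cases h1
    exact Or.inl ⟨h2, h3⟩
  | branchSucc h1 h2 h3 =>
    rw [hc] at h1
    cases h1
    exact Or.inr ⟨_, h2, h3⟩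
  | _ => simp_all

open Classical in
theorem Eval.inv_ex {cs : ℕ → C} (hc : N c = .ex cs) (e : Eval N X c r v) :
    ∃ f : ℕ → ℕ, (∀ n, Eval N X (cs n) r (f n)) ∧ v = if ∃ n, f n = 0 then 0 else 1 := by
  cases e with
  | ex f h1 h2 =>
    rw [hc] at h1
    cases h1
    exact ⟨f, h2, rfl⟩
  | _ => simp_all

open Classical in
theorem Eval.inv_orc {cs : ℕ → C} (hc : N c = .orc cs) (e : Eval N X c r v) :
    ∃ f : Real2, (∀ n, Eval N X (cs n) r (f n).toNat) ∧ v = if f ∈ X then 1 else 0 := by
  cases e with
  | orc f h1 h2 =>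
    rw [hc] at h1
    cases h1
    exact ⟨f, h2, rfl⟩
  | _ => simp_all

open Classical in
theorem Eval.inv_om {c' : C} (hc : N c = .om c') (e : Eval N X c r v) :
    ∃ Y : Set Real2, Y.Subsingleton ∧
      (∀ y, Eval N X c' (push y r) (if y ∈ Y then 1 else 0)) ∧
      v = if Y.Nonempty then 1 else 0 := by
  cases e with
  | om Y h1 h2 h3 =>
    rw [hc] at h1
    cases h1
    exact ⟨Y, h2, h3, rfl⟩
  | _ => simp_all

end Inversion

theorem Eval.det {c : C} {r : Stack} {v w : ℕ} (h : Eval N X c r v) (h' : Eval N X c r w) :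
    v = w := by
  induction h generalizing w with
  | leaf hc => exact (h'.inv_leaf hc).symm
  | un hc _ ih =>
    obtain ⟨m, h1, rfl⟩ := h'.inv_un hc
    rw [ih h1]
  | look hc _ ih =>
    obtain ⟨m, h1, rfl⟩ := h'.inv_look hc
    rw [ih h1]
  | branchZero hc _ _ ih1 ih2 =>
    rcases h'.inv_branch hc with ⟨h1, h2⟩ | ⟨m, h1, h2⟩
    · exact ih2 h2
    · exact absurd (ih1 h1) (by omega)
  | branchSucc hc _ _ ih1 ih2 =>
    rcases h'.inv_branch hc with ⟨h1, h2⟩ | ⟨m, h1, h2⟩
    · exact absurd (ih1 h1) (by omega)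
    · exact ih2 h2
  | ex f hc _ ih =>
    obtain ⟨g, h1, rfl⟩ := h'.inv_ex hc
    have : f = g := funext fun n => ih n (h1 n)
    rw [this]
  | orc f hc _ ih =>
    obtain ⟨g, h1, rfl⟩ := h'.inv_orc hc
    have : f = g := funext fun n => by
      have := ih n (h1 n)
      revert this
      cases f n <;> cases g n <;> simp
    rw [this]
  | om Y hc hY _ ih =>
    obtain ⟨Z, _, h1, rfl⟩ := h'.inv_om hc
    have : Y = Z := by
      ext y
      have := ih y (h1 y)
      by_cases hy : y ∈ Y <;> by_cases hz : y ∈ Z <;> simp_all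
    rw [this]

/-- The code `c` with stack `r` has a value. -/
def Def (N : C → Node C) (X : Set Real2) (c : C) (r : Stack) : Prop := ∃ v, Eval N X c r v

/-- The immediate subcomputation relation: `Sub N X s s'` says that the state `s` is an
immediate subcomputation of the state `s'` for the oracle set `X`. -/
inductive Sub (N : C → Node C) (X : Set Real2) : C × Stack → C × Stack → Prop
  | un {c c' : C} {r : Stack} {h : ℕ → ℕ} : N c = Node.un h c' → Sub N X (c', r) (c, r)
  | look {c c' : C} {r : Stack} {i : ℕ} : N c = Node.look i c' → Sub N X (c', r) (c, r)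
  | branchArg {c a c₁ c₂ : C} {r : Stack} : N c = Node.branch a c₁ c₂ → Sub N X (a, r) (c, r)
  | branchZero {c a c₁ c₂ : C} {r : Stack} : N c = Node.branch a c₁ c₂ →
      Eval N X a r 0 → Sub N X (c₁, r) (c, r)
  | branchSucc {c a c₁ c₂ : C} {r : Stack} {m : ℕ} : N c = Node.branch a c₁ c₂ →
      Eval N X a r (m + 1) → Sub N X (c₂, r) (c, r)
  | ex {c : C} {cs : ℕ → C} {r : Stack} (n : ℕ) : N c = Node.ex cs → Sub N X (cs n, r) (c, r)
  | orc {c : C} {cs : ℕ → C} {r : Stack} (n : ℕ) : N c = Node.orc cs → Sub N X (cs n, r) (c, r)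
  | om {c c' : C} {r : Stack} (y : Real2) : N c = Node.om c' → Sub N X (c', push y r) (c, r)

theorem Eval.acc {c : C} {r : Stack} {v : ℕ} (h : Eval N X c r v) : Acc (Sub N X) (c, r) := by
  induction h with
  | leaf hc =>
    refine Acc.intro _ fun s hs => ?_
    cases hs <;> simp_all
  | un hc _ ih =>
    refine Acc.intro _ fun s hs => ?_
    cases hs with
    | un h1 =>
      rw [hc] at h1
      cases h1
      exact ih
    | _ => simp_all
  | look hc _ ih =>
    refine Acc.intro _ fun s hs => ?_
    cases hs with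
    | look h1 =>
      rw [hc] at h1
      cases h1
      exact ih
    | _ => simp_all
  | branchZero hc ha _ ih1 ih2 =>
    refine Acc.intro _ fun s hs => ?_
    cases hs with
    | branchArg h1 =>
      rw [hc] at h1
      cases h1
      exact ih1
    | branchZero h1 _ =>
      rw [hc] at h1
      cases h1
      exact ih2
    | branchSucc h1 h2 =>
      rw [hc] at h1
      cases h1
      exact absurd (ha.det h2) (by omega)
    | _ => simp_all
  | branchSucc hc ha _ ih1 ih2 =>
    refine Acc.intro _ fun s hs => ?_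
    cases hs with
    | branchArg h1 =>
      rw [hc] at h1
      cases h1
      exact ih1
    | branchZero h1 h2 =>
      rw [hc] at h1
      cases h1
      exact absurd (ha.det h2) (by omega)
    | branchSucc h1 _ =>
      rw [hc] at h1
      cases h1
      exact ih2
    | _ => simp_all
  | ex f hc _ ih =>
    refine Acc.intro _ fun s hs => ?_
    cases hs with
    | ex n h1 =>
      rw [hc] at h1
      cases h1
      exact ih n
    | _ => simp_all
  | orc f hc _ ih =>
    refine Acc.intro _ fun s hs => ?_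
    cases hs with
    | orc n h1 =>
      rw [hc] at h1
      cases h1
      exact ih n
    | _ => simp_all
  | om Y hc hY _ ih =>
    refine Acc.intro _ fun s hs => ?_
    cases hs with
    | om y h1 =>
      rw [hc] at h1
      cases h1
      exact ih y
    | _ => simp_all

/-- There is no infinite sequence of subcomputations starting at a defined state. -/
theorem no_descent {s : ℕ → C × Stack} (h0 : Def N X (s 0).1 (s 0).2)
    (hs : ∀ k, Sub N X (s (k + 1)) (s k)) : False := by
  obtain ⟨v, hv⟩ := h0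
  have hacc : Acc (Sub N X) (s 0) := hv.acc
  have key : ∀ t, Acc (Sub N X) t → ∀ k, t = s k → False := by
    intro t ht
    induction ht with
    | intro t _ ih =>
      rintro k rfl
      exact ih _ (hs k) (k + 1) rfl
  exact key _ hacc 0 rfl

/-- Immediate subcomputations of defined states are defined. -/
theorem Def.sub {c c' : C} {r r' : Stack} (h : Def N X c r) (hs : Sub N X (c', r') (c, r)) :
    Def N X c' r' := by
  obtain ⟨v, hv⟩ := h
  cases hs with
  | un h1 => obtain ⟨m, h2, _⟩ := hv.inv_un h1; exact ⟨_, h2⟩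
  | look h1 => obtain ⟨m, h2, _⟩ := hv.inv_look h1; exact ⟨_, h2⟩
  | branchArg h1 =>
    rcases hv.inv_branch h1 with ⟨h2, _⟩ | ⟨m, h2, _⟩
    · exact ⟨_, h2⟩
    · exact ⟨_, h2⟩
  | branchZero h1 h3 =>
    rcases hv.inv_branch h1 with ⟨_, h2⟩ | ⟨m, h2, _⟩
    · exact ⟨_, h2⟩
    · exact absurd (h2.det h3) (by omega)
  | branchSucc h1 h3 =>
    rcases hv.inv_branch h1 with ⟨h2, _⟩ | ⟨m, _, h2⟩
    · exact absurd (h2.det h3) (by omega)
    · exact ⟨_, h2⟩
  | ex n h1 => obtain ⟨f, h2, _⟩ := hv.inv_ex h1; exact ⟨_, h2 n⟩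
  | orc n h1 => obtain ⟨f, h2, _⟩ := hv.inv_orc h1; exact ⟨_, h2 n⟩
  | om y h1 => obtain ⟨Y, _, h2, _⟩ := hv.inv_om h1; exact ⟨_, h2 y⟩

end Pool.Agent.Helper73.Omega
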