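import Pool.Agent.Helper73.OmegaCode
import Pool.Agent.Helper73.OmegaCategory
import Pool.Agent.Helper73.OmegaBorel

/-!
# No machine distinguishes the empty set from all nonempty closed sets
-/

namespace Pool.Agent.Helper73.Omega

open Set Topology Filter TopologicalSpace

variable {C : Type} {N : C → Node C}

/-- A code `c` with a stack `r b` whose values for the oracle sets `B b` and `B b ∪ Z`
differ for many closed sets `Z`. -/
def Bad {T : Type} [TopologicalSpace T] [MeasurableSpace T] (N : C → Node C)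
    (B : T → Set Real2) (c : C) (r : T → Stack) (P : Set (T × Cod)) : Prop :=
  MeasurableSet P ∧ ¬ IsMeagre P ∧ ∀ p ∈ P, ∃ v v', v ≠ v' ∧ Eval N (B p.1) c (r p.1) v ∧
    Eval N (B p.1 ∪ Zset p.2) c (r p.1) v'

theorem nonmeagre_piece {X : Type*} [TopologicalSpace X] {P : Set X} (hP : ¬ IsMeagre P)
    {ι : Type*} [Countable ι] {E : ι → Set X} (h : P ⊆ ⋃ i, E i) :
    ∃ i, ¬ IsMeagre (P ∩ E i) := by
  by_contra hcon
  push Not at hcon
  refine hP ((isMeagre_iUnion hcon).mono ?_)
  intro p hp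
  obtain ⟨i, hi⟩ := mem_iUnion.1 (h hp)
  exact mem_iUnion.2 ⟨i, hp, hi⟩

section Same

variable {T : Type} [TopologicalSpace T] [PolishSpace T] [MeasurableSpace T] [BorelSpace T]
  {B : T → Set Real2} {r : T → Stack} {P : Set (T × Cod)}

instance instPolishCod : PolishSpace Cod := polish_of_compact _

omit [TopologicalSpace T] [PolishSpace T] [BorelSpace T] in
theorem measurableSet_B (hB : MeasurableSet {p : T × Real2 | p.2 ∈ B p.1}) :
    MeasurableSet {p : (T × Cod) × Real2 | p.2 ∈ B p.1.1} :=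
  ((measurable_fst.comp measurable_fst).prodMk measurable_snd :
      Measurable fun p : (T × Cod) × Real2 => (p.1.1, p.2)) hB

omit [TopologicalSpace T] [PolishSpace T] [BorelSpace T] in
theorem measurableSet_W (hB : MeasurableSet {p : T × Real2 | p.2 ∈ B p.1}) :
    MeasurableSet {p : (T × Cod) × Real2 | p.2 ∈ B p.1.1 ∪ Zset p.1.2} := by
  have h1 := ((measurable_snd.comp measurable_fst).prodMk measurable_snd :
      Measurable fun p : (T × Cod) × Real2 => (p.1.2, p.2)) measurableSet_mem_Zset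
  exact (measurableSet_B hB).union h1

theorem measB (hB : MeasurableSet {p : T × Real2 | p.2 ∈ B p.1}) (hr : Measurable r)
    (hP : MeasurableSet P) {c : C} (hd : ∀ p ∈ P, Def N (B p.1) c (r p.1)) (v : ℕ) :
    MeasurableSet {p | p ∈ P ∧ Eval N (B p.1) c (r p.1) v} :=
  measurable_eval' (T := T × Cod) (X := fun p => B p.1) (r := fun p => r p.1)
    (measurableSet_B hB) (hr.comp measurable_fst) hP hd v

theorem measW (hB : MeasurableSet {p : T × Real2 | p.2 ∈ B p.1}) (hr : Measurable r)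
    (hP : MeasurableSet P) {c : C} (hd : ∀ p ∈ P, Def N (B p.1 ∪ Zset p.2) c (r p.1)) (v : ℕ) :
    MeasurableSet {p | p ∈ P ∧ Eval N (B p.1 ∪ Zset p.2) c (r p.1) v} :=
  measurable_eval' (T := T × Cod) (X := fun p => B p.1 ∪ Zset p.2) (r := fun p => r p.1)
    (measurableSet_W hB) (hr.comp measurable_fst) hP hd v

/-- The points at which the two values of `c` differ. -/
theorem measDiff (hB : MeasurableSet {p : T × Real2 | p.2 ∈ B p.1}) (hr : Measurable r)
    (hP : MeasurableSet P) {c : C} (hd : ∀ p ∈ P, Def N (B p.1) c (r p.1))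
    (hd' : ∀ p ∈ P, Def N (B p.1 ∪ Zset p.2) c (r p.1)) :
    MeasurableSet {p | p ∈ P ∧ ∃ v v', v ≠ v' ∧ Eval N (B p.1) c (r p.1) v ∧
      Eval N (B p.1 ∪ Zset p.2) c (r p.1) v'} := by
  have : {p | p ∈ P ∧ ∃ v v', v ≠ v' ∧ Eval N (B p.1) c (r p.1) v ∧
      Eval N (B p.1 ∪ Zset p.2) c (r p.1) v'} = ⋃ v : ℕ, ⋃ v' : ℕ, ⋃ _ : v ≠ v',
      ({p | p ∈ P ∧ Eval N (B p.1) c (r p.1) v} ∩
        {p | p ∈ P ∧ Eval N (B p.1 ∪ Zset p.2) c (r p.1) v'}) := by
    ext p
    simp only [Set.mem_ofPred_eq, mem_iUnion, mem_inter_iff]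
    constructor
    · rintro ⟨hp, v, v', h1, h2, h3⟩
      exact ⟨v, v', h1, ⟨hp, h2⟩, hp, h3⟩
    · rintro ⟨v, v', h1, ⟨hp, h2⟩, _, h3⟩
      exact ⟨hp, v, v', h1, h2, h3⟩
  rw [this]
  exact MeasurableSet.iUnion fun v => MeasurableSet.iUnion fun v' => MeasurableSet.iUnion fun _ =>
    (measB hB hr hP hd v).inter (measW hB hr hP hd' v')

/-- A countable family of subcomputations one of which must be unstable. -/
theorem bad_of_family (hB : MeasurableSet {p : T × Real2 | p.2 ∈ B p.1}) (hr : Measurable r)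
    (hP : MeasurableSet P) (hm : ¬ IsMeagre P) {cs : ℕ → C}
    (hd : ∀ n, ∀ p ∈ P, Def N (B p.1) (cs n) (r p.1))
    (hd' : ∀ n, ∀ p ∈ P, Def N (B p.1 ∪ Zset p.2) (cs n) (r p.1))
    (h : ∀ p ∈ P, ∃ n v v', v ≠ v' ∧ Eval N (B p.1) (cs n) (r p.1) v ∧
      Eval N (B p.1 ∪ Zset p.2) (cs n) (r p.1) v') :
    ∃ n, ∃ P' ⊆ P, Bad N B (cs n) r P' := by
  obtain ⟨n, hn⟩ := nonmeagre_piece hm (E := fun n => {p | p ∈ P ∧ ∃ v v', v ≠ v' ∧
      Eval N (B p.1) (cs n) (r p.1) v ∧ Eval N (B p.1 ∪ Zset p.2) (cs n) (r p.1) v'})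
    (fun p hp => by
      obtain ⟨n, hn⟩ := h p hp
      exact mem_iUnion.2 ⟨n, hp, hn⟩)
  refine ⟨n, _, inter_subset_left, hP.inter (measDiff hB hr hP (hd n) (hd' n)), hn, ?_⟩
  intro p hp
  exact hp.2.2

end Same

/-- The successor property of a bad situation. -/
def Succ' {T : Type} [TopologicalSpace T] (N : C → Node C)
    (B : T → Set Real2) (c : C) (r : T → Stack) (P : Set (T × Cod)) : Prop :=
  ∃ (T' : Type) (_ : TopologicalSpace T') (_ : PolishSpace T') (_ : MeasurableSpace T')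
    (_ : BorelSpace T') (B' : T' → Set Real2) (c' : C) (r' : T' → Stack) (P' : Set (T' × Cod))
    (f : T' × Cod → T × Cod),
    MeasurableSet {p : T' × Real2 | p.2 ∈ B' p.1} ∧ Measurable r' ∧ Bad N B' c' r' P' ∧
    Continuous f ∧ ∀ p ∈ P', f p ∈ P ∧
      (B' p.1 ∪ Zset p.2 = B (f p).1 ∪ Zset (f p).2 ∧
        Sub N (B (f p).1 ∪ Zset (f p).2) (c', r' p.1) (c, r (f p).1))

section Maps

variable {T : Type} [TopologicalSpace T]

/-- The map merging the two last coordinates. -/
noncomputable def mm (T : Type) (t : (T × Cod) × Cod) : T × Cod := (t.1.1, mrg t.1.2 t.2)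

/-- Exchange of the two last coordinates. -/
def sw (T : Type) (t : (T × Cod) × Cod) : (T × Cod) × Cod := ((t.1.1, t.2), t.1.2)

theorem continuous_mm : Continuous (mm T) :=
  (continuous_fst.comp continuous_fst).prodMk
    (continuous_mrg.comp ((continuous_snd.comp continuous_fst).prodMk continuous_snd))

theorem isOpenMap_mm : IsOpenMap (mm T) := by
  have h1 : mm T = (Prod.map id (fun p : Cod × Cod => mrg p.1 p.2)) ∘
      (Homeomorph.prodAssoc T Cod Cod) := by
    funext t
    rfl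
  rw [h1]
  exact (IsOpenMap.id.prodMap isOpenMap_mrg).comp (Homeomorph.prodAssoc T Cod Cod).isOpenMap

theorem continuous_sw : Continuous (sw T) := by
  unfold sw
  fun_prop

theorem isOpenMap_sw : IsOpenMap (sw T) := by
  let h : (T × Cod) × Cod ≃ₜ (T × Cod) × Cod :=
    { toFun := sw T
      invFun := sw T
      left_inv := fun _ => rfl
      right_inv := fun _ => rfl
      continuous_toFun := continuous_sw
      continuous_invFun := continuous_sw }
  exact h.isOpenMap

end Maps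

section Succ

variable {T : Type} [TopologicalSpace T] [PolishSpace T] [MeasurableSpace T] [BorelSpace T]
  {B : T → Set Real2} {r : T → Stack} {P : Set (T × Cod)} {c : C}

theorem succ'_same (hB : MeasurableSet {p : T × Real2 | p.2 ∈ B p.1}) {r' : T → Stack}
    (hr : Measurable r')
    {c' : C} {P' : Set (T × Cod)} (hb : Bad N B c' r' P') (hsub : P' ⊆ P)
    (h : ∀ p ∈ P', Sub N (B p.1 ∪ Zset p.2) (c', r' p.1) (c, r p.1)) : Succ' N B c r P :=
  ⟨T, _, inferInstance, _, inferInstance, B, c', r', P', id, hB, hr, hb, continuous_id,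
    fun p hp => ⟨hsub hp, rfl, h p hp⟩⟩

theorem om_zero {X : Set Real2} {c c' : C} {s : Stack} (hc : N c = .om c')
    (h : Eval N X c s 0) (y : Real2) : Eval N X c' (push y s) 0 := by
  obtain ⟨Y, _, h2, h3⟩ := h.inv_om hc
  have h4 : ¬ Y.Nonempty := by
    intro h4
    rw [if_pos h4] at h3
    omega
  have h5 := h2 y
  rwa [if_neg (fun h => h4 ⟨y, h⟩)] at h5

theorem om_zero_or_one {X : Set Real2} {c c' : C} {s : Stack} {v : ℕ} (hc : N c = .om c')
    (h : Eval N X c s v) : v = 0 ∨ v = 1 := by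
  obtain ⟨Y, _, h2, h3⟩ := h.inv_om hc
  rw [h3]
  split_ifs <;> simp

theorem nonmeagre_of_open {X : Type*} [TopologicalSpace X] [BaireSpace X] {q S : Set X}
    (hq : IsOpen q) (hne : q.Nonempty) (h : ∀ᶠ p in residual X, p ∈ q → p ∈ S) :
    ¬ IsMeagre S := by
  intro hS
  have hS' : ∀ᶠ p in residual X, p ∉ S := hS
  obtain ⟨p, hp, h1, h2⟩ := residual_meets (h.and hS') hq hne
  exact h2 (h1 hp)

theorem eventually_swap {X Y : Type*} [TopologicalSpace X] [TopologicalSpace Y]
    {Q : X × Y → Prop} (h : ∀ᶠ p in residual (X × Y), Q p) :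
    ∀ᶠ p in residual (Y × X), Q p.swap :=
  (tendsto_residual_of_isOpenMap continuous_swap
    (Homeomorph.prodComm Y X).isOpenMap).eventually h

theorem eventually_fst {X Y : Type*} [TopologicalSpace X] [TopologicalSpace Y]
    {Q : X → Prop} (h : ∀ᶠ x in residual X, Q x) :
    ∀ᶠ p in residual (X × Y), Q p.1 :=
  (tendsto_residual_of_isOpenMap continuous_fst isOpenMap_fst).eventually h

/-- The slice property. -/
theorem exists_slice (hP : MeasurableSet P) (hm : ¬ IsMeagre P) :
    ∃ z₀ : Cod, ¬ IsMeagre {p | p ∈ P ∧ (p.1, z₀) ∈ P} := by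
  have h1 : ¬ ∀ᶠ p in residual (T × Cod), p ∈ (univ : Set (T × Cod)) → p ∉ P := by
    intro h
    exact hm (h.mono fun p hp => hp (mem_univ _))
  obtain ⟨q, hq, ⟨⟨b0, z0⟩, hbz⟩, -, h2⟩ := exists_open_of_nonmeagre hP isOpen_univ h1
  obtain ⟨U, V, hU, hV, hb0, hz0, hUV⟩ := isOpen_prod_iff.1 hq b0 z0 hbz
  have h3 := KU1 (eventually_swap h2)
  obtain ⟨z, hz, h4⟩ := residual_meets h3 hV ⟨z0, hz0⟩
  refine ⟨z, nonmeagre_of_open (hU.prod hV) ⟨(b0, z0), hb0, hz0⟩ ?_⟩
  have h5 : ∀ᶠ b in residual T, b ∈ U → (b, z) ∈ P := h4.mono fun b hb hbU => hb (hUV ⟨hbU, hz⟩)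
  filter_upwards [h2, eventually_fst (Y := Cod) h5] with p hp1 hp2 hp3
  exact ⟨hp1 (hUV hp3), hp2 hp3.1⟩

/-- The case of `om`. -/
theorem succ'_om (hB : MeasurableSet {p : T × Real2 | p.2 ∈ B p.1}) (hr : Measurable r)
    (hb : Bad N B c r P) {c' : C} (hc : N c = .om c') : Succ' N B c r P := by
  obtain ⟨hP, hm, hv⟩ := hb
  have hdB : ∀ p ∈ P, Def N (B p.1) c (r p.1) := fun p hp => by
    obtain ⟨v, _, _, h, _⟩ := hv p hp
    exact ⟨v, h⟩
  -- the two kinds of points
  let Pa : Set (T × Cod) := {p | p ∈ P ∧ Eval N (B p.1) c (r p.1) 1}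
  let Pb : Set (T × Cod) := {p | p ∈ P ∧ Eval N (B p.1) c (r p.1) 0}
  have hPa : MeasurableSet Pa := measB hB hr hP hdB 1
  have hPb : MeasurableSet Pb := measB hB hr hP hdB 0
  have hPaW : ∀ p ∈ Pa, Eval N (B p.1 ∪ Zset p.2) c (r p.1) 0 := by
    rintro p ⟨hp, hp1⟩
    obtain ⟨v, v', h1, h2, h3⟩ := hv p hp
    have h4 := h2.det hp1
    rcases om_zero_or_one hc h3 with rfl | rfl
    · exact h3
    · exact absurd h4 h1
  have hPbW : ∀ p ∈ Pb, Eval N (B p.1 ∪ Zset p.2) c (r p.1) 1 := by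
    rintro p ⟨hp, hp1⟩
    obtain ⟨v, v', h1, h2, h3⟩ := hv p hp
    have h4 := h2.det hp1
    rcases om_zero_or_one hc h3 with rfl | rfl
    · exact absurd h4 h1
    · exact h3
  by_cases hma : IsMeagre Pa
  · have hmb : ¬ IsMeagre Pb := by
      intro hmb
      refine hm ((hma.union hmb).mono fun p hp => ?_)
      obtain ⟨v, v', h1, h2, h3⟩ := hv p hp
      rcases om_zero_or_one hc h2 with rfl | rfl
      · exact Or.inr ⟨hp, h2⟩
      · exact Or.inl ⟨hp, h2⟩
    obtain ⟨y, hy, hyP⟩ := exists_measurable_witness (N := N) (T := T × Cod)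
      (X := fun p => B p.1 ∪ Zset p.2) (r := fun p => r p.1) (measurableSet_W hB)
      (hr.comp measurable_fst) hc hPb hPbW
    have h1 : ¬ ∀ᶠ p in residual (T × Cod), p ∈ (univ : Set (T × Cod)) → p ∉ Pb := by
      intro h
      exact hmb (h.mono fun p hp => hp (mem_univ _))
    obtain ⟨q, hq, ⟨⟨b0, z0⟩, hbz⟩, -, h2⟩ := exists_open_of_nonmeagre hPb isOpen_univ h1
    obtain ⟨U, V0, hU, hV0, hb0, hz0, hUV0⟩ := isOpen_prod_iff.1 hq b0 z0 hbz
    obtain ⟨n, hn⟩ := exists_Cyl_subset hV0 hz0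
    let V : Set Cod := Cyl n z0
    have hV : IsOpen V := isOpen_Cyl n z0
    have hz0V : z0 ∈ V := mem_Cyl_self n z0
    have hUV : U ×ˢ V ⊆ q := fun p hp => hUV0 ⟨hp.1, hn hp.2⟩
    have h3 : ∀ᶠ p in residual (T × Cod), p ∈ U ×ˢ V → p ∈ Pb :=
      h2.mono fun p hp hp' => hp (hUV hp')
    have hreg : ∀ᶠ t in residual ((T × Cod) × Cod), t.1 ∈ U ×ˢ V → t.2 ∈ V →
        t.1 ∈ Pb ∧ mm T t ∈ Pb := by
      have h4 := eventually_fst (Y := Cod) h3
      have h5 := (tendsto_residual_of_isOpenMap continuous_mm (isOpenMap_mm (T := T))).eventually h3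
      filter_upwards [h4, h5] with t h4 h5 h6 h7
      exact ⟨h4 h6, h5 ⟨h6.1, mrg_mem_Cyl h6.2 h7⟩⟩
    let Q : Set ((T × Cod) × Cod) := {t | t.1 ∈ Pb ∧ mm T t ∈ Pb ∧ y t.1 ≠ y (mm T t)}
    have hQ : MeasurableSet Q := by
      refine (measurable_fst hPb).inter ((continuous_mm.measurable hPb).inter ?_)
      exact (measurableSet_eq_fun (hy.comp measurable_fst)
        (hy.comp continuous_mm.measurable)).compl
    have hWmm : ∀ t : (T × Cod) × Cod, B t.1.1 ∪ Zset t.1.2 ∪ Zset t.2 =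
        B (mm T t).1 ∪ Zset (mm T t).2 := by
      intro t
      rw [mm, Zset_mrg, union_assoc]
    by_cases hmQ : IsMeagre Q
    · -- the witness does not depend on the last coordinate
      have h4 : ∀ᶠ t in residual ((T × Cod) × Cod), t ∉ Q := hmQ
      have h5 : ∀ᶠ t in residual ((T × Cod) × Cod), t.1 ∈ U ×ˢ V → t.2 ∈ V →
          t.1 ∈ Pb ∧ mm T t ∈ Pb ∧ y t.1 = y (mm T t) := by
        filter_upwards [h4, hreg] with t h4 h5 h6 h7
        obtain ⟨h8, h9⟩ := h5 h6 h7
        refine ⟨h8, h9, ?_⟩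
        by_contra h
        exact h4 ⟨h8, h9, h⟩
      have h6 := (tendsto_residual_of_isOpenMap continuous_sw (isOpenMap_sw (T := T))).eventually h5
      have h7 : ∀ᶠ t in residual ((T × Cod) × Cod), t.1 ∈ U ×ˢ V → t.2 ∈ V →
          y t.1 = y (t.1.1, t.2) := by
        filter_upwards [h5, h6] with t h5 h6 h8 h9
        obtain ⟨h10, h11, h12⟩ := h5 h8 h9
        obtain ⟨h13, h14, h15⟩ := h6 ⟨h8.1, h9⟩ h8.2
        rw [h12]
        have h16 : y (t.1.1, t.2) = y (mm T (sw T t)) := h15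
        rw [h16]
        by_contra hne
        have h17 := (hyP _ h11).1
        have h18 := (hyP _ h14).2 (y (mm T t)) hne
        have h19 : B (mm T (sw T t)).1 ∪ Zset (mm T (sw T t)).2 =
            B (mm T t).1 ∪ Zset (mm T t).2 := by
          simp only [mm, sw, Zset_mrg]
          rw [union_comm (Zset t.2)]
        have h20 : (mm T (sw T t)).1 = (mm T t).1 := rfl
        rw [h19, h20] at h18
        exact absurd (h17.det h18) (by omega)
      have h8 := KU1 (eventually_swap h7)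
      obtain ⟨z1, hz1, h9⟩ := residual_meets h8 hV ⟨z0, hz0V⟩
      let P' : Set (T × Cod) := {p | p ∈ Pb ∧ y p = y (p.1, z1)}
      have hmz : Measurable (fun p : T × Cod => y (p.1, z1)) :=
        hy.comp (measurable_fst.prodMk measurable_const)
      have hP' : MeasurableSet P' := hPb.inter (measurableSet_eq_fun hy hmz)
      have hmP' : ¬ IsMeagre P' := by
        refine nonmeagre_of_open (hU.prod hV) ⟨(b0, z0), hb0, hz0V⟩ ?_
        filter_upwards [h3, h9] with p h10 h11 h12
        exact ⟨h10 h12, h11 h12 hz1⟩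
      refine succ'_same hB (r' := fun b => push (y (b, z1)) (r b)) (c' := c') (P' := P')
        (measurable_push (hy.comp (measurable_id.prodMk measurable_const)) hr)
        ⟨hP', hmP', fun p hp => ?_⟩ (fun p hp => hp.1.1) (fun p _ => Sub.om _ hc)
      refine ⟨0, 1, by omega, om_zero hc hp.1.2 _, ?_⟩
      have h10 := (hyP p hp.1).1
      rw [hp.2] at h10
      exact h10
    · -- the witness changes
      refine ⟨T × Cod, inferInstance, inferInstance, inferInstance, inferInstance,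
        fun p => B p.1 ∪ Zset p.2, c', fun p => push (y p) (r p.1), Q, mm T,
        measurableSet_W hB, measurable_push hy (hr.comp measurable_fst),
        ⟨hQ, hmQ, fun t ht => ?_⟩, continuous_mm, fun t ht => ⟨ht.2.1.1, hWmm t, Sub.om _ hc⟩⟩
      refine ⟨1, 0, by omega, (hyP _ ht.1).1, ?_⟩
      have h4 := (hyP _ ht.2.1).2 (y t.1) ht.2.2
      rw [← hWmm t] at h4
      exact h4
  · obtain ⟨y, hy, hyP⟩ := exists_measurable_witness (N := N) (T := T × Cod)
      (X := fun p => B p.1) (r := fun p => r p.1) (measurableSet_B hB)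
      (hr.comp measurable_fst) hc hPa (fun p hp => hp.2)
    obtain ⟨z1, hz1⟩ := exists_slice hPa hma
    have hP' : MeasurableSet {p | p ∈ Pa ∧ (p.1, z1) ∈ Pa} :=
      hPa.inter ((measurable_fst.prodMk measurable_const :
        Measurable fun p : T × Cod => (p.1, z1)) hPa)
    refine succ'_same hB (r' := fun b => push (y (b, z1)) (r b)) (c' := c')
      (measurable_push (hy.comp (measurable_id.prodMk measurable_const)) hr)
      ⟨hP', hz1, fun p hp => ?_⟩ (fun p hp => hp.1.1) (fun p _ => Sub.om _ hc)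
    exact ⟨1, 0, by omega, (hyP _ hp.2).1, om_zero hc (hPaW p hp.1) _⟩

theorem succ'_of_bad (hB : MeasurableSet {p : T × Real2 | p.2 ∈ B p.1}) (hr : Measurable r)
    (hb : Bad N B c r P) : Succ' N B c r P := by
  classical
  obtain ⟨hP, hm, hv⟩ := hb
  have hdB : ∀ p ∈ P, Def N (B p.1) c (r p.1) := fun p hp => by
    obtain ⟨v, _, _, h, _⟩ := hv p hp
    exact ⟨v, h⟩
  have hdW : ∀ p ∈ P, Def N (B p.1 ∪ Zset p.2) c (r p.1) := fun p hp => by
    obtain ⟨_, v, _, _, h⟩ := hv p hp
    exact ⟨v, h⟩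
  cases hc : N c with
  | leaf n =>
    exfalso
    refine hm ?_
    have : P = ∅ := by
      ext p
      refine ⟨fun hp => ?_, fun h => h.elim⟩
      obtain ⟨v, v', h1, h2, h3⟩ := hv p hp
      exact h1 ((h2.inv_leaf hc).trans (h3.inv_leaf hc).symm)
    rw [this]
    exact IsMeagre.empty
  | un h c' =>
    refine succ'_same hB hr (c' := c') (P' := P) ⟨hP, hm, fun p hp => ?_⟩ subset_rfl
      (fun p _ => Sub.un hc)
    obtain ⟨v, v', h1, h2, h3⟩ := hv p hp
    obtain ⟨m, h4, rfl⟩ := h2.inv_un hc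
    obtain ⟨m', h5, rfl⟩ := h3.inv_un hc
    exact ⟨m, m', fun h => h1 (by rw [h]), h4, h5⟩
  | look i c' =>
    refine succ'_same hB hr (c' := c') (P' := P) ⟨hP, hm, fun p hp => ?_⟩ subset_rfl
      (fun p _ => Sub.look hc)
    obtain ⟨v, v', h1, h2, h3⟩ := hv p hp
    obtain ⟨m, h4, rfl⟩ := h2.inv_look hc
    obtain ⟨m', h5, rfl⟩ := h3.inv_look hc
    exact ⟨m, m', fun h => h1 (by rw [h]), h4, h5⟩
  | branch a c₁ c₂ =>
    have hda : ∀ p ∈ P, Def N (B p.1) a (r p.1) := fun p hp => (hdB p hp).sub (Sub.branchArg hc)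
    have hda' : ∀ p ∈ P, Def N (B p.1 ∪ Zset p.2) a (r p.1) :=
      fun p hp => (hdW p hp).sub (Sub.branchArg hc)
    obtain ⟨⟨u, u'⟩, hu⟩ := nonmeagre_piece hm (E := fun u : ℕ × ℕ =>
      {p | p ∈ P ∧ Eval N (B p.1) a (r p.1) u.1} ∩
        {p | p ∈ P ∧ Eval N (B p.1 ∪ Zset p.2) a (r p.1) u.2})
      (fun p hp => by
        obtain ⟨u, hu⟩ := hda p hp
        obtain ⟨u', hu'⟩ := hda' p hp
        exact mem_iUnion.2 ⟨(u, u'), ⟨hp, hu⟩, hp, hu'⟩)
    have hP' : MeasurableSet (P ∩ ({p | p ∈ P ∧ Eval N (B p.1) a (r p.1) u} ∩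
        {p | p ∈ P ∧ Eval N (B p.1 ∪ Zset p.2) a (r p.1) u'})) :=
      hP.inter ((measB hB hr hP hda u).inter (measW hB hr hP hda' u'))
    by_cases huu : u = u'
    · subst huu
      cases u with
      | zero =>
        refine succ'_same hB hr (c' := c₁) ⟨hP', hu, fun p hp => ?_⟩ inter_subset_left
          (fun p hp => Sub.branchZero hc hp.2.2.2)
        obtain ⟨v, v', h1, h2, h3⟩ := hv p hp.1
        refine ⟨v, v', h1, ?_, ?_⟩
        · rcases h2.inv_branch hc with ⟨_, h4⟩ | ⟨m, h4, _⟩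
          · exact h4
          · exact absurd (h4.det hp.2.1.2) (by omega)
        · rcases h3.inv_branch hc with ⟨_, h4⟩ | ⟨m, h4, _⟩
          · exact h4
          · exact absurd (h4.det hp.2.2.2) (by omega)
      | succ u =>
        refine succ'_same hB hr (c' := c₂) ⟨hP', hu, fun p hp => ?_⟩ inter_subset_left
          (fun p hp => Sub.branchSucc hc hp.2.2.2)
        obtain ⟨v, v', h1, h2, h3⟩ := hv p hp.1
        refine ⟨v, v', h1, ?_, ?_⟩
        · rcases h2.inv_branch hc with ⟨h4, _⟩ | ⟨m, _, h4⟩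
          · exact absurd (h4.det hp.2.1.2) (by omega)
          · exact h4
        · rcases h3.inv_branch hc with ⟨h4, _⟩ | ⟨m, _, h4⟩
          · exact absurd (h4.det hp.2.2.2) (by omega)
          · exact h4
    · exact succ'_same hB hr (c' := a) ⟨hP', hu, fun p hp => ⟨u, u', huu, hp.2.1.2, hp.2.2.2⟩⟩
        inter_subset_left (fun p hp => Sub.branchArg hc)
  | ex cs =>
    obtain ⟨n, P', hP', hb⟩ := bad_of_family hB hr hP hm (cs := cs)
      (fun n p hp => (hdB p hp).sub (Sub.ex n hc)) (fun n p hp => (hdW p hp).sub (Sub.ex n hc))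
      (fun p hp => by
        obtain ⟨v, v', h1, h2, h3⟩ := hv p hp
        obtain ⟨f, h4, rfl⟩ := h2.inv_ex hc
        obtain ⟨g, h5, rfl⟩ := h3.inv_ex hc
        have : f ≠ g := fun h => h1 (by rw [h])
        obtain ⟨n, hn⟩ := Function.ne_iff.1 this
        exact ⟨n, _, _, hn, h4 n, h5 n⟩)
    exact succ'_same hB hr hb hP' (fun p _ => Sub.ex n hc)
  | orc cs =>
    have hdn : ∀ n, ∀ p ∈ P, Def N (B p.1) (cs n) (r p.1) :=
      fun n p hp => (hdB p hp).sub (Sub.orc n hc)
    have hdn' : ∀ n, ∀ p ∈ P, Def N (B p.1 ∪ Zset p.2) (cs n) (r p.1) :=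
      fun n p hp => (hdW p hp).sub (Sub.orc n hc)
    -- the points at which some subcomputation is unstable
    let Q : Set (T × Cod) := ⋃ n : ℕ, {p | p ∈ P ∧ ∃ v v', v ≠ v' ∧
      Eval N (B p.1) (cs n) (r p.1) v ∧ Eval N (B p.1 ∪ Zset p.2) (cs n) (r p.1) v'}
    have hQ : MeasurableSet Q :=
      MeasurableSet.iUnion fun n => measDiff hB hr hP (hdn n) (hdn' n)
    have hPQ : IsMeagre (P \ Q) := by
      have h1 : ∀ᶠ b in residual T, ∀ᶠ z in residual Cod, (b, z) ∈ (P \ Q)ᶜ := by
        refine Eventually.of_forall fun b => ?_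
        by_cases hne : ∃ z, (b, z) ∈ P \ Q
        · obtain ⟨z0, hz0⟩ := hne
          obtain ⟨v0, hv0⟩ := hdB _ hz0.1
          obtain ⟨g, hg, _⟩ := hv0.inv_orc hc
          have hgen : ∀ᶠ z in residual Cod, g ∉ Zset z :=
            residual_of_dense_open (isOpen_notMem_Zset g) (dense_notMem_Zset g)
          refine hgen.mono fun z hz hzP => ?_
          obtain ⟨v, v', h1, h2, h3⟩ := hv _ hzP.1
          obtain ⟨f, h4, rfl⟩ := h2.inv_orc hc
          obtain ⟨f', h5, rfl⟩ := h3.inv_orc hc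
          have hfg : f = g := by
            funext n
            have := (h4 n).det (hg n)
            revert this
            cases f n <;> cases g n <;> simp
          have hff' : f = f' := by
            by_contra h
            obtain ⟨n, hn⟩ := Function.ne_iff.1 h
            refine hzP.2 (mem_iUnion.2 ⟨n, hzP.1, _, _, ?_, h4 n, h5 n⟩)
            revert hn
            cases f n <;> cases f' n <;> simp
          refine h1 ?_
          rw [← hff', hfg]
          have : (g ∈ B (b, z).1 ∪ Zset (b, z).2) ↔ g ∈ B (b, z).1 :=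
            ⟨fun h => h.resolve_right hz, Or.inl⟩
          simp only [this]
        · push Not at hne
          exact Eventually.of_forall fun z => hne z
      exact KU2 (hP.diff hQ).compl h1
    have hPQ' : ¬ IsMeagre (P ∩ Q) := by
      intro h
      refine hm ((h.union hPQ).mono ?_)
      intro p hp
      by_cases hq : p ∈ Q
      · exact Or.inl ⟨hp, hq⟩
      · exact Or.inr ⟨hp, hq⟩
    obtain ⟨n, P', hP', hb⟩ := bad_of_family hB hr (hP.inter hQ) hPQ' (cs := cs)
      (fun n p hp => hdn n p hp.1) (fun n p hp => hdn' n p hp.1)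
      (fun p hp => by
        obtain ⟨n, hn⟩ := mem_iUnion.1 hp.2
        exact ⟨n, hn.2⟩)
    exact succ'_same hB hr hb (hP'.trans inter_subset_left) (fun p _ => Sub.orc n hc)
  | om c' => exact succ'_om hB hr ⟨hP, hm, hv⟩ hc

end Succ

/-- The data of a bad situation. -/
structure Tup (C : Type) where
  /-- the parameter space -/
  T : Type
  [top : TopologicalSpace T]
  [pol : PolishSpace T]
  [mea : MeasurableSpace T]
  [bor : BorelSpace T]
  /-- the family of base sets -/
  B : T → Set Real2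
  hB : MeasurableSet {p : T × Real2 | p.2 ∈ B p.1}
  /-- the code -/
  c : C
  /-- the stack -/
  r : T → Stack
  hr : Measurable r

attribute [instance] Tup.top Tup.pol Tup.mea Tup.bor

/-- **The machine theorem.**  If the evaluation of a code is defined for all closed oracle
sets, then the value for the empty set is also the value for some nonempty closed set. -/
theorem exists_same_value {c : C} {r : Stack} (hd : ∀ X : Set Real2, IsClosed X → Def N X c r)
    {v : ℕ} (hv : Eval N ∅ c r v) : ∃ X : Set Real2, IsClosed X ∧ X.Nonempty ∧ Eval N X c r v := by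
  by_contra hcon
  push Not at hcon
  let a₀ : Tup C :=
    { T := Unit
      B := fun _ => ∅
      hB := by
        have : {p : Unit × Real2 | p.2 ∈ (∅ : Set Real2)} = ∅ := by
          ext p
          simp
        rw [this]
        exact MeasurableSet.empty
      c := c
      r := fun _ => r
      hr := measurable_const }
  have hbs : ∀ a : Tup C, BorelSpace (a.T × Cod) := fun a => inferInstance
  have hps : ∀ a : Tup C, PolishSpace (a.T × Cod) := fun a => inferInstance
  have hbad : Bad N a₀.B a₀.c a₀.r univ := by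
    refine ⟨MeasurableSet.univ, ?_, fun p _ => ?_⟩
    · exact nonmeagre_of_open isOpen_univ ⟨((), fun _ => none), mem_univ _⟩
        (Eventually.of_forall fun _ _ => mem_univ _)
    · obtain ⟨w, hw⟩ := hd _ (isClosed_Zset p.2)
      have h1 : (∅ : Set Real2) ∪ Zset p.2 = Zset p.2 := empty_union _
      refine ⟨v, w, fun h => ?_, hv, ?_⟩
      · subst h
        exact hcon _ (isClosed_Zset p.2) (Zset_nonempty p.2) hw
      · show Eval N ((∅ : Set Real2) ∪ Zset p.2) c r w
        rw [h1]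
        exact hw
  obtain ⟨a, P, w, h1, h2⟩ := @exists_thread (Tup C) (fun a => a.T × Cod)
    (fun _ => inferInstance) hps (fun _ => inferInstance) hbs
    (fun a P => Bad N a.B a.c a.r P)
    (fun a' a p' p => a'.B p'.1 ∪ Zset p'.2 = a.B p.1 ∪ Zset p.2 ∧
        Sub N (a.B p.1 ∪ Zset p.2) (a'.c, a'.r p'.1) (a.c, a.r p.1))
    (fun a P h => ⟨h.1, by
      by_contra hne
      rw [not_nonempty_iff_eq_empty] at hne
      refine h.2.1 ?_
      rw [hne]
      exact IsMeagre.empty⟩)
    (fun a P E h hE hsub => by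
      obtain ⟨j, hj⟩ := nonmeagre_piece h.2.1 hsub
      exact ⟨j, h.1.inter (hE j), hj, fun p hp => h.2.2 p hp.1⟩)
    (fun a P h => by
      obtain ⟨T', _, _, _, _, B', c', r', P', f, h1, h2, h3, h4, h5⟩ :=
        succ'_of_bad a.hB a.hr h
      exact ⟨⟨T', B', h1, c', r', h2⟩, P', f, h3, h4, fun p hp => h5 p hp⟩)
    a₀ univ hbad
  have hconst : ∀ k, (a k).B (w k).1 ∪ Zset (w k).2 = (a 0).B (w 0).1 ∪ Zset (w 0).2 := by
    intro k
    induction k with
    | zero => rfl
    | succ k ih => rw [← ih]; exact (h2 k).1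
  refine no_descent (N := N) (X := (a 0).B (w 0).1 ∪ Zset (w 0).2)
    (s := fun k => ((a k).c, (a k).r (w k).1)) ?_ ?_
  · obtain ⟨_, w', _, _, h3⟩ := (h1 0).1.2.2 _ (h1 0).2
    exact ⟨w', h3⟩
  · intro k
    have := (h2 k).2
    rwa [hconst k] at this

end Pool.Agent.Helper73.Omega
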