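import Pool.Agent.Helper73.UVCProblem
import Pool.Agent.Helper73.SubsetSum
import Pool.Agent.Helper73.UVCTheorem

/-!
# The reduction from satisfiability
-/

namespace Pool.Agent.Helper73.UVC

open Pool.Agent.Helper81.CC Pool.Agent.Helper73.SS

theorem binVal_eq (l : List Bool) : binVal l = bval l := by
  induction l with
  | nil => rfl
  | cons b l ih => simp [binVal, bval, ih]

/-- The row of an item. -/
def itemRow (φ : CNF) (z : (ℕ × ℕ × ℕ) × ℕ) : Row :=
  ((List.range ((idx φ).length + 3)).map (fun k => decide (k = z.2)),
    (false :: false :: false :: itemNum φ z.1, [true]))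

/-- The three last rows. -/
def lastRows (φ : CNF) : List Row :=
  [((List.range ((idx φ).length + 3)).map (fun k => decide (k < (idx φ).length + 2)),
      (true :: false :: true :: tgtNum φ, [true])),
    ((List.range ((idx φ).length + 3)).map (fun k => decide (k = (idx φ).length ∨
      k = (idx φ).length + 2)), ([true, true], [true])),
    ((List.range ((idx φ).length + 3)).map (fun k => decide (k = (idx φ).length + 1 ∨
      k = (idx φ).length + 2)), ([false, false, true], [true]))]

/-- The system of a formula. -/
def sysOf (φ : CNF) : ℕ × List Row :=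
  ((idx φ).length + 3, (idx φ).zipIdx.map (itemRow φ) ++ lastRows φ)

theorem polyTime_sysOf : PolyTime sysOf := by
  have h1 := polyTime_idx
  have h2 := polyTime_itemNum
  have h3 := polyTime_tgtNum
  unfold sysOf itemRow lastRows
  fun_prop

theorem wt_pos (φ : CNF) {i : ℕ × ℕ × ℕ} (hi : i ∈ idx φ) : 0 < wt φ i := by
  rw [wt_eq]
  have key : ∀ p < nv φ + φ.length, 0 < dig φ i p →
      0 < ∑ p ∈ Finset.range (nv φ + φ.length), (2 ^ wd φ) ^ p * dig φ i p := by
    intro p hp h
    refine Finset.sum_pos' (fun _ _ => Nat.zero_le _) ⟨p, Finset.mem_range.2 hp, ?_⟩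
    positivity
  rcases mem_idx.1 hi with ⟨x, hx, rfl⟩ | ⟨x, hx1, hx2, rfl⟩
  · refine key x.2 (by omega) ?_
    rw [dig_lit, if_pos (Or.inl rfl)]
    exact Nat.one_pos
  · refine key (nv φ + x.1) (by omega) ?_
    rw [dig_slk φ x hx2, if_pos rfl]
    positivity

theorem valid_sysOf (φ : CNF) : ValidInst (sysOf φ) := by
  intro ρ hρ
  simp only [sysOf, List.mem_append, List.mem_map, lastRows, List.mem_cons, List.not_mem_nil,
    or_false] at hρ
  rcases hρ with ⟨⟨i, j⟩, hz, rfl⟩ | rfl | rfl | rfl
  · refine ⟨by simp [itemRow, sysOf], ?_, by simp [itemRow, binVal]⟩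
    have hi : i ∈ idx φ := by
      have := List.mem_zipIdx_iff_getElem?.1 hz
      exact List.mem_of_getElem? this
    have := wt_pos φ hi
    simp only [itemRow, binVal_eq, bval]
    unfold wt at this
    simp
    exact this
  · exact ⟨by simp [sysOf], by simp [binVal], by simp [binVal]⟩
  · exact ⟨by simp [sysOf], by simp [binVal], by simp [binVal]⟩
  · exact ⟨by simp [sysOf], by simp [binVal], by simp [binVal]⟩

/-- The instance of a formula. -/
def instOf (φ : CNF) : SysInst := ⟨sysOf φ, valid_sysOf φ⟩

theorem polyTime_instOf : PolyTime instOf := PolyTime.mk polyTime_sysOf valid_sysOf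

/-- Membership in the polyhedron by rows. -/
theorem mem_polyhedron_rows (x : ℕ × List Row) (u : Fin x.1 → ℝ) :
    u ∈ polyhedron (matA x) (vecB x) ↔ (∀ j, 0 ≤ u j) ∧ ∀ ρ ∈ x.2,
      ∑ j : Fin x.1, (if ρ.1.getD j false then u j else 0) ≤
        (((binVal ρ.2.1 : ℚ) / (binVal ρ.2.2 : ℚ) : ℚ) : ℝ) := by
  show ((∀ j, 0 ≤ u j) ∧ ∀ i, dot (matA x i) u ≤ (vecB x i : ℝ)) ↔ _
  refine and_congr_right fun _ => ?_
  have h : ∀ i, dot (matA x i) u =
      ∑ j : Fin x.1, (if (x.2.get i).1.getD j false then u j else 0) := by
    intro i
    unfold dot matA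
    refine Finset.sum_congr rfl fun j _ => ?_
    split_ifs <;> simp
  constructor
  · intro h1 ρ hρ
    obtain ⟨i, rfl⟩ := List.mem_iff_get.1 hρ
    rw [← h i]
    exact h1 i
  · intro h1 i
    rw [h i]
    exact h1 _ (List.get_mem _ _)

theorem dot_redA {n : ℕ} (i : Fin (n + 3)) (u : Fin (n + 3) → ℝ) (g : ℕ → Bool)
    (h : ∀ j : Fin (n + 3), redA n i j = if g j then 1 else 0) :
    dot (redA n i) u = ∑ j : Fin (n + 3),
      (if ((List.range (n + 3)).map g).getD j false then u j else 0) := by
  unfold dot
  refine Finset.sum_congr rfl fun j _ => ?_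
  rw [h j]
  have : ((List.range (n + 3)).map g).getD j false = g j := by
    rw [List.getD_eq_getElem _ _ (by simp)]
    simp
  rw [this]
  split_ifs <;> simp

theorem instPoly_eq (φ : CNF) : instPoly (instOf φ) =
    polyhedron (redA (idx φ).length) (redb (fun j => wt φ ((idx φ).get j)) (tgt φ)) := by
  apply Set.ext
  intro (u : Fin ((idx φ).length + 3) → ℝ)
  refine (mem_polyhedron_rows (sysOf φ) u).trans ?_
  refine and_congr_right fun _ => ?_
  constructor
  · intro h i
    by_cases h1 : i.val < (idx φ).length
    · have h2 : itemRow φ ((idx φ).get ⟨i.val, h1⟩, i.val) ∈ (sysOf φ).2 := by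
        refine List.mem_append_left _ (List.mem_map.2 ⟨_, ?_, rfl⟩)
        rw [List.mem_zipIdx_iff_getElem?]
        simp
      have h3 := h _ h2
      rw [dot_redA i u (fun k => decide (k = i.val)) (fun j => by
        simp only [redA, h1, if_true, decide_eq_true_eq])]
      refine le_trans (le_of_eq ?_) (le_trans h3 (le_of_eq ?_))
      · rfl
      · simp only [itemRow, redb, h1, dif_pos, binVal_eq, bval, wt]
        push_cast
        simp
        ring
    · by_cases h2 : i.val = (idx φ).length
      · have h3 := h ((List.range ((idx φ).length + 3)).map (fun k => decide (k < (idx φ).length + 2)),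
          (true :: false :: true :: tgtNum φ, [true])) (by
            refine List.mem_append_right _ ?_
            simp [lastRows])
        rw [dot_redA i u (fun k => decide (k < (idx φ).length + 2)) (fun j => by
          simp [redA, h2])]
        refine le_trans h3 (le_of_eq ?_)
        simp only [redb, h2, binVal_eq, bval, tgt]
        push_cast
        simp
        ring
      · by_cases h3 : i.val = (idx φ).length + 1
        · have h4 := h ((List.range ((idx φ).length + 3)).map (fun k => decide (k = (idx φ).length ∨ k = (idx φ).length + 2)),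
            ([true, true], [true])) (by
              refine List.mem_append_right _ ?_
              simp [lastRows])
          rw [dot_redA i u (fun k => decide (k = (idx φ).length ∨ k = (idx φ).length + 2)) (fun j => by
            simp [redA, h3])]
          refine le_trans h4 (le_of_eq ?_)
          simp only [redb, h3, binVal]
          norm_num
        · have h4 := h ((List.range ((idx φ).length + 3)).map (fun k => decide (k = (idx φ).length + 1 ∨ k = (idx φ).length + 2)),
            ([false, false, true], [true])) (by
              refine List.mem_append_right _ ?_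
              simp [lastRows])
          rw [dot_redA i u (fun k => decide (k = (idx φ).length + 1 ∨ k = (idx φ).length + 2)) (fun j => by
            simp [redA, h1, h2, h3])]
          refine le_trans h4 (le_of_eq ?_)
          simp only [redb, h1, dif_neg, not_false_eq_true, h2, h3, binVal]
          norm_num
  · intro h ρ hρ
    simp only [sysOf, List.mem_append, List.mem_map, lastRows, List.mem_cons, List.not_mem_nil,
      or_false] at hρ
    rcases hρ with ⟨⟨k, j⟩, hz, rfl⟩ | rfl | rfl | rfl
    · have hk : (idx φ)[j]? = some k := by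
        simpa using List.mem_zipIdx_iff_getElem?.1 hz
      have hj : j < (idx φ).length := by
        exact (List.getElem?_eq_some_iff.1 hk).1
      have hk' : (idx φ).get ⟨j, hj⟩ = k := (List.getElem?_eq_some_iff.1 hk).2
      have h3 := h ⟨j, by omega⟩
      rw [dot_redA ⟨j, by omega⟩ u (fun k => decide (k = j)) (fun j' => by
        simp only [redA, hj, if_true, decide_eq_true_eq])] at h3
      refine le_trans (le_of_eq ?_) (le_trans h3 (le_of_eq ?_))
      · rfl
      · simp only [itemRow, redb, hj, dif_pos, binVal_eq, bval, wt, hk']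
        push_cast
        simp
        ring
    · have h3 := h ⟨(idx φ).length, by omega⟩
      rw [dot_redA ⟨(idx φ).length, by omega⟩ u (fun k => decide (k < (idx φ).length + 2)) (fun j => by
          simp [redA])] at h3
      refine le_trans h3 (le_of_eq ?_)
      simp only [redb, lt_irrefl, dif_neg, not_false_eq_true, if_true, binVal_eq, bval, tgt]
      push_cast
      simp
      ring
    · have h3 := h ⟨(idx φ).length + 1, by omega⟩
      rw [dot_redA ⟨(idx φ).length + 1, by omega⟩ u (fun k => decide (k = (idx φ).length ∨ k = (idx φ).length + 2)) (fun j => by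
          simp [redA])] at h3
      refine le_trans h3 (le_of_eq ?_)
      have h1 : ¬ (idx φ).length + 1 < (idx φ).length := by omega
      simp only [redb, h1, dif_neg, not_false_eq_true, if_true, binVal]
      norm_num
    · have h3 := h ⟨(idx φ).length + 2, by omega⟩
      rw [dot_redA ⟨(idx φ).length + 2, by omega⟩ u (fun k => decide (k = (idx φ).length + 1 ∨ k = (idx φ).length + 2)) (fun j => by
          simp [redA])] at h3
      refine le_trans h3 (le_of_eq ?_)
      have h1 : ¬ (idx φ).length + 2 < (idx φ).length := by omega
      have h2 : ¬ (idx φ).length + 2 = (idx φ).length := by omega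
      have h3 : ¬ (idx φ).length + 2 = (idx φ).length + 1 := by omega
      simp only [redb, h1, h2, h3, dif_neg, not_false_eq_true, if_false, binVal]
      norm_num

/-- The instance of a formula: all matrices `A(u)` are square, and they are all unimodular iff
the formula is not satisfiable. -/
theorem instOf_spec (φ : CNF) : SquareAtVertices (instPoly (instOf φ)) ∧
    (UnimodularAtVertices (instPoly (instOf φ)) ↔ ¬ φ.Satisfiable) := by
  have hw : ∀ j : Fin (idx φ).length, 0 < wt φ ((idx φ).get j) :=
    fun j => wt_pos φ (List.get_mem _ _)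
  rw [instPoly_eq]
  refine ⟨square_at_vertices hw, ?_⟩
  rw [← subset_sum_iff]
  exact unimodular_iff hw

/-- Hardness for coNP with all matrices `A(u)` square, given the hardness of satisfiability. -/
theorem hard_of_sat (h : SAT.HardS) (L : Problem) (hL : L.InCoNP) :
    ∃ f : L.Inst → SysInst, PolyTimeComputable L.enc (encOf SysInst) f ∧
      ∀ a, SquareAtVertices (instPoly (f a)) ∧
        (L.Yes a ↔ UnimodularAtVertices (instPoly (f a))) := by
  obtain ⟨g, hg, h1⟩ := h L.compl hL
  refine ⟨fun a => instOf (g a), (polyTime_instOf.scomp.comp hg).computable, fun a => ?_⟩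
  obtain ⟨h2, h3⟩ := instOf_spec (g a)
  refine ⟨h2, ?_⟩
  rw [h3]
  have h4 : ¬ L.Yes a ↔ (g a).Satisfiable := h1 a
  rw [← h4, not_not]

end Pool.Agent.Helper73.UVC
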