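import Pool.Agent.Helper81.Complexity
import Pool.Agent.Helper81.CompT
import Pool.Agent.Helper73.UVCDefs

/-!
# The decision problem of MP_148663

Instances are 0-1 systems `A x ≤ b` with positive rational right hand sides, the numerators and
denominators being given in binary.
-/

namespace Pool.Agent.Helper73.UVC

open Pool.Agent.Helper81.CC

/-- The value of a binary numeral, least significant bit first. -/
def binVal : List Bool → ℕ
  | [] => 0
  | b :: l => b.toNat + 2 * binVal l

/-- One inequality `a x ≤ p / q`: the 0-1 vector `a`, and the binary numerals of `p` and `q`. -/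
abbrev Row : Type := List Bool × (List Bool × List Bool)

/-- `(n, rows)` is an instance: all rows have `n` coefficients and a positive right hand side. -/
def ValidInst (x : ℕ × List Row) : Prop :=
  ∀ ρ ∈ x.2, ρ.1.length = x.1 ∧ 0 < binVal ρ.2.1 ∧ 0 < binVal ρ.2.2

/-- The instances: the number of columns and the list of the rows of a system. -/
abbrev SysInst : Type := {x : ℕ × List Row // ValidInst x}

/-- The 0-1 matrix `A` of the system. -/
def matA (x : ℕ × List Row) : Matrix (Fin x.2.length) (Fin x.1) ℤ :=
  fun i j => if (x.2.get i).1.getD j false then 1 else 0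

/-- The right hand side `b` of the system. -/
def vecB (x : ℕ × List Row) : Fin x.2.length → ℚ :=
  fun i => (binVal (x.2.get i).2.1 : ℚ) / (binVal (x.2.get i).2.2 : ℚ)

/-- The polyhedron `{x ≥ 0 : A x ≤ b}` of an instance. -/
def instPoly (x : SysInst) : Set (Fin x.1.1 → ℝ) := polyhedron (matA x.1) (vecB x.1)

/-- The decision problem of the question: is `A(u)` a square matrix with `|det A(u)| = 1` for every
vertex `u`? -/
def UnimodularVertices : Problem := Problem.of SysInst fun x => UnimodularAtVertices (instPoly x)

theorem matA_zero_one (x : ℕ × List Row) (i : Fin x.2.length) (j : Fin x.1) :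
    matA x i j = 0 ∨ matA x i j = 1 := by
  unfold matA
  split_ifs <;> simp

theorem vecB_pos (x : SysInst) (i : Fin x.1.2.length) : 0 < vecB x.1 i := by
  have h := x.2 (x.1.2.get i) (List.get_mem _ _)
  unfold vecB
  exact div_pos (by exact_mod_cast h.2.1) (by exact_mod_cast h.2.2)

/-- Every positive rational right hand side and every 0-1 matrix occurs. -/
theorem binVal_surjective (n : ℕ) : ∃ l, binVal l = n := by
  induction n using Nat.strong_induction_on with
  | _ n ih =>
    by_cases hn : n = 0
    · exact ⟨[], by simp [binVal, hn]⟩
    · obtain ⟨l, hl⟩ := ih (n / 2) (by omega)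
      refine ⟨decide (n % 2 = 1) :: l, ?_⟩
      simp only [binVal, hl]
      rcases Nat.mod_two_eq_zero_or_one n with h | h
      · simp [h]; omega
      · simp [h]; omega

end Pool.Agent.Helper73.UVC
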